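import Mathlib

/-!
# Wirtinger operators on the plane, integration by parts, Cauchy transform

(The material of this file is due to helper27.)
-/

set_option autoImplicit false

open MeasureTheory Complex Set Topology Filter
open scoped ContDiff Real

namespace Pool.Agent.Lib.Helper82.Mob

/-- The Wirtinger operator `∂/∂z`. -/
noncomputable def dz (f : ℂ → ℂ) (z : ℂ) : ℂ :=
  (1 / 2) * (fderiv ℝ f z 1 - I * fderiv ℝ f z I)

/-- The Wirtinger operator `∂/∂z̄`. -/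
noncomputable def dzb (f : ℂ → ℂ) (z : ℂ) : ℂ :=
  (1 / 2) * (fderiv ℝ f z 1 + I * fderiv ℝ f z I)

lemma dz_mul {f g : ℂ → ℂ} {z : ℂ} (hf : DifferentiableAt ℝ f z) (hg : DifferentiableAt ℝ g z) :
    dz (fun w => f w * g w) z = dz f z * g z + f z * dz g z := by
  simp only [dz]
  rw [fderiv_fun_mul hf hg]
  simp
  ring

lemma dzb_mul {f g : ℂ → ℂ} {z : ℂ} (hf : DifferentiableAt ℝ f z) (hg : DifferentiableAt ℝ g z) :
    dzb (fun w => f w * g w) z = dzb f z * g z + f z * dzb g z := by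
  simp only [dzb]
  rw [fderiv_fun_mul hf hg]
  simp
  ring

lemma dz_add {f g : ℂ → ℂ} {z : ℂ} (hf : DifferentiableAt ℝ f z) (hg : DifferentiableAt ℝ g z) :
    dz (fun w => f w + g w) z = dz f z + dz g z := by
  simp only [dz]
  rw [fderiv_fun_add hf hg]
  simp
  ring

lemma dzb_add {f g : ℂ → ℂ} {z : ℂ} (hf : DifferentiableAt ℝ f z) (hg : DifferentiableAt ℝ g z) :
    dzb (fun w => f w + g w) z = dzb f z + dzb g z := by
  simp only [dzb]
  rw [fderiv_fun_add hf hg]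
  simp
  ring

lemma dzb_neg {f : ℂ → ℂ} {z : ℂ} :
    dzb (fun w => - f w) z = - dzb f z := by
  simp only [dzb]
  rw [fderiv_fun_neg]
  simp
  ring

lemma dz_conj {f : ℂ → ℂ} {z : ℂ} (hf : DifferentiableAt ℝ f z) :
    dz (fun w => (starRingEnd ℂ) (f w)) z = (starRingEnd ℂ) (dzb f z) := by
  have : HasFDerivAt (fun w => (starRingEnd ℂ) (f w))
      ((Complex.conjCLE : ℂ →L[ℝ] ℂ).comp (fderiv ℝ f z)) z :=
    (Complex.conjCLE : ℂ →L[ℝ] ℂ).hasFDerivAt.comp z hf.hasFDerivAt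
  simp only [dz, dzb]
  rw [this.fderiv]
  simp [map_ofNat]
  ring

lemma dzb_conj {f : ℂ → ℂ} {z : ℂ} (hf : DifferentiableAt ℝ f z) :
    dzb (fun w => (starRingEnd ℂ) (f w)) z = (starRingEnd ℂ) (dz f z) := by
  have : HasFDerivAt (fun w => (starRingEnd ℂ) (f w))
      ((Complex.conjCLE : ℂ →L[ℝ] ℂ).comp (fderiv ℝ f z)) z :=
    (Complex.conjCLE : ℂ →L[ℝ] ℂ).hasFDerivAt.comp z hf.hasFDerivAt
  simp only [dz, dzb]
  rw [this.fderiv]
  simp [map_ofNat]

/-- The function is complex differentiable iff `∂̄ f = 0`. -/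
lemma differentiableAt_iff_dzb {f : ℂ → ℂ} {z : ℂ} (hf : DifferentiableAt ℝ f z) :
    DifferentiableAt ℂ f z ↔ dzb f z = 0 := by
  rw [differentiableAt_complex_iff_differentiableAt_real]
  simp only [dzb]
  constructor
  · rintro ⟨-, h⟩
    rw [h, smul_eq_mul, ← mul_assoc, I_mul_I]
    ring
  · intro h
    refine ⟨hf, ?_⟩
    have h2 : fderiv ℝ f z 1 + I * fderiv ℝ f z I = 0 := by
      have : (1/2 : ℂ) ≠ 0 := by norm_num
      exact (mul_eq_zero.mp h).resolve_left this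
    have h3 : fderiv ℝ f z 1 = - (I * fderiv ℝ f z I) := by linear_combination h2
    rw [smul_eq_mul]
    linear_combination (-I) * h3 + (fderiv ℝ f z I) * I_mul_I

section ibp

lemma cont_fderiv_apply {f : ℂ → ℂ} (hf : ContDiff ℝ 1 f) (v : ℂ) :
    Continuous (fun z => fderiv ℝ f z v) :=
  (hf.continuous_fderiv (by norm_num)).clm_apply continuous_const

lemma ibp_aux {F H : ℂ → ℂ} (hF : ContDiff ℝ 1 F) (hH : ContDiff ℝ 1 H)
    (hs : HasCompactSupport H) (v : ℂ) :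
    ∫ z, F z * fderiv ℝ H z v = - ∫ z, fderiv ℝ F z v * H z := by
  apply integral_mul_fderiv_eq_neg_fderiv_mul_of_integrable
  · apply Continuous.integrable_of_hasCompactSupport
    · exact (cont_fderiv_apply hF v).mul hH.continuous
    · exact hs.mul_left
  · apply Continuous.integrable_of_hasCompactSupport
    · exact hF.continuous.mul (cont_fderiv_apply hH v)
    · exact (hs.fderiv_apply (𝕜 := ℝ) v).mul_left
  · apply Continuous.integrable_of_hasCompactSupport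
    · exact hF.continuous.mul hH.continuous
    · exact hs.mul_left
  · exact fun x _ => hF.differentiable (by norm_num) x
  · exact fun x _ => hH.differentiable (by norm_num) x

lemma integrable_mul_fderiv {F H : ℂ → ℂ} (hF : Continuous F) (hH : ContDiff ℝ 1 H)
    (hs : HasCompactSupport H) (v : ℂ) : Integrable (fun z => F z * fderiv ℝ H z v) := by
  apply Continuous.integrable_of_hasCompactSupport
  · exact hF.mul (cont_fderiv_apply hH v)
  · exact (hs.fderiv_apply (𝕜 := ℝ) v).mul_left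

lemma integrable_fderiv_mul {F H : ℂ → ℂ} (hF : ContDiff ℝ 1 F) (hH : Continuous H)
    (hs : HasCompactSupport H) (v : ℂ) : Integrable (fun z => fderiv ℝ F z v * H z) := by
  apply Continuous.integrable_of_hasCompactSupport
  · exact (cont_fderiv_apply hF v).mul hH
  · exact hs.mul_left

/-- Integration by parts for `∂̄`. -/
lemma ibp_dzb {F H : ℂ → ℂ} (hF : ContDiff ℝ 1 F) (hH : ContDiff ℝ 1 H)
    (hs : HasCompactSupport H) :
    ∫ z, F z * dzb H z = - ∫ z, dzb F z * H z := by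
  have h1 := ibp_aux hF hH hs 1
  have h2 := ibp_aux hF hH hs I
  have e1 : ∀ z, F z * dzb H z = (1/2) * (F z * fderiv ℝ H z 1) + (I/2) * (F z * fderiv ℝ H z I) := by
    intro z; simp only [dzb]; ring
  have e2 : ∀ z, dzb F z * H z = (1/2) * (fderiv ℝ F z 1 * H z) + (I/2) * (fderiv ℝ F z I * H z) := by
    intro z; simp only [dzb]; ring
  simp only [e1, e2]
  rw [integral_add ((integrable_mul_fderiv hF.continuous hH hs 1).const_mul _)
    ((integrable_mul_fderiv hF.continuous hH hs I).const_mul _),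
    integral_add ((integrable_fderiv_mul hF hH.continuous hs 1).const_mul _)
    ((integrable_fderiv_mul hF hH.continuous hs I).const_mul _)]
  simp only [integral_const_mul]
  rw [h1, h2]
  ring

/-- Integration by parts for `∂`. -/
lemma ibp_dz {F H : ℂ → ℂ} (hF : ContDiff ℝ 1 F) (hH : ContDiff ℝ 1 H)
    (hs : HasCompactSupport H) :
    ∫ z, F z * dz H z = - ∫ z, dz F z * H z := by
  have h1 := ibp_aux hF hH hs 1
  have h2 := ibp_aux hF hH hs I
  have e1 : ∀ z, F z * dz H z = (1/2) * (F z * fderiv ℝ H z 1) + (-I/2) * (F z * fderiv ℝ H z I) := by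
    intro z; simp only [dz]; ring
  have e2 : ∀ z, dz F z * H z = (1/2) * (fderiv ℝ F z 1 * H z) + (-I/2) * (fderiv ℝ F z I * H z) := by
    intro z; simp only [dz]; ring
  simp only [e1, e2]
  rw [integral_add ((integrable_mul_fderiv hF.continuous hH hs 1).const_mul _)
    ((integrable_mul_fderiv hF.continuous hH hs I).const_mul _),
    integral_add ((integrable_fderiv_mul hF hH.continuous hs 1).const_mul _)
    ((integrable_fderiv_mul hF hH.continuous hs I).const_mul _)]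
  simp only [integral_const_mul]
  rw [h1, h2]
  ring

end ibp

section second

open InnerProductSpace Laplacian

lemma contDiff_dz {f : ℂ → ℂ} (hf : ContDiff ℝ 2 f) : ContDiff ℝ 1 (dz f) := by
  have h : ContDiff ℝ 1 (fderiv ℝ f) := hf.fderiv_right (by norm_num)
  unfold dz
  exact contDiff_const.mul ((h.clm_apply contDiff_const).sub
    (contDiff_const.mul (h.clm_apply contDiff_const)))

lemma contDiff_dzb {f : ℂ → ℂ} (hf : ContDiff ℝ 2 f) : ContDiff ℝ 1 (dzb f) := by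
  have h : ContDiff ℝ 1 (fderiv ℝ f) := hf.fderiv_right (by norm_num)
  unfold dzb
  exact contDiff_const.mul ((h.clm_apply contDiff_const).add
    (contDiff_const.mul (h.clm_apply contDiff_const)))

lemma fderiv_dz {f : ℂ → ℂ} (hf : ContDiff ℝ 2 f) (z w : ℂ) :
    fderiv ℝ (dz f) z w = (1/2) * (fderiv ℝ (fderiv ℝ f) z w 1 - I * fderiv ℝ (fderiv ℝ f) z w I) := by
  have h : DifferentiableAt ℝ (fderiv ℝ f) z :=
    (hf.fderiv_right (m := 1) (by norm_num)).differentiable (by norm_num) z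
  have h1 : ∀ v : ℂ, HasFDerivAt (fun z => fderiv ℝ f z v)
      ((ContinuousLinearMap.apply ℝ ℂ v).comp (fderiv ℝ (fderiv ℝ f) z)) z := fun v =>
    (ContinuousLinearMap.apply ℝ ℂ v).hasFDerivAt.comp z h.hasFDerivAt
  have h2 : HasFDerivAt (dz f) _ z := ((h1 1).sub ((h1 I).const_mul I)).const_mul (1/2)
  rw [h2.fderiv]
  simp

lemma fderiv_dzb {f : ℂ → ℂ} (hf : ContDiff ℝ 2 f) (z w : ℂ) :
    fderiv ℝ (dzb f) z w = (1/2) * (fderiv ℝ (fderiv ℝ f) z w 1 + I * fderiv ℝ (fderiv ℝ f) z w I) := by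
  have h : DifferentiableAt ℝ (fderiv ℝ f) z :=
    (hf.fderiv_right (m := 1) (by norm_num)).differentiable (by norm_num) z
  have h1 : ∀ v : ℂ, HasFDerivAt (fun z => fderiv ℝ f z v)
      ((ContinuousLinearMap.apply ℝ ℂ v).comp (fderiv ℝ (fderiv ℝ f) z)) z := fun v =>
    (ContinuousLinearMap.apply ℝ ℂ v).hasFDerivAt.comp z h.hasFDerivAt
  have h2 : HasFDerivAt (dzb f) _ z := ((h1 1).add ((h1 I).const_mul I)).const_mul (1/2)
  rw [h2.fderiv]
  simp
  ring

lemma symm_second {f : ℂ → ℂ} (hf : ContDiff ℝ 2 f) (z v w : ℂ) :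
    fderiv ℝ (fderiv ℝ f) z v w = fderiv ℝ (fderiv ℝ f) z w v :=
  (hf.contDiffAt.isSymmSndFDerivAt (by simp)) v w

lemma dzb_dz {f : ℂ → ℂ} (hf : ContDiff ℝ 2 f) (z : ℂ) :
    dzb (dz f) z = (1/4) * (fderiv ℝ (fderiv ℝ f) z 1 1 + fderiv ℝ (fderiv ℝ f) z I I) := by
  rw [dzb, fderiv_dz hf, fderiv_dz hf, symm_second hf z I 1]
  linear_combination (-1/4 * fderiv ℝ (fderiv ℝ f) z I I) * I_mul_I

lemma dz_dzb {f : ℂ → ℂ} (hf : ContDiff ℝ 2 f) (z : ℂ) :
    dz (dzb f) z = dzb (dz f) z := by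
  rw [dzb_dz hf, dz, fderiv_dzb hf, fderiv_dzb hf, symm_second hf z I 1]
  linear_combination (-1/4 * fderiv ℝ (fderiv ℝ f) z I I) * I_mul_I

/-- `∂̄∂φ = Δφ/4` for real `φ`. -/
lemma dzb_dz_ofReal {φ : ℂ → ℝ} (hφ : ContDiff ℝ 2 φ) (z : ℂ) :
    dzb (dz (fun w => (φ w : ℂ))) z = ((Δ φ z / 4 : ℝ) : ℂ) := by
  have hc : ContDiff ℝ 2 (fun w => (φ w : ℂ)) := Complex.ofRealCLM.contDiff.comp hφ
  rw [dzb_dz hc]
  have h : DifferentiableAt ℝ (fderiv ℝ φ) z :=
    (hφ.fderiv_right (m := 1) (by norm_num)).differentiable (by norm_num) z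
  have e1 : fderiv ℝ (fun w => (φ w : ℂ)) = fun w => Complex.ofRealCLM.comp (fderiv ℝ φ w) := by
    funext w
    exact (Complex.ofRealCLM.hasFDerivAt.comp w (hφ.differentiable (by norm_num) w).hasFDerivAt).fderiv
  have e2 : ∀ v w : ℂ, fderiv ℝ (fderiv ℝ (fun w => (φ w : ℂ))) z v w
      = ((fderiv ℝ (fderiv ℝ φ) z v w : ℝ) : ℂ) := by
    intro v w
    rw [e1]
    have : HasFDerivAt (fun w => Complex.ofRealCLM.comp (fderiv ℝ φ w)) _ z :=
      ((ContinuousLinearMap.compL ℝ ℂ ℝ ℂ) Complex.ofRealCLM).hasFDerivAt.comp z h.hasFDerivAt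
    rw [this.fderiv]
    simp
  rw [e2, e2, laplacian_eq_iteratedFDeriv_complexPlane]
  simp only [iteratedFDeriv_two_apply]
  simp
  ring

end second

lemma hasCompactSupport_dz {f : ℂ → ℂ} (hf : HasCompactSupport f) : HasCompactSupport (dz f) := by
  have h1 := hf.fderiv_apply (𝕜 := ℝ) 1
  have h2 := hf.fderiv_apply (𝕜 := ℝ) I
  exact (h1.sub (h2.mul_left (f := fun _ => I))).mul_left (f := fun _ => (1/2 : ℂ))

lemma hasCompactSupport_dzb {f : ℂ → ℂ} (hf : HasCompactSupport f) : HasCompactSupport (dzb f) := by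
  have h1 := hf.fderiv_apply (𝕜 := ℝ) 1
  have h2 := hf.fderiv_apply (𝕜 := ℝ) I
  exact (h1.add (h2.mul_left (f := fun _ => I))).mul_left (f := fun _ => (1/2 : ℂ))

/-- Smooth cutoff function. -/
lemma exists_cutoff {K Ω : Set ℂ} (hK : IsCompact K) (hΩ : IsOpen Ω) (hKΩ : K ⊆ Ω) :
    ∃ χ : ℂ → ℝ, ContDiff ℝ ∞ χ ∧ (∀ᶠ x in 𝓝ˢ K, χ x = 1) ∧ (∀ᶠ x in 𝓝ˢ Ωᶜ, χ x = 0) ∧
      ∀ x, χ x ∈ Icc (0:ℝ) 1 := by
  obtain ⟨f, hf0, hf1, hf⟩ := exists_contMDiffMap_zero_one_nhds_of_isClosed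
    (modelWithCornersSelf ℝ ℂ) (n := ⊤) hΩ.isClosed_compl hK.isClosed
    (disjoint_compl_left_iff_subset.mpr hKΩ)
  exact ⟨f, f.contMDiff.contDiff, hf1, hf0, hf⟩

/-- Smooth cutoff function with compact support. -/
lemma exists_cutoff_compact {K Ω : Set ℂ} (hK : IsCompact K) (hΩ : IsOpen Ω) (hKΩ : K ⊆ Ω) :
    ∃ χ : ℂ → ℝ, ContDiff ℝ ∞ χ ∧ (∀ᶠ x in 𝓝ˢ K, χ x = 1) ∧ HasCompactSupport χ ∧
      tsupport χ ⊆ Ω ∧ ∀ x, χ x ∈ Icc (0:ℝ) 1 := by
  obtain ⟨L, hL, hKL, hLΩ⟩ := exists_compact_between hK hΩ hKΩ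
  obtain ⟨χ, h1, h2, h3, h4⟩ := exists_cutoff hK isOpen_interior hKL
  have hsub : tsupport χ ⊆ L := by
    have : Function.support χ ⊆ interior L := by
      intro x hx
      by_contra hxL
      exact hx (h3.self_of_nhdsSet x hxL)
    exact closure_minimal (this.trans interior_subset) hL.isClosed
  exact ⟨χ, h1, h2, HasCompactSupport.of_support_subset_isCompact hL (subset_closure.trans hsub),
    hsub.trans hLΩ, h4⟩

lemma contDiff_cutoff_smul {E : Type*} [NormedAddCommGroup E] [NormedSpace ℝ E]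
    {Ω : Set ℂ} (hΩ : IsOpen Ω) {χ : ℂ → ℝ} (hχ : ContDiff ℝ ∞ χ)
    (hχ0 : ∀ᶠ x in 𝓝ˢ Ωᶜ, χ x = 0) {n : ℕ∞} {F : ℂ → E} (hF : ContDiffOn ℝ n F Ω) :
    ContDiff ℝ n (fun z => χ z • F z) := by
  rw [contDiff_iff_contDiffAt]
  intro z
  by_cases hz : z ∈ Ω
  · exact (hχ.contDiffAt.of_le (by exact_mod_cast le_top)).smul (hF.contDiffAt (hΩ.mem_nhds hz))
  · have h1 : ∀ᶠ x in 𝓝 z, χ x = 0 := (eventually_nhdsSet_iff_forall.mp hχ0) z hz
    have h2 : (fun z => χ z • F z) =ᶠ[𝓝 z] fun _ => (0 : E) := by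
      filter_upwards [h1] with x hx
      rw [hx, zero_smul]
    exact contDiffAt_const.congr_of_eventuallyEq h2

lemma exists_global {E : Type*} [NormedAddCommGroup E] [NormedSpace ℝ E] {Ω K : Set ℂ}
    (hΩ : IsOpen Ω) (hK : IsCompact K) (hKΩ : K ⊆ Ω) {n : ℕ∞}
    {F : ℂ → E} (hF : ContDiffOn ℝ n F Ω) :
    ∃ F' : ℂ → E, ContDiff ℝ n F' ∧ ∀ᶠ z in 𝓝ˢ K, F' z = F z := by
  obtain ⟨χ, h1, h2, h3, h4⟩ := exists_cutoff hK hΩ hKΩ
  refine ⟨fun z => χ z • F z, contDiff_cutoff_smul hΩ h1 h3 hF, ?_⟩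
  filter_upwards [h2] with z hz
  rw [hz, one_smul]

section CP

/-- `e^{iθ}` written with real trigonometric functions. -/
noncomputable def cis (θ : ℝ) : ℂ := (Real.cos θ : ℂ) + (Real.sin θ : ℂ) * I

lemma cis_conj_mul (θ : ℝ) : ((Real.cos θ : ℂ) - (Real.sin θ : ℂ) * I) * cis θ = 1 := by
  rw [cis]
  have h : (Real.cos θ : ℂ) ^ 2 + (Real.sin θ : ℂ) ^ 2 = 1 := by
    rw [← Complex.ofReal_pow, ← Complex.ofReal_pow, ← Complex.ofReal_add,
      Real.cos_sq_add_sin_sq, Complex.ofReal_one]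
  linear_combination h - (Real.sin θ : ℂ) ^ 2 * I_mul_I

lemma cis_inv (θ : ℝ) : (cis θ)⁻¹ = (Real.cos θ : ℂ) - (Real.sin θ : ℂ) * I :=
  inv_eq_of_eq_inv' (cis_conj_mul θ)
where
  inv_eq_of_eq_inv' {a b : ℂ} (h : b * a = 1) : a⁻¹ = b :=
    (eq_inv_of_mul_eq_one_left h).symm

lemma continuous_cis : Continuous cis := by
  unfold cis; fun_prop

lemma hasDerivAt_cis (θ : ℝ) : HasDerivAt cis (I * cis θ) θ := by
  have h1 : HasDerivAt (fun t : ℝ => (Real.cos t : ℂ)) ((-Real.sin θ : ℝ) : ℂ) θ :=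
    (Real.hasDerivAt_cos θ).ofReal_comp
  have h2 : HasDerivAt (fun t : ℝ => (Real.sin t : ℂ)) ((Real.cos θ : ℝ) : ℂ) θ :=
    (Real.hasDerivAt_sin θ).ofReal_comp
  have h3 := h1.fun_add (h2.mul_const I)
  have h4 : I * cis θ = ((-Real.sin θ : ℝ) : ℂ) + ((Real.cos θ : ℝ) : ℂ) * I := by
    rw [cis, Complex.ofReal_neg]
    linear_combination (Real.sin θ : ℂ) * I_mul_I
  rw [h4]
  exact h3

lemma norm_cis (θ : ℝ) : ‖cis θ‖ = 1 := by
  rw [cis, Complex.norm_add_mul_I]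
  simp

lemma fderiv_cis_smul (ψ : ℂ → ℂ) (z : ℂ) (θ : ℝ) :
    fderiv ℝ ψ z (cis θ) = (Real.cos θ : ℂ) * fderiv ℝ ψ z 1 + (Real.sin θ : ℂ) * fderiv ℝ ψ z I := by
  have : cis θ = Real.cos θ • (1 : ℂ) + Real.sin θ • I := by simp [cis]
  rw [this, map_add, map_smul, map_smul]
  simp

lemma fderiv_I_cis_smul (ψ : ℂ → ℂ) (z : ℂ) (θ : ℝ) :
    fderiv ℝ ψ z (I * cis θ)
      = -(Real.sin θ : ℂ) * fderiv ℝ ψ z 1 + (Real.cos θ : ℂ) * fderiv ℝ ψ z I := by
  have : I * cis θ = (-Real.sin θ) • (1 : ℂ) + Real.cos θ • I := by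
    simp only [cis, Complex.real_smul, Complex.ofReal_neg]
    linear_combination (Real.sin θ : ℂ) * I_mul_I
  rw [this, map_add, map_smul, map_smul]
  simp

lemma cp_pointwise (ψ : ℂ → ℂ) {r : ℝ} (hr : 0 < r) (θ : ℝ) :
    r • (((r : ℂ) * cis θ)⁻¹ * dzb ψ ((r : ℂ) * cis θ))
      = (1/2) * (fderiv ℝ ψ ((r : ℂ) * cis θ) (cis θ)
          + I * fderiv ℝ ψ ((r : ℂ) * cis θ) (I * cis θ)) := by
  rw [fderiv_cis_smul, fderiv_I_cis_smul, dzb, mul_inv, cis_inv, Complex.real_smul]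
  have hr' : (r : ℂ) ≠ 0 := by exact_mod_cast hr.ne'
  field_simp
  linear_combination (-(Real.sin θ : ℂ) * fderiv ℝ ψ ((r : ℂ) * cis θ) I) * I_mul_I

variable {ψ : ℂ → ℂ}

lemma radial_integral (hψ : ContDiff ℝ 1 ψ) (hs : HasCompactSupport ψ) (θ : ℝ) :
    ∫ r in Ioi (0:ℝ), fderiv ℝ ψ ((r : ℂ) * cis θ) (cis θ) = - ψ 0 := by
  have hd : ∀ r : ℝ, HasDerivAt (fun r : ℝ => ψ ((r : ℂ) * cis θ))
      (fderiv ℝ ψ ((r : ℂ) * cis θ) (cis θ)) r := by
    intro r
    have h1 : HasDerivAt (fun r : ℝ => (r : ℂ) * cis θ) (1 * cis θ) r :=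
      (Complex.ofRealCLM.hasDerivAt (x := r)).mul_const (cis θ)
    rw [one_mul] at h1
    exact ((hψ.differentiable (by norm_num) _).hasFDerivAt).comp_hasDerivAt r h1
  have hcont : Continuous (fun r : ℝ => fderiv ℝ ψ ((r : ℂ) * cis θ) (cis θ)) :=
    (cont_fderiv_apply hψ _).comp (by fun_prop)
  obtain ⟨R, hR⟩ : ∃ R : ℝ, ∀ z : ℂ, R < ‖z‖ → z ∉ tsupport ψ := by
    obtain ⟨R, hR⟩ := hs.isBounded.exists_norm_le
    exact ⟨R, fun z hz h => absurd (hR z h) (not_le.mpr hz)⟩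
  have hzero : ∀ r : ℝ, |R| < r → (r : ℂ) * cis θ ∉ tsupport ψ := by
    intro r hr
    apply hR
    rw [norm_mul, norm_cis, mul_one, Complex.norm_real]
    exact (le_abs_self R).trans_lt (hr.trans_le (le_abs_self r))
  have hsupp : HasCompactSupport (fun r : ℝ => fderiv ℝ ψ ((r : ℂ) * cis θ) (cis θ)) := by
    apply HasCompactSupport.of_support_subset_isCompact (isCompact_Icc (a := -|R|) (b := |R|))
    intro r hr
    by_contra hcon
    have h2 : |R| < |r| := by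
      rw [mem_Icc, not_and_or, not_le, not_le] at hcon
      rcases hcon with h | h
      · exact lt_abs.mpr (Or.inr (by linarith))
      · exact lt_abs.mpr (Or.inl h)
    have h3 : (r : ℂ) * cis θ ∉ tsupport ψ := by
      apply hR
      rw [norm_mul, norm_cis, mul_one, Complex.norm_real]
      exact (le_abs_self R).trans_lt h2
    have h4 : ψ =ᶠ[𝓝 ((r : ℂ) * cis θ)] fun _ => 0 := notMem_tsupport_iff_eventuallyEq.mp h3
    apply hr
    simp only
    rw [h4.fderiv_eq]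
    simp
  have hint : IntegrableOn (fun r : ℝ => fderiv ℝ ψ ((r : ℂ) * cis θ) (cis θ)) (Ioi 0) :=
    (hcont.integrable_of_hasCompactSupport hsupp).integrableOn
  have hlim : Tendsto (fun r : ℝ => ψ ((r : ℂ) * cis θ)) atTop (𝓝 0) := by
    apply tendsto_const_nhds.congr'
    filter_upwards [eventually_gt_atTop |R|] with r hr
    exact (image_eq_zero_of_notMem_tsupport (hzero r hr)).symm
  have := integral_Ioi_of_hasDerivAt_of_tendsto (f := fun r : ℝ => ψ ((r : ℂ) * cis θ)) (a := 0)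
    (m := 0) ((hd 0).continuousAt.continuousWithinAt) (fun r _ => hd r) hint hlim
  rw [this]
  simp

lemma angular_integral (hψ : ContDiff ℝ 1 ψ) {r : ℝ} (hr : 0 < r) :
    ∫ θ in Ioo (-π) π, fderiv ℝ ψ ((r : ℂ) * cis θ) (I * cis θ) = 0 := by
  have hd : ∀ θ : ℝ, HasDerivAt (fun θ : ℝ => ψ ((r : ℂ) * cis θ))
      ((r : ℂ) * fderiv ℝ ψ ((r : ℂ) * cis θ) (I * cis θ)) θ := by
    intro θ
    have h1 : HasDerivAt (fun θ : ℝ => (r : ℂ) * cis θ) ((r : ℂ) * (I * cis θ)) θ :=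
      (hasDerivAt_cis θ).const_mul _
    have h2 := ((hψ.differentiable (by norm_num) ((r : ℂ) * cis θ)).hasFDerivAt).comp_hasDerivAt θ h1
    have h3 : (r : ℂ) * (I * cis θ) = r • (I * cis θ) := by rw [Complex.real_smul]
    rw [h3, map_smul, Complex.real_smul] at h2
    exact h2
  have hcont : Continuous (fun θ : ℝ => (r : ℂ) * fderiv ℝ ψ ((r : ℂ) * cis θ) (I * cis θ)) := by
    have h1 : Continuous (fun θ : ℝ => fderiv ℝ ψ ((r : ℂ) * cis θ)) :=
      (hψ.continuous_fderiv (by norm_num)).comp (continuous_const.mul continuous_cis)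
    exact continuous_const.mul (h1.clm_apply (continuous_const.mul continuous_cis))
  have h4 := intervalIntegral.integral_eq_sub_of_hasDerivAt (a := -π) (b := π)
    (f := fun θ : ℝ => ψ ((r : ℂ) * cis θ)) (fun θ _ => hd θ) (hcont.intervalIntegrable _ _)
  have h5 : cis π = cis (-π) := by simp [cis]
  rw [h5, sub_self, intervalIntegral.integral_of_le (by linarith [Real.pi_pos]),
    integral_Ioc_eq_integral_Ioo, integral_const_mul] at h4
  exact (mul_eq_zero.mp h4).resolve_left (by exact_mod_cast hr.ne')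

/-- The Cauchy–Pompeiu formula at the origin, for compactly supported functions. -/
theorem cauchy_pompeiu_zero (hψ : ContDiff ℝ 1 ψ) (hs : HasCompactSupport ψ) :
    ∫ z, z⁻¹ * dzb ψ z = - π * ψ 0 := by
  rw [← Complex.integral_comp_polarCoord_symm]
  have hfd := hψ.continuous_fderiv (by norm_num : (1 : WithTop ℕ∞) ≠ 0)
  have hcA : Continuous (fun p : ℝ × ℝ => fderiv ℝ ψ ((p.1 : ℂ) * cis p.2) (cis p.2)) := by
    have h1 : Continuous (fun p : ℝ × ℝ => fderiv ℝ ψ ((p.1 : ℂ) * cis p.2)) :=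
      hfd.comp ((Complex.continuous_ofReal.comp continuous_fst).mul
        (continuous_cis.comp continuous_snd))
    exact h1.clm_apply (continuous_cis.comp continuous_snd)
  have hcB : Continuous (fun p : ℝ × ℝ => fderiv ℝ ψ ((p.1 : ℂ) * cis p.2) (I * cis p.2)) := by
    have h1 : Continuous (fun p : ℝ × ℝ => fderiv ℝ ψ ((p.1 : ℂ) * cis p.2)) :=
      hfd.comp ((Complex.continuous_ofReal.comp continuous_fst).mul
        (continuous_cis.comp continuous_snd))
    exact h1.clm_apply (continuous_const.mul (continuous_cis.comp continuous_snd))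
  obtain ⟨R, hR⟩ : ∃ R : ℝ, ∀ z : ℂ, R < ‖z‖ → z ∉ tsupport ψ := by
    obtain ⟨R, hR⟩ := hs.isBounded.exists_norm_le
    exact ⟨R, fun z hz h => absurd (hR z h) (not_le.mpr hz)⟩
  have hzero : ∀ p : ℝ × ℝ, |R| < |p.1| → fderiv ℝ ψ ((p.1 : ℂ) * cis p.2) = 0 := by
    intro p hp
    have h3 : (p.1 : ℂ) * cis p.2 ∉ tsupport ψ := by
      apply hR
      rw [norm_mul, norm_cis, mul_one, Complex.norm_real]
      exact (le_abs_self R).trans_lt hp
    have h4 : ψ =ᶠ[𝓝 ((p.1 : ℂ) * cis p.2)] fun _ => 0 := notMem_tsupport_iff_eventuallyEq.mp h3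
    rw [h4.fderiv_eq]
    simp
  have hT : Complex.polarCoord.target = Ioi (0:ℝ) ×ˢ Ioo (-π) π := rfl
  have hT' : _root_.polarCoord.target = Ioi (0:ℝ) ×ˢ Ioo (-π) π := rfl
  have hint : ∀ F : ℝ × ℝ → ℂ, Continuous F → (∀ p : ℝ × ℝ, |R| < |p.1| → F p = 0) →
      IntegrableOn F (Ioi (0:ℝ) ×ˢ Ioo (-π) π) (volume.prod volume) := by
    intro F hF hF0
    have h1 : IntegrableOn F (Icc (-|R|) |R| ×ˢ Icc (-π) π) (volume.prod volume) :=
      hF.continuousOn.integrableOn_compact (isCompact_Icc.prod isCompact_Icc)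
    have h2 : IntegrableOn F ((Ioi (0:ℝ) ×ˢ Ioo (-π) π) ∩ (Icc (-|R|) |R| ×ˢ Icc (-π) π))
        (volume.prod volume) := h1.mono_set inter_subset_right
    have hm : MeasurableSet (Icc (-|R|) |R| ×ˢ Icc (-π) π) := measurableSet_Icc.prod measurableSet_Icc
    rw [← inter_union_sdiff (Ioi (0:ℝ) ×ˢ Ioo (-π) π) (Icc (-|R|) |R| ×ˢ Icc (-π) π)]
    apply h2.union
    apply (integrableOn_zero (s := (Ioi (0:ℝ) ×ˢ Ioo (-π) π) \ (Icc (-|R|) |R| ×ˢ Icc (-π) π))).congr_fun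
    · intro p hp
      obtain ⟨hp1, hp2⟩ := hp
      rw [mem_prod] at hp1 hp2
      have h5 : p.1 ∉ Icc (-|R|) |R| := by
        intro h; exact hp2 ⟨h, Ioo_subset_Icc_self hp1.2⟩
      have h6 : |R| < |p.1| := by
        rw [mem_Icc, not_and_or, not_le, not_le] at h5
        rcases h5 with h | h
        · exact lt_abs.mpr (Or.inr (by linarith))
        · exact lt_abs.mpr (Or.inl h)
      exact (hF0 p h6).symm
    · exact (measurableSet_Ioi.prod measurableSet_Ioo).diff hm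
  have hiA := hint _ hcA (fun p hp => by rw [hzero p hp]; rfl)
  have hiB := hint _ hcB (fun p hp => by rw [hzero p hp]; rfl)
  have step1 : ∫ p in Ioi (0:ℝ) ×ˢ Ioo (-π) π,
      p.1 • ((Complex.polarCoord.symm p)⁻¹ * dzb ψ (Complex.polarCoord.symm p))
      = ∫ p in Ioi (0:ℝ) ×ˢ Ioo (-π) π, ((1/2) * fderiv ℝ ψ ((p.1 : ℂ) * cis p.2) (cis p.2)
          + (I/2) * fderiv ℝ ψ ((p.1 : ℂ) * cis p.2) (I * cis p.2)) := by
    apply setIntegral_congr_fun (measurableSet_Ioi.prod measurableSet_Ioo)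
    intro p hp
    have h1 : Complex.polarCoord.symm p = (p.1 : ℂ) * cis p.2 := by
      rw [Complex.polarCoord_symm_apply, cis]
    simp only
    rw [h1, cp_pointwise ψ hp.1]
    ring
  rw [hT', step1, Measure.volume_eq_prod, integral_add (hiA.const_mul _) (hiB.const_mul _),
    integral_const_mul, integral_const_mul]
  have hA : ∫ p in Ioi (0:ℝ) ×ˢ Ioo (-π) π, fderiv ℝ ψ ((p.1 : ℂ) * cis p.2) (cis p.2)
      ∂(volume.prod volume) = - (2 * π) * ψ 0 := by
    rw [← setIntegral_prod_swap]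
    have h7 := setIntegral_prod _ hiA.swap
    simp only [Function.comp, Prod.swap, radial_integral hψ hs] at h7
    simp only [Prod.swap]
    rw [h7, setIntegral_const]
    have h8 : volume.real (Ioo (-π) π) = 2 * π := by
      rw [Real.volume_real_Ioo_of_le (by linarith [Real.pi_pos])]; ring
    rw [h8, Complex.real_smul]
    push_cast
    ring
  have hB : ∫ p in Ioi (0:ℝ) ×ˢ Ioo (-π) π, fderiv ℝ ψ ((p.1 : ℂ) * cis p.2) (I * cis p.2)
      ∂(volume.prod volume) = 0 := by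
    rw [setIntegral_prod _ hiB]
    have : ∀ r ∈ Ioi (0:ℝ), ∫ θ in Ioo (-π) π, fderiv ℝ ψ ((r : ℂ) * cis θ) (I * cis θ) = 0 :=
      fun r hr => angular_integral hψ hr
    rw [setIntegral_congr_fun measurableSet_Ioi this]
    simp
  rw [hA, hB]
  ring

end CP

section CauchyTransform

variable {ψ : ℂ → ℂ}

lemma fderiv_shift (ψ : ℂ → ℂ) (z t : ℂ) :
    fderiv ℝ (fun s => ψ (s + z)) t = fderiv ℝ ψ (t + z) := fderiv_comp_add_right z

lemma dzb_shift (ψ : ℂ → ℂ) (z t : ℂ) : dzb (fun s => ψ (s + z)) t = dzb ψ (t + z) := by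
  simp only [dzb, fderiv_shift]

/-- The Cauchy–Pompeiu formula for compactly supported functions. -/
theorem cauchy_pompeiu (hψ : ContDiff ℝ 1 ψ) (hs : HasCompactSupport ψ) (z : ℂ) :
    ∫ t, (t - z)⁻¹ * dzb ψ t = - π * ψ z := by
  have h1 : ContDiff ℝ 1 (fun s => ψ (s + z)) := hψ.comp (contDiff_id.add contDiff_const)
  have h2 : HasCompactSupport (fun s => ψ (s + z)) :=
    hs.comp_homeomorph (Homeomorph.addRight z)
  have h3 := cauchy_pompeiu_zero h1 h2
  simp only [dzb_shift, zero_add] at h3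
  rw [← h3, ← integral_add_right_eq_self _ z]
  simp

lemma locallyIntegrable_inv : LocallyIntegrable (fun t : ℂ => t⁻¹) volume := by
  refine locallyIntegrable_of_norm_le_rpow (C := 1) (α := 1) (by simp) (by simp)
    (Eventually.of_forall fun x => ?_) measurable_inv.aestronglyMeasurable
  rw [norm_inv, Real.rpow_neg (norm_nonneg _), Real.rpow_one, one_mul]

/-- The (unnormalized) Cauchy transform of a test function. -/
noncomputable def cauchyT (ψ : ℂ → ℂ) (w : ℂ) : ℂ := ∫ t : ℂ, t⁻¹ * ψ (w - t)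

lemma cauchyT_eq (ψ : ℂ → ℂ) :
    cauchyT ψ = convolution (fun t : ℂ => t⁻¹) ψ (ContinuousLinearMap.mul ℝ ℂ) volume := by
  funext w
  rfl

lemma cauchyT_eq' (ψ : ℂ → ℂ) (w : ℂ) : cauchyT ψ w = ∫ z : ℂ, (w - z)⁻¹ * ψ z := by
  rw [cauchyT, ← integral_sub_left_eq_self _ volume w]
  simp

lemma contDiff_cauchyT (hψ : ContDiff ℝ 2 ψ) (hs : HasCompactSupport ψ) :
    ContDiff ℝ 2 (cauchyT ψ) := by
  rw [cauchyT_eq]
  exact hs.contDiff_convolution_right (n := 2) _ locallyIntegrable_inv hψ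

lemma fderiv_cauchyT (hψ : ContDiff ℝ 1 ψ) (hs : HasCompactSupport ψ) (w v : ℂ) :
    fderiv ℝ (cauchyT ψ) w v = ∫ t : ℂ, t⁻¹ * fderiv ℝ ψ (w - t) v := by
  rw [cauchyT_eq, (hs.hasFDerivAt_convolution_right _ locallyIntegrable_inv hψ w).fderiv,
    convolution_precompR_apply _ locallyIntegrable_inv (hs.fderiv ℝ)
      (hψ.continuous_fderiv (by norm_num))]
  rfl

lemma integrable_inv_mul {g : ℂ → ℂ} (hg : Continuous g) (hs : HasCompactSupport g) :
    Integrable (fun t : ℂ => t⁻¹ * g t) := by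
  have h : Integrable (fun t : ℂ => g t • t⁻¹) :=
    locallyIntegrable_inv.integrable_smul_left_of_hasCompactSupport hg hs
  exact h.congr (Eventually.of_forall fun t => by simp [mul_comm])

lemma dzb_cauchyT (hψ : ContDiff ℝ 1 ψ) (hs : HasCompactSupport ψ) (w : ℂ) :
    dzb (cauchyT ψ) w = π * ψ w := by
  have hsh : ∀ v : ℂ, Integrable (fun t : ℂ => t⁻¹ * fderiv ℝ ψ (w - t) v) := by
    intro v
    apply integrable_inv_mul (g := fun t => fderiv ℝ ψ (w - t) v)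
    · exact (cont_fderiv_apply hψ v).comp (continuous_const.sub continuous_id)
    · exact (hs.fderiv_apply (𝕜 := ℝ) v).comp_homeomorph (Homeomorph.subLeft w)
  have h1 : dzb (cauchyT ψ) w = ∫ t : ℂ, t⁻¹ * dzb ψ (w - t) := by
    rw [dzb, fderiv_cauchyT hψ hs, fderiv_cauchyT hψ hs, ← integral_const_mul,
      ← integral_add (hsh 1) ((hsh I).const_mul I), ← integral_const_mul]
    congr 1
    funext t
    rw [dzb]
    ring
  have h2 := cauchy_pompeiu hψ hs w
  rw [h1]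
  have h3 : ∫ t : ℂ, t⁻¹ * dzb ψ (w - t) = ∫ t : ℂ, (w - t)⁻¹ * dzb ψ t := by
    rw [← integral_sub_left_eq_self _ volume w]
    simp
  rw [h3]
  have h4 : ∫ t : ℂ, (w - t)⁻¹ * dzb ψ t = - ∫ t : ℂ, (t - w)⁻¹ * dzb ψ t := by
    rw [← integral_neg]
    congr 1
    funext t
    rw [← neg_sub t w, inv_neg]
    ring
  rw [h4, h2]
  ring

end CauchyTransform


end Pool.Agent.Lib.Helper82.Mob
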