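import Pool.Agent.Lib.Helper82.Mob.Proper

/-!
# The surface is complete
-/

set_option autoImplicit false

open MeasureTheory Complex Set Topology Filter
open scoped ContDiff Real ComplexConjugate RealInnerProductSpace

namespace Pool.Agent.Lib.Helper82.Mob

lemma norm_fderiv_uu {z : ℂ} (hz : z ∈ Om) (v : ℂ) :
    ‖fderiv ℝ uu z v‖ ^ 2 = (∑ k, ‖W k z‖ ^ 2) / 2 * ‖v‖ ^ 2 := by
  have h1 := iso_re hz
  have h2 := iso_im hz
  rw [fderiv_uu hz, reL_apply, norm_sq_E4, ← sum_re_sq hz, ← Complex.normSq_eq_norm_sq v,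
    normSq_apply]
  simp only [reV_apply, Complex.mul_re]
  simp only [Fin.sum_univ_four] at h1 h2 ⊢
  linear_combination (v.im ^ 2) * (-h1) - 2 * v.re * v.im * h2

lemma continuousOn_N : ContinuousOn (fun z => (∑ k, ‖W k z‖ ^ 2)) Om := by
  refine continuousOn_finsetSum _ fun k _ => ?_
  exact ((contDiffOn_W k).continuousOn.norm).pow 2

lemma exists_kappa (C : ℝ) : ∃ κ : ℝ, 0 < κ ∧ ∀ z ∈ KK C, ∀ v : ℂ, κ * ‖v‖ ≤ ‖fderiv ℝ uu z v‖ := by
  rcases (KK C).eq_empty_or_nonempty with h | h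
  · exact ⟨1, one_pos, fun z hz => by rw [h] at hz; exact absurd hz (notMem_empty z)⟩
  · obtain ⟨z₀, hz₀, hmin⟩ := (isCompact_KK C).exists_isMinOn h (continuousOn_N.mono (KK_sub C))
    have hN := N_pos (KK_sub C hz₀)
    refine ⟨Real.sqrt ((∑ k, ‖W k z₀‖ ^ 2) / 2), Real.sqrt_pos.mpr (by positivity), ?_⟩
    intro z hz v
    have h1 : (∑ k, ‖W k z₀‖ ^ 2) ≤ ∑ k, ‖W k z‖ ^ 2 := hmin hz
    apply le_of_sq_le_sq _ (norm_nonneg _)
    rw [mul_pow, Real.sq_sqrt (by positivity), norm_fderiv_uu (KK_sub C hz)]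
    gcongr

theorem isCompleteSurface : IsCompleteSurface Om uu := by
  intro γ hγ hγΩ hint
  have hd : ∀ t, 0 ≤ t → HasDerivAt (fun s => uu (γ s)) (fderiv ℝ uu (γ t) (deriv γ t)) t := by
    intro t ht
    have h1 : DifferentiableAt ℝ uu (γ t) :=
      (contDiffOn_uu.contDiffAt (isOpen_Om.mem_nhds (hγΩ t ht))).differentiableAt (by simp)
    exact h1.hasFDerivAt.comp_hasDerivAt t ((hγ.differentiable (by simp)) t).hasDerivAt
  have hcd : Continuous (deriv γ) := hγ.continuous_deriv (by simp)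
  have hcf : ContinuousOn (fun t => fderiv ℝ uu (γ t) (deriv γ t)) (Ici 0) := by
    have h1 : ContinuousOn (fderiv ℝ uu) Om :=
      contDiffOn_uu.continuousOn_fderiv_of_isOpen isOpen_Om (by simp)
    exact (h1.comp hγ.continuous.continuousOn hγΩ).clm_apply hcd.continuousOn
  have hint' : IntegrableOn (fun t => fderiv ℝ uu (γ t) (deriv γ t)) (Ici 0) := by
    have h2 : AEStronglyMeasurable (fun t => fderiv ℝ uu (γ t) (deriv γ t))
        (volume.restrict (Ici (0:ℝ))) := hcf.aestronglyMeasurable measurableSet_Ici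
    exact (integrable_norm_iff h2).mp hint
  have hlim := tendsto_limUnder_of_hasDerivAt_of_integrableOn_Ioi
    (f := fun s => uu (γ s)) (f' := fun t => fderiv ℝ uu (γ t) (deriv γ t)) (a := 0)
    (fun t ht => hd t ht.le) (hint'.mono_set Ioi_subset_Ici_self)
  -- boundedness
  obtain ⟨R, hR⟩ : ∃ R, ∀ t, 0 ≤ t → ‖uu (γ t)‖ ≤ R := by
    have h1 := hlim.norm.eventually_le_const (lt_add_one _)
    obtain ⟨t₀, ht₀⟩ := eventually_atTop.mp h1
    have hcu : ContinuousOn (fun s => uu (γ s)) (Icc 0 t₀) := fun t ht =>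
      (hd t ht.1).continuousAt.continuousWithinAt
    obtain ⟨R₁, hR₁⟩ := isCompact_Icc.exists_bound_of_continuousOn hcu
    refine ⟨max R₁ (‖limUnder atTop fun s => uu (γ s)‖ + 1), fun t ht => ?_⟩
    by_cases h : t ≤ t₀
    · exact (hR₁ t ⟨ht, h⟩).trans (le_max_left _ _)
    · exact (ht₀ t (not_le.mp h).le).trans (le_max_right _ _)
  have hK : ∀ t, 0 ≤ t → γ t ∈ KK (3 * R + 1) := fun t ht => mem_KK (hγΩ t ht) (hR t ht)
  obtain ⟨κ, hκ, hκ2⟩ := exists_kappa (3 * R + 1)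
  have hγi : IntegrableOn (deriv γ) (Ioi 0) := by
    have h1 : Integrable (fun t => κ⁻¹ * ‖fderiv ℝ uu (γ t) (deriv γ t)‖)
        (volume.restrict (Ioi (0:ℝ))) := (hint.mono_set Ioi_subset_Ici_self).const_mul κ⁻¹
    refine h1.mono' hcd.aestronglyMeasurable ?_
    refine (ae_restrict_iff' measurableSet_Ioi).mpr (Eventually.of_forall fun t ht => ?_)
    have := hκ2 (γ t) (hK t (le_of_lt ht)) (deriv γ t)
    rw [← div_eq_inv_mul, le_div_iff₀ hκ, mul_comm]
    exact this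
  have hlim2 := tendsto_limUnder_of_hasDerivAt_of_integrableOn_Ioi
    (f := γ) (f' := deriv γ) (a := 0)
    (fun t _ => ((hγ.differentiable (by simp)) t).hasDerivAt) hγi
  refine ⟨_, KK_sub (3 * R + 1) ((isClosed_KK _).mem_of_tendsto hlim2 ?_), hlim2⟩
  filter_upwards [eventually_ge_atTop 0] with t ht using hK t ht

end Pool.Agent.Lib.Helper82.Mob
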