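import Pool.Agent.Lib.Helper82.Mob.Wirt

/-!
# Decay of the Cauchy transform and the Beurling isometry
-/

set_option autoImplicit false

open MeasureTheory Complex Set Topology Filter
open scoped ContDiff Real

namespace Pool.Agent.Lib.Helper82.Mob

variable {ψ : ℂ → ℂ}

lemma exists_radius (hs : HasCompactSupport ψ) : ∃ R : ℝ, 1 ≤ R ∧ ∀ w, R < ‖w‖ → ψ w = 0 := by
  obtain ⟨R, hR⟩ := hs.isBounded.exists_norm_le
  refine ⟨max R 1, le_max_right _ _, fun w hw => ?_⟩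
  apply image_eq_zero_of_notMem_tsupport
  intro h
  exact absurd (hR w h) (not_le.mpr (lt_of_le_of_lt (le_max_left _ _) hw))

lemma cauchyT_far (hψ : Continuous ψ) (hs : HasCompactSupport ψ) :
    ∃ C R : ℝ, 0 ≤ C ∧ 0 < R ∧ ∀ z, R ≤ ‖z‖ → ‖cauchyT ψ z‖ ≤ C / ‖z‖ := by
  obtain ⟨R, hR1, hR⟩ := exists_radius hs
  have hint : Integrable ψ := hψ.integrable_of_hasCompactSupport hs
  refine ⟨2 * ∫ w, ‖ψ w‖, 2 * R, by positivity, by linarith, fun z hz => ?_⟩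
  have hz0 : 0 < ‖z‖ := by linarith
  rw [cauchyT_eq', show 2 * (∫ w, ‖ψ w‖) / ‖z‖ = ∫ w, (2 / ‖z‖) * ‖ψ w‖ by
    rw [integral_const_mul]; ring]
  apply norm_integral_le_of_norm_le (hint.norm.const_mul _)
  apply Eventually.of_forall
  intro w
  rw [norm_mul]
  by_cases hw : R < ‖w‖
  · rw [hR w hw]; simp
  · apply mul_le_mul_of_nonneg_right _ (norm_nonneg _)
    rw [norm_inv]
    have h1 : ‖z‖ / 2 ≤ ‖z - w‖ := by
      have := norm_sub_norm_le z w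
      linarith [not_lt.mp hw]
    calc ‖z - w‖⁻¹ ≤ (‖z‖ / 2)⁻¹ := inv_anti₀ (by positivity) h1
      _ = 2 / ‖z‖ := by rw [inv_div]

lemma integral_dz_eq_zero (hψ : ContDiff ℝ 1 ψ) (hs : HasCompactSupport ψ) :
    ∫ z, dz ψ z = 0 := by
  have h := ibp_dz (F := fun _ => (1:ℂ)) contDiff_const hψ hs
  simp only [one_mul] at h
  rw [h]
  have : dz (fun _ : ℂ => (1:ℂ)) = fun _ => 0 := by funext z; simp [dz]
  rw [this]; simp

lemma cauchyT_far2 (hψ : Continuous ψ) (hs : HasCompactSupport ψ) (h0 : ∫ z, ψ z = 0) :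
    ∃ C R : ℝ, 0 ≤ C ∧ 0 < R ∧ ∀ z, R ≤ ‖z‖ → ‖cauchyT ψ z‖ ≤ C / ‖z‖ ^ 2 := by
  obtain ⟨R, hR1, hR⟩ := exists_radius hs
  have hint : Integrable ψ := hψ.integrable_of_hasCompactSupport hs
  refine ⟨2 * R * ∫ w, ‖ψ w‖, 2 * R, by positivity, by linarith, fun z hz => ?_⟩
  have hz0 : 0 < ‖z‖ := by linarith
  have hz0' : z ≠ 0 := norm_pos_iff.mp hz0
  have key : cauchyT ψ z = ∫ w, ((z - w)⁻¹ - z⁻¹) * ψ w := by
    have e : ∀ w, ((z - w)⁻¹ - z⁻¹) * ψ w = (z - w)⁻¹ * ψ w - z⁻¹ * ψ w := fun w => by ring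
    simp only [e]
    rw [integral_sub, integral_const_mul, h0, mul_zero, sub_zero, cauchyT_eq']
    · have h1 := integrable_inv_mul (g := fun t => ψ (z - t)) (hψ.comp (by fun_prop))
        (hs.comp_homeomorph (Homeomorph.subLeft z))
      have h2 := h1.comp_sub_left z
      simpa using h2
    · exact hint.const_mul _
  rw [key, show 2 * R * (∫ w, ‖ψ w‖) / ‖z‖ ^ 2 = ∫ w, (2 * R / ‖z‖ ^ 2) * ‖ψ w‖ by
    rw [integral_const_mul]; ring]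
  apply norm_integral_le_of_norm_le (hint.norm.const_mul _)
  apply Eventually.of_forall
  intro w
  rw [norm_mul]
  by_cases hw : R < ‖w‖
  · rw [hR w hw]; simp
  · apply mul_le_mul_of_nonneg_right _ (norm_nonneg _)
    have hw' := not_lt.mp hw
    have h1 : ‖z‖ / 2 ≤ ‖z - w‖ := by
      have := norm_sub_norm_le z w
      linarith
    have hzw : z - w ≠ 0 := norm_pos_iff.mp (by linarith)
    have e : (z - w)⁻¹ - z⁻¹ = w * ((z - w)⁻¹ * z⁻¹) := by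
      field_simp; ring
    rw [e, norm_mul, norm_mul, norm_inv, norm_inv]
    calc ‖w‖ * (‖z - w‖⁻¹ * ‖z‖⁻¹) ≤ R * ((‖z‖ / 2)⁻¹ * ‖z‖⁻¹) := by
          gcongr
      _ = 2 * R / ‖z‖ ^ 2 := by field_simp

lemma decay_global {f : ℂ → ℂ} (hf : Continuous f) {k : ℕ} {C R : ℝ} (hR : 0 < R) (hC : 0 ≤ C)
    (h : ∀ z, R ≤ ‖z‖ → ‖f z‖ ≤ C / ‖z‖ ^ k) :
    ∃ C' : ℝ, 0 ≤ C' ∧ ∀ z, ‖f z‖ ≤ C' * (1 + ‖z‖) ^ (-(k : ℝ)) := by
  obtain ⟨B, hB⟩ := (isCompact_closedBall (0:ℂ) (R + 1)).exists_bound_of_continuousOn hf.continuousOn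
  have hB0 : 0 ≤ B := (norm_nonneg _).trans (hB 0 (by simp; linarith))
  refine ⟨B * (R + 2) ^ k + C * (1 + R⁻¹) ^ k, by positivity, fun z => ?_⟩
  have hz1 : 0 < 1 + ‖z‖ := by positivity
  rw [Real.rpow_neg hz1.le, Real.rpow_natCast, ← div_eq_mul_inv, le_div_iff₀ (by positivity)]
  by_cases hz : ‖z‖ ≤ R + 1
  · have h1 := hB z (by simpa using hz)
    calc ‖f z‖ * (1 + ‖z‖) ^ k ≤ B * (R + 2) ^ k := by
          have h2 : 1 + ‖z‖ ≤ R + 2 := by linarith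
          exact mul_le_mul h1 (pow_le_pow_left₀ hz1.le h2 k) (by positivity) hB0
      _ ≤ _ := by
          have : 0 ≤ C * (1 + R⁻¹) ^ k := by positivity
          linarith
  · have hz' : R ≤ ‖z‖ := by linarith [not_le.mp hz]
    have hzpos : 0 < ‖z‖ := by linarith
    have h1 := h z hz'
    calc ‖f z‖ * (1 + ‖z‖) ^ k ≤ C / ‖z‖ ^ k * (1 + ‖z‖) ^ k := by gcongr
      _ = C * ((1 + ‖z‖) / ‖z‖) ^ k := by rw [div_pow]; ring
      _ ≤ C * (1 + R⁻¹) ^ k := by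
          gcongr
          rw [add_div, div_self hzpos.ne', add_comm, one_div]
          gcongr
      _ ≤ _ := by
          have : 0 ≤ B * (R + 2) ^ k := by positivity
          linarith

lemma dz_cauchyT (hψ : ContDiff ℝ 1 ψ) (hs : HasCompactSupport ψ) (w : ℂ) :
    dz (cauchyT ψ) w = cauchyT (dz ψ) w := by
  have hsh : ∀ v : ℂ, Integrable (fun t : ℂ => t⁻¹ * fderiv ℝ ψ (w - t) v) := by
    intro v
    apply integrable_inv_mul (g := fun t => fderiv ℝ ψ (w - t) v)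
    · exact (cont_fderiv_apply hψ v).comp (continuous_const.sub continuous_id)
    · exact (hs.fderiv_apply (𝕜 := ℝ) v).comp_homeomorph (Homeomorph.subLeft w)
  rw [dz, fderiv_cauchyT hψ hs, fderiv_cauchyT hψ hs, ← integral_const_mul,
      ← integral_sub (hsh 1) ((hsh I).const_mul I), ← integral_const_mul, cauchyT]
  congr 1
  funext t
  rw [dz]
  ring

lemma integral_fderiv_eq_zero (hψ : ContDiff ℝ 1 ψ) (hs : HasCompactSupport ψ) (v : ℂ) :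
    ∫ z, fderiv ℝ ψ z v = 0 := by
  have h := ibp_aux (F := fun _ => (1:ℂ)) contDiff_const hψ hs v
  simp only [one_mul] at h
  rw [h]
  simp

lemma fderiv_cauchyT' (hψ : ContDiff ℝ 1 ψ) (hs : HasCompactSupport ψ) (v : ℂ) :
    (fun w => fderiv ℝ (cauchyT ψ) w v) = cauchyT (fun z => fderiv ℝ ψ z v) := by
  funext w
  rw [fderiv_cauchyT hψ hs, cauchyT]

lemma contDiff_one_cauchyT (hψ : ContDiff ℝ 1 ψ) (hs : HasCompactSupport ψ) :
    ContDiff ℝ 1 (cauchyT ψ) := by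
  rw [cauchyT_eq]
  exact hs.contDiff_convolution_right (n := 1) _ locallyIntegrable_inv hψ

lemma cauchyT_decay (hψ : ContDiff ℝ 1 ψ) (hs : HasCompactSupport ψ) :
    ∃ D : ℝ, 0 ≤ D ∧ ∀ z, ‖cauchyT ψ z‖ ≤ D * (1 + ‖z‖) ^ (-((1:ℕ) : ℝ)) := by
  obtain ⟨C1, R1, hC1, hR1', hb1⟩ := cauchyT_far hψ.continuous hs
  exact decay_global (k := 1) (contDiff_one_cauchyT hψ hs).continuous hR1' hC1 (by simpa using hb1)

lemma fderiv_cauchyT_decay (hψ : ContDiff ℝ 1 ψ) (hs : HasCompactSupport ψ) (v : ℂ) :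
    ∃ D : ℝ, 0 ≤ D ∧ ∀ z, ‖fderiv ℝ (cauchyT ψ) z v‖ ≤ D * (1 + ‖z‖) ^ (-((2:ℕ) : ℝ)) := by
  obtain ⟨C1, R1, hC1, hR1', hb1⟩ := cauchyT_far2 (cont_fderiv_apply hψ v)
    (hs.fderiv_apply (𝕜 := ℝ) v) (integral_fderiv_eq_zero hψ hs v)
  refine decay_global (k := 2) (cont_fderiv_apply (contDiff_one_cauchyT hψ hs) v) hR1' hC1 ?_
  rw [← fderiv_cauchyT' hψ hs v] at hb1
  exact hb1

lemma integrable_of_decay {f : ℂ → ℂ} (hf : Continuous f) {r : ℝ} (hr : 2 < r) {D : ℝ}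
    (h : ∀ z, ‖f z‖ ≤ D * (1 + ‖z‖) ^ (-r)) : Integrable f := by
  have hint : Integrable (fun z : ℂ => (1 + ‖z‖) ^ (-r)) := by
    apply integrable_one_add_norm
    rw [Complex.finrank_real_complex]
    exact_mod_cast hr
  exact (hint.const_mul D).mono' hf.aestronglyMeasurable (Eventually.of_forall h)

lemma integrable_mul_of_decay {f g : ℂ → ℂ} (hf : Continuous f) (hg : Continuous g) {a b : ℕ}
    (hab : 3 ≤ a + b) (h1 : ∃ D : ℝ, 0 ≤ D ∧ ∀ z, ‖f z‖ ≤ D * (1 + ‖z‖) ^ (-(a : ℝ)))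
    (h2 : ∃ D : ℝ, 0 ≤ D ∧ ∀ z, ‖g z‖ ≤ D * (1 + ‖z‖) ^ (-(b : ℝ))) :
    Integrable (fun z => f z * g z) := by
  obtain ⟨D1, hD1, h1⟩ := h1
  obtain ⟨D2, hD2, h2⟩ := h2
  have hab' : (2:ℝ) < ((a + b : ℕ) : ℝ) := by
    have : (3:ℝ) ≤ ((a + b : ℕ) : ℝ) := by exact_mod_cast hab
    linarith
  refine integrable_of_decay (hf.mul hg) hab' (D := D1 * D2) (fun z => ?_)
  have hz1 : 0 < 1 + ‖z‖ := by positivity
  rw [norm_mul]
  calc ‖f z‖ * ‖g z‖ ≤ (D1 * (1 + ‖z‖) ^ (-(a : ℝ))) * (D2 * (1 + ‖z‖) ^ (-(b : ℝ))) :=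
        mul_le_mul (h1 z) (h2 z) (norm_nonneg _) (by positivity)
    _ = (D1 * D2) * ((1 + ‖z‖) ^ (-(a : ℝ)) * (1 + ‖z‖) ^ (-(b : ℝ))) := by ring
    _ = (D1 * D2) * (1 + ‖z‖) ^ (-((a + b : ℕ) : ℝ)) := by
        rw [← Real.rpow_add hz1]; push_cast; ring_nf

lemma dz_decay {f : ℂ → ℂ} {a : ℕ}
    (h : ∀ v : ℂ, ∃ D : ℝ, 0 ≤ D ∧ ∀ z, ‖fderiv ℝ f z v‖ ≤ D * (1 + ‖z‖) ^ (-(a : ℝ))) :
    ∃ D : ℝ, 0 ≤ D ∧ ∀ z, ‖dz f z‖ ≤ D * (1 + ‖z‖) ^ (-(a : ℝ)) := by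
  obtain ⟨D1, hD1, h1⟩ := h 1
  obtain ⟨D2, hD2, h2⟩ := h I
  refine ⟨D1 + D2, by positivity, fun z => ?_⟩
  rw [dz, norm_mul]
  have : ‖fderiv ℝ f z 1 - I * fderiv ℝ f z I‖ ≤ ‖fderiv ℝ f z 1‖ + ‖fderiv ℝ f z I‖ := by
    refine (norm_sub_le _ _).trans ?_
    rw [norm_mul, Complex.norm_I, one_mul]
  have hh : ‖(1/2 : ℂ)‖ ≤ 1 := by norm_num
  calc ‖(1/2 : ℂ)‖ * ‖fderiv ℝ f z 1 - I * fderiv ℝ f z I‖
      ≤ 1 * (‖fderiv ℝ f z 1‖ + ‖fderiv ℝ f z I‖) := by gcongr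
    _ ≤ D1 * (1 + ‖z‖) ^ (-(a : ℝ)) + D2 * (1 + ‖z‖) ^ (-(a : ℝ)) := by
        rw [one_mul]; exact add_le_add (h1 z) (h2 z)
    _ = _ := by ring

/-- The Beurling transform is an isometry of `L²` (for test functions). -/
theorem beurling (hψ : ContDiff ℝ 2 ψ) (hs : HasCompactSupport ψ) :
    Integrable (fun z => ‖dz (cauchyT ψ) z‖ ^ 2) ∧
    ∫ z, ‖dz (cauchyT ψ) z‖ ^ 2 = π ^ 2 * ∫ z, ‖ψ z‖ ^ 2 := by
  have hψ1 : ContDiff ℝ 1 ψ := hψ.of_le (by norm_num)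
  have hdψ : ContDiff ℝ 1 (dz ψ) := contDiff_dz hψ
  have hsd : HasCompactSupport (dz ψ) := hasCompactSupport_dz hs
  have hR2 : ContDiff ℝ 2 (cauchyT ψ) := contDiff_cauchyT hψ hs
  have hR1 : ContDiff ℝ 1 (cauchyT ψ) := hR2.of_le (by norm_num)
  have hdR : ContDiff ℝ 1 (dz (cauchyT ψ)) := contDiff_dz hR2
  have e1 : dz (cauchyT ψ) = cauchyT (dz ψ) := funext fun w => dz_cauchyT hψ1 hs w
  have dR := cauchyT_decay hψ1 hs
  have dfR := fun v => fderiv_cauchyT_decay hψ1 hs v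
  have ddR := dz_decay dfR
  have ddfR : ∀ v, ∃ D : ℝ, 0 ≤ D ∧ ∀ z, ‖fderiv ℝ (dz (cauchyT ψ)) z v‖
      ≤ D * (1 + ‖z‖) ^ (-((2:ℕ) : ℝ)) := by
    rw [e1]; exact fun v => fderiv_cauchyT_decay hdψ hsd v
  set cR : ℂ → ℂ := fun z => (starRingEnd ℂ) (cauchyT ψ z) with hcR
  have hcR1 : ContDiff ℝ 1 cR := (Complex.conjCLE : ℂ →L[ℝ] ℂ).contDiff.comp hR1
  have dcR : ∃ D : ℝ, 0 ≤ D ∧ ∀ z, ‖cR z‖ ≤ D * (1 + ‖z‖) ^ (-((1:ℕ) : ℝ)) := by
    obtain ⟨D, h1, h2⟩ := dR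
    exact ⟨D, h1, fun z => by simpa [hcR] using h2 z⟩
  have fcR : ∀ z v, fderiv ℝ cR z v = (starRingEnd ℂ) (fderiv ℝ (cauchyT ψ) z v) := by
    intro z v
    have : HasFDerivAt cR ((Complex.conjCLE : ℂ →L[ℝ] ℂ).comp (fderiv ℝ (cauchyT ψ) z)) z :=
      (Complex.conjCLE : ℂ →L[ℝ] ℂ).hasFDerivAt.comp z
        (hR1.differentiable (by norm_num) z).hasFDerivAt
    rw [this.fderiv]; simp
  have dfcR : ∀ v, ∃ D : ℝ, 0 ≤ D ∧ ∀ z, ‖fderiv ℝ cR z v‖ ≤ D * (1 + ‖z‖) ^ (-((2:ℕ) : ℝ)) := by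
    intro v
    obtain ⟨D, h1, h2⟩ := dfR v
    exact ⟨D, h1, fun z => by rw [fcR]; simpa using h2 z⟩
  have i1 : ∀ v, Integrable (fun z => fderiv ℝ (dz (cauchyT ψ)) z v * cR z) := fun v =>
    integrable_mul_of_decay (cont_fderiv_apply hdR v) hcR1.continuous (a := 2) (b := 1)
      (by norm_num) (ddfR v) dcR
  have i2 : ∀ v, Integrable (fun z => dz (cauchyT ψ) z * fderiv ℝ cR z v) := fun v =>
    integrable_mul_of_decay hdR.continuous (cont_fderiv_apply hcR1 v) (a := 2) (b := 2)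
      (by norm_num) ddR (dfcR v)
  have i3 : Integrable (fun z => dz (cauchyT ψ) z * cR z) :=
    integrable_mul_of_decay hdR.continuous hcR1.continuous (a := 2) (b := 1)
      (by norm_num) ddR dcR
  have key : ∀ v : ℂ, ∫ z, dz (cauchyT ψ) z * fderiv ℝ cR z v
      = - ∫ z, fderiv ℝ (dz (cauchyT ψ)) z v * cR z := fun v =>
    integral_mul_fderiv_eq_neg_fderiv_mul_of_integrable (i1 v) (i2 v) i3
      (fun x _ => hdR.differentiable (by norm_num) x)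
      (fun x _ => hcR1.differentiable (by norm_num) x)
  have dcR1 : ∀ z, dzb cR z = (starRingEnd ℂ) (dz (cauchyT ψ) z) := fun z =>
    dzb_conj (hR1.differentiable (by norm_num) z)
  have dcR2 : ∀ z, dz cR z = π * (starRingEnd ℂ) (ψ z) := fun z => by
    rw [hcR, dz_conj (hR1.differentiable (by norm_num) z), dzb_cauchyT hψ1 hs, map_mul,
      Complex.conj_ofReal]
  have s1 : ∫ z, dz (cauchyT ψ) z * dzb cR z = - ∫ z, dzb (dz (cauchyT ψ)) z * cR z := by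
    have e1 : ∀ z, dz (cauchyT ψ) z * dzb cR z = (1/2) * (dz (cauchyT ψ) z * fderiv ℝ cR z 1)
        + (I/2) * (dz (cauchyT ψ) z * fderiv ℝ cR z I) := by
      intro z; rw [dzb]; ring
    have e2 : ∀ z, dzb (dz (cauchyT ψ)) z * cR z
        = (1/2) * (fderiv ℝ (dz (cauchyT ψ)) z 1 * cR z)
        + (I/2) * (fderiv ℝ (dz (cauchyT ψ)) z I * cR z) := by
      intro z; rw [dzb]; ring
    simp only [e1, e2]
    rw [integral_add ((i2 1).const_mul _) ((i2 I).const_mul _),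
      integral_add ((i1 1).const_mul _) ((i1 I).const_mul _)]
    simp only [integral_const_mul]
    rw [key 1, key I]
    ring
  have s2 : ∀ z, dzb (dz (cauchyT ψ)) z = π * dz ψ z := by
    intro z
    rw [e1, dzb_cauchyT hdψ hsd]
  have s3 : ∫ z, cR z * dz ψ z = - ∫ z, dz cR z * ψ z := ibp_dz hcR1 hψ1 hs
  have s4 : ∫ z, dz (cauchyT ψ) z * dzb cR z = π ^ 2 * ∫ z, ψ z * (starRingEnd ℂ) (ψ z) := by
    rw [s1]
    have : ∀ z, dzb (dz (cauchyT ψ)) z * cR z = π * (cR z * dz ψ z) := by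
      intro z; rw [s2]; ring
    simp only [this]
    rw [integral_const_mul, s3]
    have : ∀ z, dz cR z * ψ z = π * (ψ z * (starRingEnd ℂ) (ψ z)) := by
      intro z; rw [dcR2]; ring
    simp only [this]
    rw [integral_const_mul]
    ring
  have n1 : ∀ z, dz (cauchyT ψ) z * dzb cR z = ((‖dz (cauchyT ψ) z‖ ^ 2 : ℝ) : ℂ) := by
    intro z; rw [dcR1, Complex.mul_conj, Complex.normSq_eq_norm_sq]
  have n2 : ∀ z, ψ z * (starRingEnd ℂ) (ψ z) = ((‖ψ z‖ ^ 2 : ℝ) : ℂ) := by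
    intro z; rw [Complex.mul_conj, Complex.normSq_eq_norm_sq]
  simp only [n1, n2] at s4
  rw [integral_complex_ofReal, integral_complex_ofReal] at s4
  constructor
  · have i4 : Integrable (fun z => dz (cauchyT ψ) z * dzb cR z) := by
      have e1 : ∀ z, dz (cauchyT ψ) z * dzb cR z = (1/2) * (dz (cauchyT ψ) z * fderiv ℝ cR z 1)
          + (I/2) * (dz (cauchyT ψ) z * fderiv ℝ cR z I) := by
        intro z; rw [dzb]; ring
      simp only [e1]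
      exact ((i2 1).const_mul _).add ((i2 I).const_mul _)
    simp only [n1] at i4
    exact i4.re.congr (Eventually.of_forall fun z => Complex.ofReal_re _)
  · exact_mod_cast s4

end Pool.Agent.Lib.Helper82.Mob
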