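import Pool.Agent.Lib.Helper82.Mob.Core

/-!
# The basic inequality for one component
-/

set_option autoImplicit false

open MeasureTheory Complex Set Topology Filter
open scoped ContDiff Real

namespace Pool.Agent.Lib.Helper82.Mob

/-- Normalized Cauchy transform, a right inverse of `∂̄`. -/
noncomputable def cT (G : ℂ → ℂ) (z : ℂ) : ℂ := (π : ℂ)⁻¹ * cauchyT G z

variable {G X : ℂ → ℂ}

lemma contDiff_cT (hG : ContDiff ℝ 2 G) (hs : HasCompactSupport G) : ContDiff ℝ 2 (cT G) :=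
  contDiff_const.mul (contDiff_cauchyT hG hs)

lemma fderiv_const_mul' {f : ℂ → ℂ} {z : ℂ} (hf : DifferentiableAt ℝ f z) (c v : ℂ) :
    fderiv ℝ (fun w => c * f w) z v = c * fderiv ℝ f z v := by
  rw [(hf.hasFDerivAt.const_mul c).fderiv]
  simp

lemma dz_const_mul {f : ℂ → ℂ} {z : ℂ} (hf : DifferentiableAt ℝ f z) (c : ℂ) :
    dz (fun w => c * f w) z = c * dz f z := by
  rw [dz, dz, fderiv_const_mul' hf, fderiv_const_mul' hf]; ring

lemma dzb_const_mul {f : ℂ → ℂ} {z : ℂ} (hf : DifferentiableAt ℝ f z) (c : ℂ) :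
    dzb (fun w => c * f w) z = c * dzb f z := by
  rw [dzb, dzb, fderiv_const_mul' hf, fderiv_const_mul' hf]; ring

lemma dzb_cT (hG : ContDiff ℝ 2 G) (hs : HasCompactSupport G) : dzb (cT G) = G := by
  funext z
  have h := (contDiff_cauchyT hG hs).differentiable (by norm_num) z
  unfold cT
  rw [dzb_const_mul h, dzb_cauchyT (hG.of_le (by norm_num)) hs]
  have hπ : (π : ℂ) ≠ 0 := by exact_mod_cast Real.pi_ne_zero
  field_simp

lemma dz_cT (hG : ContDiff ℝ 2 G) (hs : HasCompactSupport G) (z : ℂ) :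
    dz (cT G) z = (π : ℂ)⁻¹ * dz (cauchyT G) z := by
  have h := (contDiff_cauchyT hG hs).differentiable (by norm_num) z
  unfold cT
  rw [dz_const_mul h]

lemma beurling_cT (hG : ContDiff ℝ 2 G) (hs : HasCompactSupport G) :
    Integrable (fun z => ‖dz (cT G) z‖ ^ 2) ∧
    ∫ z, ‖dz (cT G) z‖ ^ 2 = ∫ z, ‖G z‖ ^ 2 := by
  obtain ⟨h1, h2⟩ := beurling hG hs
  have e : ∀ z, ‖dz (cT G) z‖ ^ 2 = (π⁻¹) ^ 2 * ‖dz (cauchyT G) z‖ ^ 2 := by
    intro z
    rw [dz_cT hG hs, norm_mul, norm_inv, Complex.norm_real, Real.norm_of_nonneg Real.pi_pos.le,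
      mul_pow]
  simp only [e]
  refine ⟨h1.const_mul _, ?_⟩
  rw [integral_const_mul, h2, ← mul_assoc, ← mul_pow, inv_mul_cancel₀ Real.pi_ne_zero, one_pow,
    one_mul]

/-- `∫ ∂̄X ∂R = ∫ ∂X ∂̄R` for a test function `X`. -/
lemma ibp_swap {R : ℂ → ℂ} (hR : ContDiff ℝ 2 R) (hX : ContDiff ℝ 1 X) (hXs : HasCompactSupport X) :
    ∫ z, dzb X z * dz R z = ∫ z, dz X z * dzb R z := by
  have h1 := ibp_dzb (contDiff_dz hR) hX hXs
  have h2 := ibp_dz (contDiff_dzb hR) hX hXs
  have e1 : ∀ z, dzb X z * dz R z = dz R z * dzb X z := fun z => mul_comm _ _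
  have e2 : ∀ z, dz X z * dzb R z = dzb R z * dz X z := fun z => mul_comm _ _
  simp only [e1, e2]
  rw [h1, h2]
  congr 1
  apply integral_congr_ae
  apply Eventually.of_forall
  intro z
  simp only [dz_dzb hR]

lemma integrable_cs {f g : ℂ → ℂ} (hf : Continuous f) (hg : Continuous g)
    (hs : HasCompactSupport g) : Integrable (fun z => f z * g z) :=
  (hf.mul hg).integrable_of_hasCompactSupport hs.mul_left

lemma integrable_sq_cs {f : ℂ → ℂ} (hf : Continuous f) (hs : HasCompactSupport f) :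
    Integrable (fun z => ‖f z‖ ^ 2) := by
  apply Continuous.integrable_of_hasCompactSupport (by fun_prop)
  exact hs.comp_left (g := fun w : ℂ => ‖w‖ ^ 2) (by simp)

/-- The basic inequality `0 ≤ ∫ |∂X + ∂R + \bar G|²`, expanded (`R = cT G`, `X` real valued). -/
theorem component_ineq (hX : ContDiff ℝ 2 X) (hXs : HasCompactSupport X)
    (hXr : ∀ z, (starRingEnd ℂ) (X z) = X z)
    (hG : ContDiff ℝ 2 G) (hs : HasCompactSupport G) :
    0 ≤ (∫ z, ‖dz X z‖ ^ 2) + 2 * (∫ z, ‖G z‖ ^ 2) + 4 * (∫ z, dz X z * G z).re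
      + 2 * (∫ z, dz (cT G) z * G z).re := by
  have hX1 : ContDiff ℝ 1 X := hX.of_le (by norm_num)
  have hR := contDiff_cT hG hs
  have ha : Continuous (dz X) := (contDiff_dz hX).continuous
  have hb : Continuous (dz (cT G)) := (contDiff_dz hR).continuous
  have has : HasCompactSupport (dz X) := hasCompactSupport_dz hXs
  obtain ⟨hb1, hb2⟩ := beurling_cT hG hs
  have hconj : ∀ z, (starRingEnd ℂ) (dz X z) = dzb X z := by
    intro z
    have h := dzb_conj (hX1.differentiable (by norm_num) z)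
    simp only [hXr] at h
    exact h.symm
  have hsw := ibp_swap hR hX1 hXs
  rw [dzb_cT hG hs] at hsw
  -- expansion
  have ex : ∀ z, ‖dz X z + dz (cT G) z + (starRingEnd ℂ) (G z)‖ ^ 2
      = ‖dz X z‖ ^ 2 + ‖dz (cT G) z‖ ^ 2 + ‖G z‖ ^ 2 + 2 * (dzb X z * dz (cT G) z).re
        + 2 * (dz X z * G z).re + 2 * (dz (cT G) z * G z).re := by
    intro z
    rw [← hconj]
    rw [← Complex.normSq_eq_norm_sq, ← Complex.normSq_eq_norm_sq, ← Complex.normSq_eq_norm_sq,
      ← Complex.normSq_eq_norm_sq]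
    simp only [Complex.normSq_apply, Complex.add_re, Complex.add_im, Complex.mul_re,
      Complex.conj_re, Complex.conj_im]
    ring
  have i1 : Integrable (fun z => ‖dz X z‖ ^ 2) := integrable_sq_cs ha has
  have i2 : Integrable (fun z => ‖G z‖ ^ 2) := integrable_sq_cs hG.continuous hs
  have hdzb : Continuous (dzb X) := (contDiff_dzb hX).continuous
  have i3 : Integrable (fun z => dzb X z * dz (cT G) z) := by
    have := integrable_cs hb hdzb (hasCompactSupport_dzb hXs)
    exact this.congr (Eventually.of_forall fun z => mul_comm _ _)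
  have i4 : Integrable (fun z => dz X z * G z) := integrable_cs ha hG.continuous hs
  have i5 : Integrable (fun z => dz (cT G) z * G z) := integrable_cs hb hG.continuous hs
  have re_int : ∀ {f : ℂ → ℂ}, Integrable f → ∫ z, (f z).re = (∫ z, f z).re := fun hf =>
    integral_re hf
  have h0 : 0 ≤ ∫ z, ‖dz X z + dz (cT G) z + (starRingEnd ℂ) (G z)‖ ^ 2 :=
    integral_nonneg fun z => by positivity
  simp only [ex] at h0
  have j3 := i3.re; have j4 := i4.re; have j5 := i5.re
  simp only [RCLike.re_eq_complex_re] at j3 j4 j5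
  have k1 : Integrable (fun z => ‖dz X z‖ ^ 2 + ‖dz (cT G) z‖ ^ 2) := i1.add hb1
  have k2 : Integrable (fun z => ‖dz X z‖ ^ 2 + ‖dz (cT G) z‖ ^ 2 + ‖G z‖ ^ 2) := k1.add i2
  have k3 : Integrable (fun z => ‖dz X z‖ ^ 2 + ‖dz (cT G) z‖ ^ 2 + ‖G z‖ ^ 2
      + 2 * (dzb X z * dz (cT G) z).re) := k2.add (j3.const_mul 2)
  have k4 : Integrable (fun z => ‖dz X z‖ ^ 2 + ‖dz (cT G) z‖ ^ 2 + ‖G z‖ ^ 2
      + 2 * (dzb X z * dz (cT G) z).re + 2 * (dz X z * G z).re) := k3.add (j4.const_mul 2)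
  rw [integral_add k4 (j5.const_mul 2), integral_add k3 (j4.const_mul 2),
    integral_add k2 (j3.const_mul 2),
    integral_add k1 i2, integral_add i1 hb1, integral_const_mul, integral_const_mul,
    integral_const_mul, re_int i3, re_int i4, re_int i5, hsw, hb2] at h0
  linarith

end Pool.Agent.Lib.Helper82.Mob
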