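import Pool.Agent.Lib.Helper82.Mob.Index

/-!
# The surface is a conformal minimal immersion of a non-orientable surface
-/

set_option autoImplicit false

open MeasureTheory Complex Set Topology Filter
open scoped ContDiff Real ComplexConjugate RealInnerProductSpace

namespace Pool.Agent.Lib.Helper82.Mob

lemma Om_eq : Om = ({0, 1, -1} : Set ℂ)ᶜ := by
  ext z
  simp only [Om, mem_ofPred_eq, mem_compl_iff, mem_insert_iff, mem_singleton_iff, not_or,
    sub_ne_zero]
  refine and_congr Iff.rfl (and_congr Iff.rfl (not_congr ?_))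
  constructor
  · intro h; linear_combination h
  · intro h; linear_combination h

lemma isConnected_Om : IsConnected Om := by
  rw [Om_eq]
  apply Set.Countable.isConnected_compl_of_one_lt_rank
  · rw [Complex.rank_real_complex]
    exact Cardinal.one_lt_two
  · exact (Set.toFinite _).countable

lemma contDiffOn_iot : ContDiffOn ℝ ∞ iot Om := by
  have h1 : ContDiffOn ℝ ∞ (fun z : ℂ => (conj z)) Om :=
    ((Complex.conjCLE : ℂ →L[ℝ] ℂ).contDiff).contDiffOn
  have h2 : ContDiffOn ℝ ∞ (fun z : ℂ => (conj z)⁻¹) Om :=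
    h1.inv fun z hz => by simpa using hz.1
  exact h2.neg

theorem isOrientationCover : IsOrientationCover Om iot where
  isOpen := isOpen_Om
  isConnected := isConnected_Om
  smooth := contDiffOn_iot
  mapsTo := fun _ hz => iot_mem hz
  involutive := fun z _ => iot_iot z
  fixedPointFree := fun _ hz => iot_ne hz
  reversing := fun z hz => by
    rw [(hasFDerivAt_iot hz.1).fderiv, det_iotD]
    have h : 0 < normSq z := Complex.normSq_pos.mpr hz.1
    have : 0 < (normSq z ^ 2)⁻¹ := by positivity
    linarith

lemma contDiffOn_uu : ContDiffOn ℝ ∞ uu Om := by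
  have h1 : ContDiffOn ℝ ∞ (fun z => fun j : Fin 4 => (F j z).re) Om := by
    rw [contDiffOn_pi]
    intro j
    exact Complex.reCLM.contDiff.comp_contDiffOn
      (smoothOn_hol fun z hz => (hasDerivAt_F j hz).differentiableAt)
  exact ((EuclideanSpace.equiv (Fin 4) ℝ).symm : (Fin 4 → ℝ) →L[ℝ] E4).contDiff.comp_contDiffOn h1

lemma uu_iot {z : ℂ} (hz : z ∈ Om) : uu (iot z) = uu z := by
  ext j
  simp only [uu, reV_apply]
  rw [F_iot j hz, Complex.conj_re]

theorem isConformalImmersion : IsConformalImmersion Om iot uu where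
  smooth := contDiffOn_uu
  invariant := fun _ hz => uu_iot hz
  immersion := fun z hz h => by
    have := lam_pos hz
    rw [lam, h] at this
    simp at this
  equal := fun z hz => by
    have h1 := lam_uu hz
    have h2 := norm_pd_one hz
    rw [lam] at h1
    have h3 : ‖pd 0 uu z‖ ^ 2 = ‖pd 1 uu z‖ ^ 2 := by rw [h1, h2]
    exact (pow_left_inj₀ (norm_nonneg _) (norm_nonneg _) two_ne_zero).mp h3
  orthogonal := fun _ hz => inner_pd hz

theorem meanCurv_uu {z : ℂ} (hz : z ∈ Om) : meanCurv uu z = 0 := by
  rw [meanCurv, Fin.sum_univ_two, sff, sff, ← smul_add, nor, nor, ← map_add,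
    pd_pd_uu 0 0 hz, pd_pd_uu 1 1 hz]
  have : (reV fun k => dir 0 * (dir 0 * V k z)) + (reV fun k => dir 1 * (dir 1 * V k z)) = 0 := by
    ext k
    simp only [PiLp.add_apply, reV_apply, dir_zero, dir_one, one_mul, PiLp.zero_apply]
    rw [← mul_assoc, I_mul_I]
    simp
  rw [this, map_zero, smul_zero]

end Pool.Agent.Lib.Helper82.Mob
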