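import Pool.Agent.Lib.Helper82.Mob.Cover

/-!
# The Gauss curvature of the surface
-/

set_option autoImplicit false

open MeasureTheory Complex Set Topology Filter
open scoped ContDiff Real ComplexConjugate RealInnerProductSpace

namespace Pool.Agent.Lib.Helper82.Mob

/-- `S = ∑ V_j \bar W_j`. -/
noncomputable def SS (z : ℂ) : ℂ := ∑ j, V j z * conj (W j z)

/-- `∑ |V_j|²`. -/
noncomputable def VV (z : ℂ) : ℝ := ∑ j, ‖V j z‖ ^ 2

/-- `∑ |W_j|²`. -/
noncomputable def Nr (z : ℂ) : ℝ := ∑ j, ‖W j z‖ ^ 2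

/-- `∑ V_j' \bar W_j`. -/
noncomputable def PP (z : ℂ) : ℂ := ∑ j, deriv (V j) z * conj (W j z)

lemma pd_Nr {z : ℂ} (hz : z ∈ Om) : ∃ D : ℂ →L[ℝ] ℝ, HasFDerivAt Nr D z ∧
    ∀ v, D v = 2 * (v * SS z).re := by
  have h1 : ∀ j, HasFDerivAt (fun w => ‖W j w‖ ^ 2)
      (2 • (innerSL ℝ (W j z)).comp
        ((ContinuousLinearMap.toSpanSingleton ℂ (V j z)).restrictScalars ℝ)) z := fun j =>
    ((hasDerivAt_W j hz).hasFDerivAt.restrictScalars ℝ).norm_sq
  refine ⟨_, HasFDerivAt.fun_sum fun j (_ : j ∈ Finset.univ) => h1 j, fun v => ?_⟩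
  simp only [_root_.sum_apply, SS, Finset.mul_sum, Complex.re_sum]
  refine Finset.sum_congr rfl fun j _ => ?_
  simp only [two_smul, _root_.add_apply, ContinuousLinearMap.comp_apply,
    innerSL_apply_apply, Complex.inner, ContinuousLinearMap.coe_restrictScalars',
    ContinuousLinearMap.toSpanSingleton_apply, smul_eq_mul, Complex.mul_re, Complex.mul_im,
    Complex.conj_re, Complex.conj_im]
  ring

lemma pd_SS {z : ℂ} (hz : z ∈ Om) : ∃ (D : ℂ →L[ℝ] ℂ), HasFDerivAt SS D z ∧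
    ∀ v, D v = v * PP z + conj v * (VV z : ℂ) := by
  have hV : ∀ j, HasDerivAt (V j) (deriv (V j) z) z := fun j =>
    (differentiableAt_V j hz).hasDerivAt
  have h1 : ∀ j, HasFDerivAt (fun w => conj (W j w))
      ((Complex.conjCLE : ℂ →L[ℝ] ℂ).comp
        ((ContinuousLinearMap.toSpanSingleton ℂ (V j z)).restrictScalars ℝ)) z := fun j =>
    (Complex.conjCLE : ℂ →L[ℝ] ℂ).hasFDerivAt.comp z
      ((hasDerivAt_W j hz).hasFDerivAt.restrictScalars ℝ)
  have h2 := fun j => ((hV j).hasFDerivAt.restrictScalars ℝ).fun_mul (h1 j)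
  refine ⟨_, HasFDerivAt.fun_sum fun j (_ : j ∈ Finset.univ) => h2 j, fun v => ?_⟩
  rw [VV, PP, Complex.ofReal_sum, Finset.mul_sum, Finset.mul_sum, ← Finset.sum_add_distrib,
    _root_.sum_apply]
  refine Finset.sum_congr rfl fun j _ => ?_
  have h3 : ((‖V j z‖ ^ 2 : ℝ) : ℂ) = V j z * conj (V j z) := by
    rw [Complex.mul_conj, Complex.normSq_eq_norm_sq]
  rw [h3]
  simp only [_root_.add_apply, _root_.smul_apply,
    ContinuousLinearMap.comp_apply, ContinuousLinearMap.coe_restrictScalars',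
    ContinuousLinearMap.toSpanSingleton_apply, smul_eq_mul, ContinuousLinearEquiv.coe_coe,
    Complex.conjCLE_apply, map_mul]
  ring

lemma Nr_pos {z : ℂ} (hz : z ∈ Om) : 0 < Nr z := N_pos hz

lemma pd_log_lam (i : Fin 2) {z : ℂ} (hz : z ∈ Om) :
    pd i (fun w => Real.log (lam uu w)) z = 2 * (dir i * SS z).re / Nr z := by
  have h1 : (fun w => Real.log (lam uu w)) =ᶠ[𝓝 z] fun w => Real.log (Nr w * (1 / 2)) := by
    filter_upwards [isOpen_Om.mem_nhds hz] with w hw
    rw [lam_uu hw, Nr]; ring_nf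
  obtain ⟨D, hD, hDv⟩ := pd_Nr hz
  have hN := Nr_pos hz
  have h2 : HasFDerivAt (fun w => Real.log (Nr w * (1 / 2)))
      ((Nr z * (1 / 2))⁻¹ • ((1 / 2 : ℝ) • D)) z :=
    (hD.mul_const (1 / 2 : ℝ)).log (by positivity)
  rw [pd, h1.fderiv_eq, h2.fderiv]
  simp only [_root_.smul_apply, smul_eq_mul, hDv]
  field_simp

lemma pd_pd_log_lam (i : Fin 2) {z : ℂ} (hz : z ∈ Om) :
    pd i (pd i (fun w => Real.log (lam uu w))) z
      = (2 * (dir i * (dir i * PP z + conj (dir i) * (VV z : ℂ))).re * Nr z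
        - (2 * (dir i * SS z).re) * (2 * (dir i * SS z).re)) / Nr z ^ 2 := by
  have h1 : pd i (fun w => Real.log (lam uu w)) =ᶠ[𝓝 z]
      fun w => 2 * (dir i * SS w).re / Nr w := by
    filter_upwards [isOpen_Om.mem_nhds hz] with w hw using pd_log_lam i hw
  obtain ⟨D, hD, hDv⟩ := pd_Nr hz
  obtain ⟨E, hE, hEv⟩ := pd_SS hz
  have hN := Nr_pos hz
  have h2 : HasFDerivAt (fun w => 2 * (dir i * SS w).re)
      ((2:ℝ) • Complex.reCLM.comp (dir i • E)) z :=
    (Complex.reCLM.hasFDerivAt.comp z (hE.const_mul (dir i))).const_mul (2:ℝ)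
  have h3 : HasFDerivAt (fun w => (Nr w)⁻¹) (-(Nr z ^ 2)⁻¹ • D) z := by
    have := (hasDerivAt_inv hN.ne').comp_hasFDerivAt z hD
    exact this
  have h4 := h2.fun_mul h3
  have h5 : (fun w => 2 * (dir i * SS w).re / Nr w) = fun w => 2 * (dir i * SS w).re * (Nr w)⁻¹ := by
    funext w; rw [div_eq_mul_inv]
  rw [pd, h1.fderiv_eq, h5, h4.fderiv]
  simp only [_root_.smul_apply, smul_eq_mul, hDv, _root_.add_apply,
    ContinuousLinearMap.comp_apply, hEv, Complex.reCLM_apply]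
  field_simp
  ring

/-- The curvature density (up to a factor). -/
noncomputable def kap (z : ℂ) : ℝ := (Nr z * VV z - ‖SS z‖ ^ 2) / Nr z ^ 2

theorem gaussK_lam {z : ℂ} (hz : z ∈ Om) : gaussK uu z * lam uu z = -2 * kap z := by
  have hl := lam_pos hz
  have hN := Nr_pos hz
  have e : (∑ i, pd i (pd i (fun w => Real.log (lam uu w))) z)
      = 4 * kap z := by
    rw [Fin.sum_univ_two, pd_pd_log_lam 0 hz, pd_pd_log_lam 1 hz, kap, dir_zero, dir_one,
      ← Complex.normSq_eq_norm_sq, normSq_apply]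
    simp only [one_mul, map_one, conj_I, Complex.add_re, Complex.add_im,
      Complex.ofReal_re, Complex.ofReal_im, Complex.mul_im, Complex.mul_re, Complex.I_re,
      Complex.I_im, Complex.neg_re, Complex.neg_im]
    field_simp
    ring
  rw [gaussK, e]
  field_simp
  ring

end Pool.Agent.Lib.Helper82.Mob
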