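import Pool.Agent.Lib.Helper82.Mob.Lower3

/-!
# Logarithmic cut-off functions
-/

set_option autoImplicit false

open MeasureTheory Complex Set Topology Filter
open scoped ContDiff Real ComplexConjugate

namespace Pool.Agent.Lib.Helper82.Mob

/-- The profile. -/
noncomputable def eta (s : ℝ) : ℝ := Real.smoothTransition (2 - s ^ 2)

lemma contDiff_eta : ContDiff ℝ ∞ eta :=
  (Real.smoothTransition.contDiff (n := ⊤)).comp (contDiff_const.sub (contDiff_id.pow 2))

lemma eta_one {s : ℝ} (h : |s| ≤ 1) : eta s = 1 := by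
  apply Real.smoothTransition.one_of_one_le
  have : s ^ 2 ≤ 1 := by rw [← sq_abs]; exact pow_le_one₀ (abs_nonneg s) h
  linarith

lemma eta_zero {s : ℝ} (h : 2 ≤ |s|) : eta s = 0 := by
  apply Real.smoothTransition.zero_of_nonpos
  have : (2:ℝ) ^ 2 ≤ s ^ 2 := by rw [← sq_abs s]; gcongr
  linarith

lemma eta_neg (s : ℝ) : eta (-s) = eta s := by simp [eta]

lemma exists_bound_eta : ∃ M, 0 ≤ M ∧ ∀ s, |deriv eta s| ≤ M := by
  have hc : Continuous (deriv eta) := contDiff_eta.continuous_deriv (by simp)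
  obtain ⟨M, hM⟩ := (isCompact_Icc (a := (-3:ℝ)) (b := 3)).exists_bound_of_continuousOn hc.continuousOn
  refine ⟨M, (norm_nonneg _).trans (hM 0 (by norm_num)), fun s => ?_⟩
  by_cases hs : s ∈ Icc (-3:ℝ) 3
  · exact hM s hs
  · have h3 : 3 < |s| := by
      rw [mem_Icc, not_and_or, not_le, not_le] at hs
      rcases hs with h | h
      · exact lt_abs.mpr (Or.inr (by linarith))
      · exact lt_abs.mpr (Or.inl h)
    have : eta =ᶠ[𝓝 s] fun _ => 0 := by
      have h4 : ∀ᶠ t in 𝓝 s, 3 < |t| := continuous_abs.continuousAt.eventually (lt_mem_nhds h3)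
      filter_upwards [h4] with t ht using eta_zero (by linarith)
    rw [this.deriv_eq]
    simp only [deriv_const, abs_zero]
    exact (norm_nonneg _).trans (hM 0 (by norm_num))

/-- The radial cut-off function. -/
noncomputable def ca (L : ℝ) (z : ℂ) : ℂ :=
  if z = 0 then 0 else ((eta (Real.log ‖z‖ / L) : ℝ) : ℂ)

variable {L : ℝ}

lemma ca_real (L : ℝ) (z : ℂ) : conj (ca L z) = ca L z := by
  unfold ca; split_ifs
  · simp
  · exact Complex.conj_ofReal _

lemma ca_zero (L : ℝ) : ca L 0 = 0 := by simp [ca]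

lemma ca_one (hL : 0 < L) {z : ℂ} (hz : z ≠ 0) (h : |Real.log ‖z‖| ≤ L) : ca L z = 1 := by
  rw [ca, if_neg hz, eta_one]
  · simp
  · rw [abs_div, abs_of_pos hL]; exact (div_le_one hL).mpr h

lemma ca_far (hL : 0 < L) {z : ℂ} (h : 2 * L ≤ |Real.log ‖z‖|) : ca L z = 0 := by
  unfold ca; split_ifs
  · rfl
  · rw [eta_zero]
    · simp
    · rw [abs_div, abs_of_pos hL, le_div_iff₀ hL]; exact h

lemma ca_eventually_zero (hL : 0 < L) : ca L =ᶠ[𝓝 0] fun _ => 0 := by
  have h : ∀ᶠ z : ℂ in 𝓝 0, ‖z‖ < Real.exp (-(2 * L)) := by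
    have : Tendsto (fun z : ℂ => ‖z‖) (𝓝 0) (𝓝 0) := tendsto_norm_zero
    exact this.eventually (gt_mem_nhds (Real.exp_pos _))
  filter_upwards [h] with z hz
  by_cases h0 : z = 0
  · rw [h0, ca_zero]
  · apply ca_far hL
    have hpos : 0 < ‖z‖ := norm_pos_iff.mpr h0
    have : Real.log ‖z‖ < -(2 * L) := by rwa [Real.log_lt_iff_lt_exp hpos]
    rw [abs_of_neg (by linarith)]
    linarith

lemma contDiffAt_log_norm {z : ℂ} (hz : z ≠ 0) : ContDiffAt ℝ ∞ (fun w : ℂ => Real.log ‖w‖) z :=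
  (Real.contDiffAt_log.mpr (norm_ne_zero_iff.mpr hz)).comp z (contDiffAt_norm ℝ hz)

lemma contDiff_ca (hL : 0 < L) : ContDiff ℝ ∞ (ca L) := by
  rw [contDiff_iff_contDiffAt]
  intro z
  by_cases hz : z = 0
  · rw [hz]; exact contDiffAt_const.congr_of_eventuallyEq (ca_eventually_zero hL)
  · have h1 : ContDiffAt ℝ ∞ (fun w : ℂ => ((eta (Real.log ‖w‖ / L) : ℝ) : ℂ)) z := by
      have h2 : ContDiffAt ℝ ∞ (fun w : ℂ => Real.log ‖w‖ / L) z :=
        (contDiffAt_log_norm hz).div_const L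
      have h3 : ContDiffAt ℝ ∞ (fun w : ℂ => eta (Real.log ‖w‖ / L)) z :=
        contDiff_eta.contDiffAt.comp z h2
      exact Complex.ofRealCLM.contDiff.contDiffAt.comp z h3
    refine h1.congr_of_eventuallyEq ?_
    filter_upwards [isOpen_ne.mem_nhds hz] with w hw
    rw [ca, if_neg hw]

lemma ca_support (hL : 0 < L) {z : ℂ} (h : ca L z ≠ 0) :
    Real.exp (-(2 * L)) ≤ ‖z‖ ∧ ‖z‖ ≤ Real.exp (2 * L) := by
  have h0 : z ≠ 0 := by rintro rfl; exact h (ca_zero L)
  have h1 : |Real.log ‖z‖| < 2 * L := by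
    by_contra hcon; exact h (ca_far hL (not_lt.mp hcon))
  have hpos : 0 < ‖z‖ := norm_pos_iff.mpr h0
  rw [abs_lt] at h1
  constructor
  · rw [← Real.le_log_iff_exp_le hpos]; exact h1.1.le
  · rw [← Real.log_le_iff_le_exp hpos]; exact h1.2.le

lemma ca_cs (hL : 0 < L) : HasCompactSupport (ca L) := by
  apply HasCompactSupport.of_support_subset_isCompact (isCompact_closedBall (0:ℂ) (Real.exp (2 * L)))
  intro z hz
  simpa using (ca_support hL hz).2

lemma ca_iot (L : ℝ) {z : ℂ} (hz : z ≠ 0) : ca L (iot z) = ca L z := by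
  have h1 : iot z ≠ 0 := by
    rw [iot]; exact neg_ne_zero.mpr (inv_ne_zero (by simpa using hz))
  rw [ca, ca, if_neg h1, if_neg hz]
  have : ‖iot z‖ = ‖z‖⁻¹ := by rw [iot, norm_neg, norm_inv, RCLike.norm_conj]
  rw [this, Real.log_inv, neg_div, eta_neg]

/-- The derivative of a radial function. -/
lemma dz_radial {ρ : ℝ → ℝ} {z : ℂ} (hz : z ≠ 0) {ρ' : ℝ}
    (hρ : HasDerivAt ρ ρ' (Real.log ‖z‖)) :
    dz (fun w : ℂ => ((ρ (Real.log ‖w‖) : ℝ) : ℂ)) z = ρ' / (2 * z) := by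
  have hn : 0 < ‖z‖ := norm_pos_iff.mpr hz
  have h1 : HasFDerivAt (fun w : ℂ => ‖w‖ ^ 2) (2 • innerSL ℝ z) z :=
    (hasStrictFDerivAt_norm_sq z).hasFDerivAt
  have h2 : HasFDerivAt (fun w : ℂ => Real.log (‖w‖ ^ 2)) ((‖z‖ ^ 2)⁻¹ • (2 • innerSL ℝ z)) z :=
    h1.log (by positivity)
  have h3 : HasFDerivAt (fun w : ℂ => Real.log ‖w‖) ((1/2 : ℝ) • ((‖z‖ ^ 2)⁻¹ • (2 • innerSL ℝ z))) z := by
    have h4 := h2.const_smul (1/2 : ℝ)
    have e : (fun w : ℂ => Real.log ‖w‖) = (1/2 : ℝ) • (fun w : ℂ => Real.log (‖w‖ ^ 2)) := by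
      funext w
      rw [Pi.smul_apply, Real.log_pow, smul_eq_mul]
      push_cast; ring
    rw [e]
    exact h4
  have h5 := hρ.comp_hasFDerivAt z h3
  have h6 : HasFDerivAt (fun w : ℂ => ((ρ (Real.log ‖w‖) : ℝ) : ℂ)) _ z :=
    Complex.ofRealCLM.hasFDerivAt.comp z h5
  rw [dz, h6.fderiv]
  simp only [ContinuousLinearMap.comp_apply, _root_.smul_apply, innerSL_apply_apply, smul_eq_mul,
    Complex.ofRealCLM_apply, Complex.inner, nsmul_eq_mul]
  have e1 : (1 * conj z).re = z.re := by simp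
  have e2 : (I * conj z).re = z.im := by simp
  rw [e1, e2]
  have hnz : ((‖z‖ ^ 2 : ℝ) : ℂ) = z * conj z := by
    rw [Complex.mul_conj, Complex.normSq_eq_norm_sq]
  have c0 : conj z ≠ 0 := by simpa using hz
  have e3 : (z.re : ℂ) - I * z.im = conj z := by
    apply Complex.ext <;> simp
  push_cast at hnz ⊢
  rw [hnz]
  field_simp
  linear_combination (ρ' : ℂ) * e3

lemma dz_ca_norm_sq {M : ℝ} (hM : ∀ s, |deriv eta s| ≤ M) (hL : 0 < L) (z : ℂ) :
    ‖dz (ca L) z‖ ^ 2 ≤ if |Real.log ‖z‖| ≤ 2 * L then M ^ 2 / (4 * L ^ 2) * (‖z‖ ^ 2)⁻¹ else 0 := by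
  by_cases hz : z = 0
  · rw [hz, dz, (ca_eventually_zero hL).fderiv_eq]
    simp
  split_ifs with h
  · have h1 : dz (ca L) z = dz (fun w : ℂ => ((eta (Real.log ‖w‖ / L) : ℝ) : ℂ)) z := by
      have : ca L =ᶠ[𝓝 z] fun w : ℂ => ((eta (Real.log ‖w‖ / L) : ℝ) : ℂ) := by
        filter_upwards [isOpen_ne.mem_nhds hz] with w hw
        rw [ca, if_neg hw]
      rw [dz, dz, this.fderiv_eq]
    have h2 : HasDerivAt (fun s => eta (s / L)) (deriv eta (Real.log ‖z‖ / L) * (1 / L)) (Real.log ‖z‖) := by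
      have h3 : HasDerivAt eta (deriv eta (Real.log ‖z‖ / L)) (Real.log ‖z‖ / L) :=
        (contDiff_eta.differentiable (by simp) _).hasDerivAt
      have h4 : HasDerivAt (fun s : ℝ => s / L) (1 / L) (Real.log ‖z‖) :=
        (hasDerivAt_id (Real.log ‖z‖)).div_const L
      exact HasDerivAt.comp (h₂ := eta) (h := fun s : ℝ => s / L) (Real.log ‖z‖) h3 h4
    rw [h1, dz_radial (ρ := fun s => eta (s / L)) hz h2, norm_div, norm_mul, Complex.norm_real,
      Real.norm_eq_abs, abs_mul, abs_of_pos (by positivity : 0 < 1 / L)]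
    have hn : 0 < ‖z‖ := norm_pos_iff.mpr hz
    have e : ‖(2:ℂ)‖ = 2 := by norm_num
    rw [e]
    have h4 := hM (Real.log ‖z‖ / L)
    have h5 : |deriv eta (Real.log ‖z‖ / L)| ^ 2 ≤ M ^ 2 := by gcongr
    calc (|deriv eta (Real.log ‖z‖ / L)| * (1 / L) / (2 * ‖z‖)) ^ 2
        = |deriv eta (Real.log ‖z‖ / L)| ^ 2 / (4 * L ^ 2) * (‖z‖ ^ 2)⁻¹ := by
          field_simp; ring
      _ ≤ M ^ 2 / (4 * L ^ 2) * (‖z‖ ^ 2)⁻¹ := by gcongr
  · have h1 : ca L =ᶠ[𝓝 z] fun _ => 0 := by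
      have h2 : ∀ᶠ w in 𝓝 z, 2 * L < |Real.log ‖w‖| := by
        have hc : ContinuousAt (fun w : ℂ => |Real.log ‖w‖|) z :=
          (contDiffAt_log_norm hz).continuousAt.abs
        exact hc.eventually (lt_mem_nhds (not_le.mp h))
      filter_upwards [h2] with w hw using ca_far hL hw.le
    rw [dz, h1.fderiv_eq]
    simp

/-- `dz (ca L)` vanishes where `|log ‖z‖| < L`. -/
lemma dz_ca_inner (hL : 0 < L) {z : ℂ} (hz : z ≠ 0) (h : |Real.log ‖z‖| < L) : dz (ca L) z = 0 := by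
  have h1 : ca L =ᶠ[𝓝 z] fun _ => 1 := by
    have h2 : ∀ᶠ w in 𝓝 z, |Real.log ‖w‖| < L := by
      have hc : ContinuousAt (fun w : ℂ => |Real.log ‖w‖|) z :=
        (contDiffAt_log_norm hz).continuousAt.abs
      exact hc.eventually (gt_mem_nhds h)
    filter_upwards [h2, isOpen_ne.mem_nhds hz] with w hw hw0 using ca_one hL hw0 hw.le
  rw [dz, h1.fderiv_eq]
  simp

lemma annulus {A : ℝ} (hA : 0 < A) (K : ℝ) :
    ∫ z : ℂ, (if |Real.log ‖z‖| ≤ A then K * (‖z‖ ^ 2)⁻¹ else 0) = 4 * π * K * A := by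
  rw [← Complex.integral_comp_polarCoord_symm]
  have hT' : _root_.polarCoord.target = Ioi (0:ℝ) ×ˢ Ioo (-π) π := rfl
  rw [hT']
  have h1 : ∫ p in Ioi (0:ℝ) ×ˢ Ioo (-π) π, p.1 • (if |Real.log ‖Complex.polarCoord.symm p‖| ≤ A
      then K * (‖Complex.polarCoord.symm p‖ ^ 2)⁻¹ else 0)
      = ∫ p in Ioi (0:ℝ) ×ˢ Ioo (-π) π, (Icc (Real.exp (-A)) (Real.exp A)).indicator (fun r => K * r⁻¹) p.1
        * (1:ℝ) := by
    apply setIntegral_congr_fun (measurableSet_Ioi.prod measurableSet_Ioo)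
    intro p hp
    have hp1 : 0 < p.1 := hp.1
    simp only [Complex.norm_polarCoord_symm, abs_of_pos hp1, smul_eq_mul, mul_one]
    by_cases h : |Real.log p.1| ≤ A
    · rw [if_pos h]
      rw [abs_le] at h
      rw [indicator_of_mem]
      · field_simp
      · exact ⟨(Real.le_log_iff_exp_le hp1).mp h.1, (Real.log_le_iff_le_exp hp1).mp h.2⟩
    · rw [if_neg h, indicator_of_notMem]
      · simp
      · rintro ⟨h2, h3⟩
        exact h (abs_le.mpr ⟨(Real.le_log_iff_exp_le hp1).mpr h2, (Real.log_le_iff_le_exp hp1).mpr h3⟩)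
  rw [h1, Measure.volume_eq_prod, setIntegral_prod_mul
    (fun r => (Icc (Real.exp (-A)) (Real.exp A)).indicator (fun r => K * r⁻¹) r) (fun _ => (1:ℝ))]
  have h2 : ∫ r in Ioi (0:ℝ), (Icc (Real.exp (-A)) (Real.exp A)).indicator (fun r => K * r⁻¹) r
      = 2 * A * K := by
    rw [setIntegral_indicator measurableSet_Icc]
    have : Ioi (0:ℝ) ∩ Icc (Real.exp (-A)) (Real.exp A) = Icc (Real.exp (-A)) (Real.exp A) := by
      apply inter_eq_self_of_subset_right
      intro x hx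
      exact lt_of_lt_of_le (Real.exp_pos _) hx.1
    rw [this, integral_Icc_eq_integral_Ioc, integral_const_mul,
      ← intervalIntegral.integral_of_le (Real.exp_le_exp.mpr (by linarith)),
      integral_inv_of_pos (Real.exp_pos _) (Real.exp_pos _), ← Real.exp_sub, Real.log_exp]
    ring
  rw [h2, setIntegral_const]
  have h8 : volume.real (Ioo (-π) π) = 2 * π := by
    rw [Real.volume_real_Ioo_of_le (by linarith [Real.pi_pos])]; ring
  rw [h8, smul_eq_mul]
  ring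

lemma annulus_integrable {A : ℝ} (K : ℝ) :
    Integrable (fun z : ℂ => if |Real.log ‖z‖| ≤ A then K * (‖z‖ ^ 2)⁻¹ else 0) := by
  set S : Set ℂ := {z | Real.exp (-A) ≤ ‖z‖ ∧ ‖z‖ ≤ Real.exp A} with hS
  have hSc : IsCompact S := by
    apply (isCompact_closedBall (0:ℂ) (Real.exp A)).of_isClosed_subset
    · exact (isClosed_le continuous_const continuous_norm).inter
        (isClosed_le continuous_norm continuous_const)
    · intro z hz; simpa using hz.2
  have h1 : (fun z : ℂ => if |Real.log ‖z‖| ≤ A then K * (‖z‖ ^ 2)⁻¹ else 0)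
      = S.indicator (fun z => K * (‖z‖ ^ 2)⁻¹) := by
    funext z
    by_cases h0 : z = 0
    · have : z ∉ S := by
        rw [h0]; intro h
        have := h.1
        rw [norm_zero] at this
        exact absurd this (not_le.mpr (Real.exp_pos _))
      rw [indicator_of_notMem this, h0]
      simp
    · have hpos : 0 < ‖z‖ := norm_pos_iff.mpr h0
      by_cases h : |Real.log ‖z‖| ≤ A
      · rw [if_pos h, indicator_of_mem]
        rw [abs_le] at h
        exact ⟨(Real.le_log_iff_exp_le hpos).mp h.1, (Real.log_le_iff_le_exp hpos).mp h.2⟩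
      · rw [if_neg h, indicator_of_notMem]
        rintro ⟨h2, h3⟩
        exact h (abs_le.mpr ⟨(Real.le_log_iff_exp_le hpos).mpr h2,
          (Real.log_le_iff_le_exp hpos).mpr h3⟩)
  rw [h1, integrable_indicator_iff hSc.measurableSet]
  apply ContinuousOn.integrableOn_compact hSc
  apply ContinuousOn.mul continuousOn_const
  apply ContinuousOn.inv₀ (by fun_prop)
  intro z hz
  have : 0 < ‖z‖ := lt_of_lt_of_le (Real.exp_pos _) hz.1
  positivity

/-- The Dirichlet energy of the cut-off function is `O(1/L)`. -/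
lemma energy_ca {M : ℝ} (hM : ∀ s, |deriv eta s| ≤ M) (hL : 0 < L) :
    ∫ z, ‖dz (ca L) z‖ ^ 2 ≤ 2 * π * M ^ 2 / L := by
  have h1 := annulus (A := 2 * L) (by linarith) (M ^ 2 / (4 * L ^ 2))
  have h2 : 4 * π * (M ^ 2 / (4 * L ^ 2)) * (2 * L) = 2 * π * M ^ 2 / L := by
    field_simp
  rw [← h2, ← h1]
  apply integral_mono_of_nonneg (Eventually.of_forall fun z => by positivity)
    (annulus_integrable _) (Eventually.of_forall fun z => dz_ca_norm_sq hM hL z)

end Pool.Agent.Lib.Helper82.Mob
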