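import Mathlib

/-!
# Non-orientable minimal surfaces in Euclidean four-space, index, and the surfaces `FS_{2,1}`

A non-orientable surface `Σ` is presented by its orientation double cover: a connected open set
`Ω ⊆ ℂ` (with the coordinate `z = x + iy`) together with a smooth fixed point free orientation
reversing involution `ι` of `Ω`; `Σ = Ω / ι`.  Objects on `Σ` are `ι`-invariant objects on `Ω`.
-/

set_option autoImplicit false

open MeasureTheory Set Topology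
open scoped ContDiff RealInnerProductSpace

namespace Pool.Agent.Lib.Helper82.Mob

/-- Euclidean four-space. -/
abbrev E4 : Type := EuclideanSpace ℝ (Fin 4)

/-- The coordinate directions `∂/∂x`, `∂/∂y` of the plane `ℂ = ℝ²`. -/
noncomputable def dir : Fin 2 → ℂ := ![1, Complex.I]

/-- `pd i f` is the partial derivative of `f` in the direction `dir i`. -/
noncomputable def pd {F : Type*} [NormedAddCommGroup F] [NormedSpace ℝ F]
    (i : Fin 2) (f : ℂ → F) (z : ℂ) : F :=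
  fderiv ℝ f z (dir i)

/-- `(Ω, ι)` presents the connected non-orientable surface `Ω / ι`. -/
structure IsOrientationCover (Ω : Set ℂ) (ι : ℂ → ℂ) : Prop where
  isOpen : IsOpen Ω
  isConnected : IsConnected Ω
  smooth : ContDiffOn ℝ ∞ ι Ω
  mapsTo : ∀ z ∈ Ω, ι z ∈ Ω
  involutive : ∀ z ∈ Ω, ι (ι z) = z
  fixedPointFree : ∀ z ∈ Ω, ι z ≠ z
  reversing : ∀ z ∈ Ω, (fderiv ℝ ι z).det < 0

/-- `u` induces a conformal immersion of `Ω / ι` in `E4`. -/
structure IsConformalImmersion (Ω : Set ℂ) (ι : ℂ → ℂ) (u : ℂ → E4) : Prop where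
  smooth : ContDiffOn ℝ ∞ u Ω
  invariant : ∀ z ∈ Ω, u (ι z) = u z
  immersion : ∀ z ∈ Ω, pd 0 u z ≠ 0
  equal : ∀ z ∈ Ω, ‖pd 0 u z‖ = ‖pd 1 u z‖
  orthogonal : ∀ z ∈ Ω, ⟪pd 0 u z, pd 1 u z⟫ = 0

/-- The conformal factor: the induced metric is `lam u z * (dx² + dy²)`. -/
noncomputable def lam (u : ℂ → E4) (z : ℂ) : ℝ := ‖pd 0 u z‖ ^ 2

/-- The tangent plane at `z`. -/
noncomputable def tangentPlane (u : ℂ → E4) (z : ℂ) : Submodule ℝ E4 :=
  Submodule.span ℝ {pd 0 u z, pd 1 u z}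

/-- The normal component of a vector at `z`. -/
noncomputable def nor (u : ℂ → E4) (z : ℂ) (v : E4) : E4 :=
  ((tangentPlane u z)ᗮ).starProjection v

/-- The second fundamental form `b_{ij} = b(e_i, e_j)` in the orthonormal frame
`e_i = ∂_i / √λ`: the normal component of `∂_i ∂_j u`, divided by `λ`. -/
noncomputable def sff (u : ℂ → E4) (i j : Fin 2) (z : ℂ) : E4 :=
  (lam u z)⁻¹ • nor u z (pd i (pd j u) z)

/-- The mean curvature vector (up to the factor `2`). -/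
noncomputable def meanCurv (u : ℂ → E4) (z : ℂ) : E4 := ∑ i, sff u i i z

/-- The Gauss curvature `K = - Δ (log λ) / (2 λ)` of the metric `λ (dx² + dy²)`. -/
noncomputable def gaussK (u : ℂ → E4) (z : ℂ) : ℝ :=
  - (∑ i, pd i (pd i (fun w => Real.log (lam u w))) z) / (2 * lam u z)

/-- Finite total Gauss curvature: `∫ |K| dA < ∞`, with `dA = λ dx dy`. -/
def FiniteTotalCurvature (Ω : Set ℂ) (u : ℂ → E4) : Prop :=
  IntegrableOn (fun z => gaussK u z * lam u z) Ω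

/-- Completeness: a `C¹` curve `γ : [0, ∞) → Ω` of finite length converges to a point of `Ω`. -/
def IsCompleteSurface (Ω : Set ℂ) (u : ℂ → E4) : Prop :=
  ∀ γ : ℝ → ℂ, ContDiff ℝ 1 γ → (∀ t, 0 ≤ t → γ t ∈ Ω) →
    IntegrableOn (fun t => ‖fderiv ℝ u (γ t) (deriv γ t)‖) (Ici 0) →
    ∃ p ∈ Ω, Filter.Tendsto γ Filter.atTop (𝓝 p)

/-- The equivalence relation on `Ω` whose quotient is `Σ = Ω / ι`. -/
def coverRel (Ω : Set ℂ) (ι : ℂ → ℂ) (z w : Ω) : Prop := (w : ℂ) = z ∨ (w : ℂ) = ι z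

/-- The topological space `Σ = Ω / ι`. -/
abbrev Surf (Ω : Set ℂ) (ι : ℂ → ℂ) : Type := Quot (coverRel Ω ι)

/-- Embeddedness: the map `Ω / ι → E4` induced by `u` is a topological embedding. -/
def IsEmbeddedSurface (Ω : Set ℂ) (ι : ℂ → ℂ) (u : ℂ → E4) : Prop :=
  ∃ f : Surf Ω ι → E4, (∀ z : Ω, f (Quot.mk _ z) = u z) ∧ IsEmbedding f

/-- Smooth compactly supported normal fields on `Ω / ι` (extended by `0` outside `Ω`). -/
def normalFields (Ω : Set ℂ) (ι : ℂ → ℂ) (u : ℂ → E4) : Set (ℂ → E4) :=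
  {X | ContDiff ℝ ∞ X ∧ HasCompactSupport X ∧ tsupport X ⊆ Ω ∧ (∀ z ∈ Ω, X (ι z) = X z) ∧
    ∀ z ∈ Ω, ∀ i, ⟪X z, pd i u z⟫ = 0}

/-- The integrand `|∇^⊥ X|² - ⟨B(X), X⟩` of the second variation of area, where
`B(X) = ∑_{i,j} ⟨b_{ij}, X⟩ b_{ij}`. -/
noncomputable def secondVarDensity (u X : ℂ → E4) (z : ℂ) : ℝ :=
  (lam u z)⁻¹ * ∑ i, ‖nor u z (pd i X z)‖ ^ 2 - ∑ i, ∑ j, ⟪sff u i j z, X z⟫ ^ 2

/-- The second variation of area `δ²A(X)` on `Ω / ι` (half of the integral over the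
double cover `Ω`). -/
noncomputable def secondVar (Ω : Set ℂ) (u X : ℂ → E4) : ℝ :=
  (1 / 2) * ∫ z in Ω, secondVarDensity u X z * lam u z

/-- The Morse index of the surface is `n`. -/
def HasIndex (Ω : Set ℂ) (ι : ℂ → ℂ) (u : ℂ → E4) (n : ℕ) : Prop :=
  IsGreatest {k : ℕ | ∃ V : Submodule ℝ (ℂ → E4), (V : Set (ℂ → E4)) ⊆ normalFields Ω ι u ∧
    FiniteDimensional ℝ V ∧ Module.finrank ℝ V = k ∧ ∀ X ∈ V, X ≠ 0 → secondVar Ω u X < 0} n

/-- The parametrization `u_{k,l}` with the number `T` in place of `T_{k,l}`. -/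
noncomputable def fsMap (k l : ℕ) (T : ℝ) (t θ : ℝ) : E4 :=
  (Real.sqrt (k ^ 2 * Real.sinh (l * T) ^ 2 + l ^ 2 * Real.cosh (k * T) ^ 2))⁻¹ •
    !₂[k * Real.sinh (l * t) * Real.cos (l * θ), k * Real.sinh (l * t) * Real.sin (l * θ),
      l * Real.cosh (k * t) * Real.cos (k * θ), l * Real.cosh (k * t) * Real.sin (k * θ)]

/-- The surface `FS_{k,l}`. -/
def fsSurface (k l : ℕ) (T : ℝ) : Set E4 := {p | ∃ t θ : ℝ, p = fsMap k l T t θ}

/-- `T` is the number `T_{k,l}`. -/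
def IsT (k l : ℕ) (T : ℝ) : Prop :=
  0 < T ∧ k * Real.tanh (k * T) = l * (Real.cosh (l * T) / Real.sinh (l * T))

end Pool.Agent.Lib.Helper82.Mob
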