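import Pool.Agent.Lib.Helper82.Mob.Curv

/-!
# The surface has finite total curvature
-/

set_option autoImplicit false

open MeasureTheory Complex Set Topology Filter
open scoped ContDiff Real ComplexConjugate RealInnerProductSpace

namespace Pool.Agent.Lib.Helper82.Mob

/-- The polynomial form of the data. -/
noncomputable def Ph (j : Fin 4) (z : ℂ) : ℂ :=
  ![z ^ 6 - 3 * z ^ 4 - 3 * z ^ 2 + 1, - I * (z ^ 2 - 1) ^ 3, 2 * s3 * (z ^ 4 + z ^ 2),
    8 * I * z ^ 3] j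

/-- The derivative of `Ph`. -/
noncomputable def Ph' (j : Fin 4) (z : ℂ) : ℂ :=
  ![6 * z ^ 5 - 12 * z ^ 3 - 6 * z, - 6 * I * z * (z ^ 2 - 1) ^ 2, 2 * s3 * (4 * z ^ 3 + 2 * z),
    24 * I * z ^ 2] j

/-- The derivative of the denominator. -/
noncomputable def den' (z : ℂ) : ℂ := 2 * z * (z ^ 2 - 1) ^ 2 + 4 * z ^ 3 * (z ^ 2 - 1)

lemma Ph_eq (j : Fin 4) {z : ℂ} (hz : z ∈ Om) : Ph j z = den z * W j z := by
  obtain ⟨h0, h1, h2⟩ := hz
  have ez : z ^ 2 - 1 = (z - 1) * (z + 1) := by ring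
  fin_cases j <;> simp only [Ph, W, den, ez, Matrix.cons_val_zero, Matrix.cons_val_one,
    Matrix.cons_val, Fin.mk_one, Fin.zero_eta, Fin.reduceFinMk] <;> field_simp <;> ring

lemma Ph'_eq (j : Fin 4) {z : ℂ} (hz : z ∈ Om) : Ph' j z = den' z * W j z + den z * V j z := by
  obtain ⟨h0, h1, h2⟩ := hz
  have ez : z ^ 2 - 1 = (z - 1) * (z + 1) := by ring
  fin_cases j <;> simp only [Ph', W, V, den, den', ez, Matrix.cons_val_zero, Matrix.cons_val_one,
    Matrix.cons_val, Fin.mk_one, Fin.zero_eta, Fin.reduceFinMk] <;> field_simp <;> ring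

lemma continuous_Ph (j : Fin 4) : Continuous (Ph j) := by
  have h0 : Continuous (fun z : ℂ => z ^ 6 - 3 * z ^ 4 - 3 * z ^ 2 + 1) := by fun_prop
  have h1 : Continuous (fun z : ℂ => - I * (z ^ 2 - 1) ^ 3) := by fun_prop
  have h2 : Continuous (fun z : ℂ => 2 * s3 * (z ^ 4 + z ^ 2)) := by fun_prop
  have h3 : Continuous (fun z : ℂ => 8 * I * z ^ 3) := by fun_prop
  fin_cases j
  · exact h0
  · exact h1
  · exact h2
  · exact h3

lemma continuous_Ph' (j : Fin 4) : Continuous (Ph' j) := by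
  have h0 : Continuous (fun z : ℂ => 6 * z ^ 5 - 12 * z ^ 3 - 6 * z) := by fun_prop
  have h1 : Continuous (fun z : ℂ => - 6 * I * z * (z ^ 2 - 1) ^ 2) := by fun_prop
  have h2 : Continuous (fun z : ℂ => 2 * s3 * (4 * z ^ 3 + 2 * z)) := by fun_prop
  have h3 : Continuous (fun z : ℂ => 24 * I * z ^ 2) := by fun_prop
  fin_cases j
  · exact h0
  · exact h1
  · exact h2
  · exact h3

/-- The norm of the polynomial vector. -/
noncomputable def NP (z : ℂ) : ℝ := ∑ j, ‖Ph j z‖ ^ 2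

lemma NP_pos (z : ℂ) : 0 < NP z := by
  by_cases hz : z = 0
  · refine Finset.sum_pos' (fun i _ => by positivity) ⟨1, Finset.mem_univ _, ?_⟩
    have : Ph 1 z ≠ 0 := by
      subst hz
      simp [Ph]
    positivity
  · refine Finset.sum_pos' (fun i _ => by positivity) ⟨3, Finset.mem_univ _, ?_⟩
    have : Ph 3 z ≠ 0 := by
      simp [Ph, hz]
    positivity

/-- The curvature density in polynomial form. -/
noncomputable def kapP (z : ℂ) : ℝ :=
  (NP z * (∑ j, ‖Ph' j z‖ ^ 2) - ‖∑ j, Ph' j z * conj (Ph j z)‖ ^ 2) / NP z ^ 2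

lemma continuous_kapP : Continuous kapP := by
  have h1 : Continuous NP := continuous_finsetSum _ fun j _ => ((continuous_Ph j).norm).pow 2
  have h2 : Continuous fun z => ∑ j, ‖Ph' j z‖ ^ 2 :=
    continuous_finsetSum _ fun j _ => ((continuous_Ph' j).norm).pow 2
  have h3 : Continuous fun z => ∑ j, Ph' j z * conj (Ph j z) :=
    continuous_finsetSum _ fun j _ => (continuous_Ph' j).mul
      (Complex.continuous_conj.comp (continuous_Ph j))
  exact ((h1.mul h2).sub (h3.norm.pow 2)).div (h1.pow 2) fun z => (pow_pos (NP_pos z) 2).ne'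

lemma kapP_eq {z : ℂ} (hz : z ∈ Om) : kapP z = kap z := by
  have hN := Nr_pos hz
  have hd := den_ne hz
  have hdn : 0 < normSq (den z) := Complex.normSq_pos.mpr hd
  have e1 : NP z = normSq (den z) * Nr z := by
    rw [NP, Nr, Finset.mul_sum]
    refine Finset.sum_congr rfl fun j _ => ?_
    rw [Ph_eq j hz, norm_mul, mul_pow, Complex.normSq_eq_norm_sq]
  have e2 : ∑ j, Ph' j z * conj (Ph j z) = conj (den z) * (den' z * (Nr z : ℂ) + den z * SS z) := by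
    have : (Nr z : ℂ) = ∑ j, W j z * conj (W j z) := by
      rw [← NN, NN_eq, Nr]
    rw [this, SS, Finset.mul_sum, Finset.mul_sum, ← Finset.sum_add_distrib, Finset.mul_sum]
    refine Finset.sum_congr rfl fun j _ => ?_
    rw [Ph_eq j hz, Ph'_eq j hz, map_mul]; ring
  have e3 : ∑ j, ‖Ph' j z‖ ^ 2 = normSq (den' z) * Nr z + normSq (den z) * VV z
      + 2 * (den' z * conj (den z) * conj (SS z)).re := by
    have h1 : ∀ j, ‖Ph' j z‖ ^ 2 = normSq (den' z) * ‖W j z‖ ^ 2 + normSq (den z) * ‖V j z‖ ^ 2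
        + 2 * (den' z * conj (den z) * (W j z * conj (V j z))).re := by
      intro j
      rw [Ph'_eq j hz, ← Complex.normSq_eq_norm_sq, Complex.normSq_add, normSq_mul, normSq_mul,
        ← Complex.normSq_eq_norm_sq, ← Complex.normSq_eq_norm_sq, map_mul]
      congr 3
      ring
    have h2 : conj (SS z) = ∑ j, W j z * conj (V j z) := by
      rw [SS, map_sum]
      refine Finset.sum_congr rfl fun j _ => ?_
      rw [map_mul, Complex.conj_conj]; ring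
    rw [h2]
    simp only [h1, Finset.sum_add_distrib, ← Finset.mul_sum, ← Complex.re_sum]
    rw [Nr, VV]
  have e4 : ‖∑ j, Ph' j z * conj (Ph j z)‖ ^ 2 = normSq (den z) * (normSq (den' z) * Nr z ^ 2
      + normSq (den z) * ‖SS z‖ ^ 2 + 2 * Nr z * (den' z * conj (den z) * conj (SS z)).re) := by
    rw [e2, ← Complex.normSq_eq_norm_sq, normSq_mul, normSq_conj, Complex.normSq_add, normSq_mul,
      normSq_mul, normSq_ofReal, ← Complex.normSq_eq_norm_sq (SS z), map_mul]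
    have : den' z * (Nr z : ℂ) * (conj (den z) * conj (SS z))
        = (Nr z : ℂ) * (den' z * conj (den z) * conj (SS z)) := by ring
    rw [this, Complex.re_ofReal_mul]
    ring
  rw [kapP, kap, e4, e3, e1]
  field_simp
  ring

lemma SS_sq_le (z : ℂ) : ‖SS z‖ ^ 2 ≤ Nr z * VV z := by
  have h1 : ‖SS z‖ ≤ ∑ j, ‖V j z‖ * ‖W j z‖ := by
    refine (norm_sum_le _ _).trans (Finset.sum_le_sum fun j _ => ?_)
    rw [norm_mul, RCLike.norm_conj]
  have h2 : (∑ j, ‖V j z‖ * ‖W j z‖) ^ 2 ≤ (∑ j, ‖V j z‖ ^ 2) * ∑ j, ‖W j z‖ ^ 2 :=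
    Finset.sum_mul_sq_le_sq_mul_sq _ _ _
  calc ‖SS z‖ ^ 2 ≤ (∑ j, ‖V j z‖ * ‖W j z‖) ^ 2 := by gcongr
    _ ≤ _ := h2
    _ = Nr z * VV z := by rw [Nr, VV, mul_comm]

lemma kap_nonneg (z : ℂ) : 0 ≤ kap z := by
  have := SS_sq_le z
  rw [kap]; apply div_nonneg _ (by positivity); linarith

lemma kap_le {z : ℂ} (hz : z ∈ Om) : kap z ≤ VV z / Nr z := by
  have hN := Nr_pos hz
  rw [kap, div_le_div_iff₀ (by positivity) hN]
  have : 0 ≤ ‖SS z‖ ^ 2 * Nr z := by positivity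
  nlinarith

lemma V_bound (j : Fin 4) {z : ℂ} (h : 2 ≤ ‖z‖) : ‖V j z‖ ≤ 64 / ‖z‖ ^ 3 := by
  have hz : 0 < ‖z‖ := by linarith
  have h1 : ‖z‖ / 2 ≤ ‖z - 1‖ := by
    have := norm_sub_norm_le z 1
    rw [norm_one] at this; linarith
  have h2 : ‖z‖ / 2 ≤ ‖z + 1‖ := by
    have := norm_sub_norm_le z (-1)
    rw [norm_neg, norm_one, sub_neg_eq_add] at this; linarith
  have k0 : ‖(z ^ 3)⁻¹‖ = 1 / ‖z‖ ^ 3 := by rw [norm_inv, norm_pow, one_div]
  have hp1 : 0 < ‖z - 1‖ := by linarith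
  have hp2 : 0 < ‖z + 1‖ := by linarith
  have h2n : ‖(2:ℂ)‖ = 2 := by norm_num
  have k1 : ‖((z - 1) ^ 3)⁻¹‖ ≤ 8 / ‖z‖ ^ 3 := by
    rw [norm_inv, norm_pow, inv_eq_one_div, div_le_div_iff₀ (by positivity) (by positivity)]
    have : (‖z‖ / 2) ^ 3 ≤ ‖z - 1‖ ^ 3 := by gcongr
    rw [div_pow] at this
    norm_num at this ⊢
    linarith
  have k2 : ‖((z + 1) ^ 3)⁻¹‖ ≤ 8 / ‖z‖ ^ 3 := by
    rw [norm_inv, norm_pow, inv_eq_one_div, div_le_div_iff₀ (by positivity) (by positivity)]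
    have : (‖z‖ / 2) ^ 3 ≤ ‖z + 1‖ ^ 3 := by gcongr
    rw [div_pow] at this
    norm_num at this ⊢
    linarith
  have hs : ‖s3‖ ≤ 2 := by
    rw [s3, Complex.norm_real, Real.norm_of_nonneg (Real.sqrt_nonneg _), Real.sqrt_le_left (by norm_num)]
    norm_num
  have hq : 64 / ‖z‖ ^ 3 = 64 * (1 / ‖z‖ ^ 3) := by ring
  have hq8 : 8 / ‖z‖ ^ 3 = 8 * (1 / ‖z‖ ^ 3) := by ring
  rw [hq8] at k1 k2
  rw [hq]
  have hp : 0 < 1 / ‖z‖ ^ 3 := by positivity
  set q := 1 / ‖z‖ ^ 3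
  fin_cases j
  · simp only [V, Fin.zero_eta, Matrix.cons_val_zero]
    have a1 : ‖-2 * (z ^ 3)⁻¹‖ = 2 * q := by rw [norm_mul, k0]; norm_num
    have a2 : ‖2 * ((z - 1) ^ 3)⁻¹‖ ≤ 2 * (8 * q) := by rw [norm_mul, h2n]; linarith
    have a3 : ‖2 * ((z + 1) ^ 3)⁻¹‖ ≤ 2 * (8 * q) := by rw [norm_mul, h2n]; linarith
    have := norm_add₃_le (a := -2 * (z ^ 3)⁻¹) (b := 2 * ((z - 1) ^ 3)⁻¹) (c := 2 * ((z + 1) ^ 3)⁻¹)
    linarith
  · simp only [V, Fin.mk_one, Matrix.cons_val_one, Matrix.cons_val_zero]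
    have a1 : ‖-2 * I * (z ^ 3)⁻¹‖ = 2 * q := by
      rw [norm_mul, norm_mul, k0, norm_I, mul_one]; norm_num
    rw [a1]; linarith
  · simp only [V, Fin.reduceFinMk, Matrix.cons_val]
    have a1 : ‖((z - 1) ^ 3)⁻¹ + ((z + 1) ^ 3)⁻¹‖ ≤ 16 * q := by
      have := norm_add_le ((z - 1) ^ 3)⁻¹ ((z + 1) ^ 3)⁻¹
      linarith
    have a2 : ‖-2 * s3‖ ≤ 4 := by rw [norm_mul]; norm_num; linarith
    rw [norm_mul]
    calc _ ≤ 4 * (16 * q) := by gcongr
      _ = 64 * q := by ring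
  · simp only [V, Fin.reduceFinMk, Matrix.cons_val]
    have a1 : ‖((z - 1) ^ 3)⁻¹ - ((z + 1) ^ 3)⁻¹‖ ≤ 16 * q := by
      have := norm_sub_le ((z - 1) ^ 3)⁻¹ ((z + 1) ^ 3)⁻¹
      linarith
    have a2 : ‖-4 * I‖ ≤ 4 := by rw [norm_mul, norm_I]; norm_num
    rw [norm_mul]
    calc _ ≤ 4 * (16 * q) := by gcongr
      _ = 64 * q := by ring

lemma mem_Om_of_large {z : ℂ} (h : 2 ≤ ‖z‖) : z ∈ Om := by
  refine ⟨?_, ?_, ?_⟩
  · rintro rfl; norm_num at h
  · intro h'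
    rw [sub_eq_zero.mp h'] at h; norm_num at h
  · intro h'
    rw [eq_neg_of_add_eq_zero_left h'] at h; norm_num at h

lemma kap_decay {z : ℂ} (h : 2 ≤ ‖z‖) : kap z ≤ 40000 / ‖z‖ ^ 3 := by
  have hz := mem_Om_of_large h
  have hz0 : 0 < ‖z‖ := by linarith
  have hN : 9 / 16 ≤ Nr z := by
    have h1 : ‖W 1 z‖ ^ 2 ≤ Nr z :=
      Finset.single_le_sum (f := fun j => ‖W j z‖ ^ 2) (fun j _ => by positivity) (Finset.mem_univ 1)
    have h2 : 3 / 4 ≤ ‖W 1 z‖ := by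
      have e : ‖W 1 z‖ = ‖1 - (z ^ 2)⁻¹‖ := by
        simp only [W, Matrix.cons_val_one, Matrix.cons_val_zero]
        rw [norm_mul, norm_neg, norm_I, one_mul]
      rw [e]
      have h3 := norm_sub_norm_le (1:ℂ) (z ^ 2)⁻¹
      have h4 : ‖(z ^ 2)⁻¹‖ ≤ 1 / 4 := by
        rw [norm_inv, norm_pow, inv_eq_one_div]
        apply one_div_le_one_div_of_le (by norm_num)
        nlinarith
      rw [norm_one] at h3
      linarith
    nlinarith
  have hV : VV z ≤ 16384 / ‖z‖ ^ 6 := by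
    have h1 : ∀ j, ‖V j z‖ ^ 2 ≤ 4096 / ‖z‖ ^ 6 := by
      intro j
      have := V_bound j h
      calc ‖V j z‖ ^ 2 ≤ (64 / ‖z‖ ^ 3) ^ 2 := by gcongr
        _ = 4096 / ‖z‖ ^ 6 := by rw [div_pow, ← pow_mul]; norm_num
    calc VV z ≤ ∑ _j : Fin 4, 4096 / ‖z‖ ^ 6 := Finset.sum_le_sum fun j _ => h1 j
      _ = 16384 / ‖z‖ ^ 6 := by
        rw [Finset.sum_const, Finset.card_univ, Fintype.card_fin]; ring
  have hV0 : 0 ≤ VV z := Finset.sum_nonneg fun j _ => by positivity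
  calc kap z ≤ VV z / Nr z := kap_le hz
    _ ≤ (16384 / ‖z‖ ^ 6) / (9 / 16) := by gcongr
    _ ≤ 40000 / ‖z‖ ^ 3 := by
      rw [div_div, div_le_div_iff₀ (by positivity) (by positivity)]
      have h6 : ‖z‖ ^ 6 = ‖z‖ ^ 3 * ‖z‖ ^ 3 := by ring
      have h3 : 8 ≤ ‖z‖ ^ 3 := by
        have : (2:ℝ) ^ 3 ≤ ‖z‖ ^ 3 := by gcongr
        linarith
      rw [h6]
      nlinarith

theorem integrable_kapP : Integrable kapP := by
  have hc : Continuous (fun z => ((kapP z : ℝ) : ℂ)) := Complex.continuous_ofReal.comp continuous_kapP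
  have hd := decay_global (k := 3) (C := 40000) (R := 2) hc (by norm_num) (by norm_num)
    (fun z hz => by
      rw [kapP_eq (mem_Om_of_large hz), Complex.norm_real, Real.norm_of_nonneg (kap_nonneg z)]
      exact kap_decay hz)
  obtain ⟨D, -, hD⟩ := hd
  have h := integrable_of_decay hc (r := 3) (by norm_num) (D := D) (by exact_mod_cast hD)
  exact h.re

theorem finiteTotalCurvature : FiniteTotalCurvature Om uu := by
  have h1 : IntegrableOn (fun z => -2 * kapP z) Om := (integrable_kapP.const_mul (-2)).integrableOn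
  refine h1.congr_fun (fun z hz => ?_) isOpen_Om.measurableSet
  simp only
  rw [gaussK_lam hz, kapP_eq hz]

end Pool.Agent.Lib.Helper82.Mob
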