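import Pool.Agent.Lib.Helper82.Mob.Defs

/-!
# The number `T_{2,1}`
-/

set_option autoImplicit false

open Set Topology
open scoped Real

namespace Pool.Agent.Lib.Helper82.Mob

lemma isT_iff_sinh {T : ℝ} : IsT 2 1 T ↔ 0 < T ∧ Real.sinh T ^ 2 = 1 / 2 := by
  rw [IsT]
  refine and_congr_right fun hT => ?_
  have hs : 0 < Real.sinh T := Real.sinh_pos_iff.mpr hT
  have hc : 0 < Real.cosh T := Real.cosh_pos T
  have hc2 : 0 < Real.cosh (2 * T) := Real.cosh_pos _
  have e1 : Real.cosh (2 * T) = 1 + 2 * Real.sinh T ^ 2 := by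
    rw [Real.cosh_two_mul, Real.cosh_sq]; ring
  have e2 : Real.sinh (2 * T) = 2 * Real.sinh T * Real.cosh T := Real.sinh_two_mul T
  simp only [Nat.cast_ofNat, Nat.cast_one, one_mul]
  rw [Real.tanh_eq_sinh_div_cosh, ← mul_div_assoc, div_eq_div_iff hc2.ne' hs.ne', e1, e2]
  constructor
  · intro h
    have h1 : Real.cosh T * (4 * Real.sinh T ^ 2 - (1 + 2 * Real.sinh T ^ 2)) = 0 := by
      linear_combination h
    rcases mul_eq_zero.mp h1 with h2 | h2
    · exact absurd h2 hc.ne'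
    · linarith
  · intro h
    have h1 : 4 * Real.sinh T ^ 2 - (1 + 2 * Real.sinh T ^ 2) = 0 := by linarith
    linear_combination Real.cosh T * h1

/-- The number `T_{2,1}` exists and is unique. -/
theorem exists_T : ∃ T : ℝ, ∀ T' : ℝ, IsT 2 1 T' ↔ T' = T := by
  refine ⟨Real.arsinh (Real.sqrt (1 / 2)), fun T' => ?_⟩
  have hp : 0 < Real.sqrt (1 / 2) := Real.sqrt_pos.mpr (by norm_num)
  rw [isT_iff_sinh]
  constructor
  · rintro ⟨h1, h2⟩
    have hs : 0 < Real.sinh T' := Real.sinh_pos_iff.mpr h1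
    have : Real.sqrt (1 / 2) = Real.sinh T' := by
      rw [← h2, Real.sqrt_sq hs.le]
    rw [this, Real.arsinh_sinh]
  · rintro rfl
    refine ⟨Real.arsinh_pos_iff.mpr hp, ?_⟩
    rw [Real.sinh_arsinh, Real.sq_sqrt (by norm_num)]

end Pool.Agent.Lib.Helper82.Mob
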