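import Pool.Agent.Lib.Helper82.Mob.Lower4

/-!
# The negative direction, conclusion
-/

set_option autoImplicit false

open MeasureTheory Complex Set Topology Filter
open scoped ContDiff Real ComplexConjugate

namespace Pool.Agent.Lib.Helper82.Mob

/-- The harmonic field `Re (a z² + \bar a z⁻²)`. -/
noncomputable def Hh (j : Fin 4) (z : ℂ) : ℂ :=
  ![z ^ 2 + (z ^ 2)⁻¹, - I * (z ^ 2 - (z ^ 2)⁻¹), 0, 0] j

/-- Its complex derivative. -/
noncomputable def Hh' (j : Fin 4) (z : ℂ) : ℂ :=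
  ![2 * z - 2 * (z ^ 3)⁻¹, - I * (2 * z + 2 * (z ^ 3)⁻¹), 0, 0] j

lemma hasDerivAt_Hh (j : Fin 4) {z : ℂ} (hz : z ∈ Om) : HasDerivAt (Hh j) (Hh' j z) z := by
  obtain ⟨h0, -, -⟩ := hz
  have a0 : HasDerivAt (fun w : ℂ => (w ^ 2)⁻¹) (-2 * (z ^ 3)⁻¹) z := by
    have := hasDerivAt_inv_sq_shift (z := z) (c := 0) (by simpa using h0)
    simpa using this
  have a1 : HasDerivAt (fun w : ℂ => w ^ 2) (2 * z) z := by
    have := hasDerivAt_pow 2 z
    simpa using this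
  fin_cases j
  · refine (a1.fun_add a0).congr_deriv ?_
    simp [Hh']; ring
  · refine ((a1.fun_sub a0).const_mul (-I)).congr_deriv ?_
    simp [Hh']
  · exact hasDerivAt_const z _
  · exact hasDerivAt_const z _

lemma diff_Hh' (j : Fin 4) {z : ℂ} (hz : z ∈ Om) : DifferentiableAt ℂ (Hh' j) z := by
  have h1 : DifferentiableOn ℂ (Hh j) Om := fun z hz =>
    (hasDerivAt_Hh j hz).differentiableAt.differentiableWithinAt
  have h2 : DifferentiableOn ℂ (deriv (Hh j)) Om := h1.deriv isOpen_Om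
  have h3 : deriv (Hh j) =ᶠ[𝓝 z] Hh' j := by
    filter_upwards [isOpen_Om.mem_nhds hz] with w hw using (hasDerivAt_Hh j hw).deriv
  exact (h2.differentiableAt (isOpen_Om.mem_nhds hz)).congr_of_eventuallyEq h3.symm

lemma hre_Hh_iot (j : Fin 4) {z : ℂ} (hz : z ∈ Om) : hre (Hh j) (iot z) = hre (Hh j) z := by
  have h0 := hz.1
  have c0 : conj z ≠ 0 := by simpa using h0
  have e0 : (iot z) ^ 2 = (conj z ^ 2)⁻¹ := by rw [iot, neg_sq, inv_pow]
  have key : Hh j (iot z) = conj (Hh j z) := by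
    fin_cases j <;> simp only [Hh, Matrix.cons_val_zero, Matrix.cons_val_one, Matrix.cons_val,
      Fin.mk_one, Fin.zero_eta, Fin.reduceFinMk, e0, map_add, map_sub, map_mul, map_neg,
      map_inv₀, conj_I, map_pow, inv_inv, map_zero] <;> ring
  rw [hre, hre, key, Complex.conj_conj]
  ring

/-- The Hopf differential of the field against the surface. -/
lemma hopf {z : ℂ} (hz : z ∈ Om) :
    (1 + z ^ 2) * ((∑ j, Hh' j z * W j z) / 2) = 8 * (z⁻¹ - (z - 1)⁻¹ - (z + 1)⁻¹) := by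
  obtain ⟨h0, h1, h2⟩ := hz
  simp only [Fin.sum_univ_four, Hh', W, Matrix.cons_val_zero, Matrix.cons_val_one,
    Matrix.cons_val]
  have hI := I_sq
  have e2 : -I * (2 * z + 2 * (z ^ 3)⁻¹) * (-I * (1 - (z ^ 2)⁻¹))
      = -((2 * z + 2 * (z ^ 3)⁻¹) * (1 - (z ^ 2)⁻¹)) := by
    linear_combination ((2 * z + 2 * (z ^ 3)⁻¹) * (1 - (z ^ 2)⁻¹)) * hI
  rw [e2]
  field_simp
  ring

lemma exp_two_gt : (7:ℝ) < Real.exp 2 := by
  have h := Real.exp_one_gt_d9
  have : Real.exp 2 = Real.exp 1 * Real.exp 1 := by rw [← Real.exp_add]; norm_num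
  rw [this]
  nlinarith

lemma region {z : ℂ} (hz : z ≠ 0) (h : 2 ≤ |Real.log ‖z‖|) : ‖z‖ ≤ 1 / 7 ∨ 7 ≤ ‖z‖ := by
  have hp : 0 < ‖z‖ := norm_pos_iff.mpr hz
  rcases le_abs.mp h with h1 | h1
  · right
    have := (Real.le_log_iff_exp_le hp).mp h1
    linarith [exp_two_gt]
  · left
    have h2 : Real.log ‖z‖ ≤ -2 := by linarith
    have h3 := (Real.log_le_iff_le_exp hp).mp h2
    rw [Real.exp_neg] at h3
    have h4 : (Real.exp 2)⁻¹ ≤ 7⁻¹ := inv_anti₀ (by norm_num) exp_two_gt.le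
    linarith

lemma inner_log {z : ℂ} (h1 : 1 / 7 ≤ ‖z‖) (h2 : ‖z‖ ≤ 7) : |Real.log ‖z‖| < 2 := by
  have hp : 0 < ‖z‖ := by linarith
  rw [abs_lt]
  constructor
  · rw [Real.lt_log_iff_exp_lt hp, Real.exp_neg]
    have h4 : (Real.exp 2)⁻¹ < 7⁻¹ := inv_strictAnti₀ (by norm_num) exp_two_gt
    linarith
  · rw [Real.log_lt_iff_lt_exp hp]; linarith [exp_two_gt]

lemma mob_mid {z : ℂ} (h2 : z + 1 ≠ 0) (h : ‖z‖ ≤ 1 / 7 ∨ 7 ≤ ‖z‖) : |Real.log ‖mob z‖| < 2 := by
  have hp : 0 < ‖z + 1‖ := norm_pos_iff.mpr h2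
  have a1 : ‖z - 1‖ ≤ ‖z‖ + 1 := by simpa using norm_sub_le z 1
  have a2 : ‖z + 1‖ ≤ ‖z‖ + 1 := by simpa using norm_add_le z 1
  have a3 : |‖z‖ - 1| ≤ ‖z - 1‖ := by simpa using abs_norm_sub_norm_le z 1
  have a4 : |‖z‖ - 1| ≤ ‖z + 1‖ := by
    have := abs_norm_sub_norm_le z (-1)
    simpa using this
  apply inner_log
  · rw [mob, norm_div, le_div_iff₀ hp]
    rcases h with h | h
    · have := neg_abs_le (‖z‖ - 1); linarith
    · have := le_abs_self (‖z‖ - 1); linarith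
  · rw [mob, norm_div, div_le_iff₀ hp]
    rcases h with h | h
    · have := neg_abs_le (‖z‖ - 1); linarith
    · have := le_abs_self (‖z‖ - 1); linarith

lemma z_mid {z : ℂ} (h2 : z + 1 ≠ 0) (h : ‖mob z‖ ≤ 1 / 7 ∨ 7 ≤ ‖mob z‖) :
    2 / 3 ≤ ‖z‖ ∧ ‖z‖ ≤ 4 / 3 := by
  have hp : 0 < ‖z + 1‖ := norm_pos_iff.mpr h2
  rw [mob, norm_div] at h
  have a1 : 2 ≤ ‖z - 1‖ + ‖z + 1‖ := by
    have := norm_sub_le (z + 1) (z - 1)
    have e : (z + 1) - (z - 1) = 2 := by ring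
    rw [e] at this
    have : ‖(2:ℂ)‖ = 2 := by norm_num
    linarith
  have a1' : ‖z + 1‖ ≤ ‖z - 1‖ + 2 := by
    have := norm_add_le (z - 1) 2
    have e : (z - 1) + 2 = z + 1 := by ring
    rw [e] at this
    have : ‖(2:ℂ)‖ = 2 := by norm_num
    linarith
  have a1'' : ‖z - 1‖ ≤ ‖z + 1‖ + 2 := by
    have := norm_sub_le (z + 1) 2
    have e : (z + 1) - 2 = z - 1 := by ring
    rw [e] at this
    have : ‖(2:ℂ)‖ = 2 := by norm_num
    linarith
  have a3 : |‖z‖ - 1| ≤ ‖z - 1‖ := by simpa using abs_norm_sub_norm_le z 1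
  have a4 : |‖z‖ - 1| ≤ ‖z + 1‖ := by
    have := abs_norm_sub_norm_le z (-1)
    simpa using this
  rcases h with h | h
  · rw [div_le_iff₀ hp] at h
    have h3 : ‖z - 1‖ ≤ 1 / 3 := by linarith
    have := abs_le.mp (a3.trans h3)
    constructor <;> linarith
  · rw [le_div_iff₀ hp] at h
    have h3 : ‖z + 1‖ ≤ 1 / 3 := by linarith
    have := abs_le.mp (a4.trans h3)
    constructor <;> linarith

lemma norm_hre_le (H : ℂ → ℂ) (z : ℂ) : ‖hre H z‖ ≤ ‖H z‖ := by
  rw [hre, norm_mul]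
  have h1 : ‖H z + conj (H z)‖ ≤ ‖H z‖ + ‖H z‖ := by
    refine (norm_add_le _ _).trans ?_
    rw [RCLike.norm_conj]
  have h2 : ‖(1/2 : ℂ)‖ = 1/2 := by norm_num
  rw [h2]; linarith

/-- Bound near the ends `0` and `∞`. -/
lemma Bf_a {z : ℂ} (hz : z ∈ Om) (h : ‖z‖ ≤ 1 / 7 ∨ 7 ≤ ‖z‖) :
    Bf (fun j => hre (Hh j) z) (1 + z ^ 2) z ≤ 200 := by
  have hz' := hz
  obtain ⟨h0, h1, h2⟩ := hz
  -- the basic quantities
  have a3 : |‖z‖ - 1| ≤ ‖z - 1‖ := by simpa using abs_norm_sub_norm_le z 1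
  have a4 : |‖z‖ - 1| ≤ ‖z + 1‖ := by
    have := abs_norm_sub_norm_le z (-1)
    simpa using this
  have hb : ∀ p : ℂ, p ≠ 0 → |‖z‖ - 1| ≤ ‖p‖ → ‖(1 + z ^ 2) * (p ^ 2)⁻¹‖ ≤ 2 := by
    intro p hp hle
    have hpp : 0 < ‖p‖ := norm_pos_iff.mpr hp
    rw [norm_mul, norm_inv, norm_pow, ← div_eq_mul_inv, div_le_iff₀ (by positivity)]
    have e1 : ‖1 + z ^ 2‖ ≤ 1 + ‖z‖ ^ 2 := by
      refine (norm_add_le _ _).trans ?_
      rw [norm_one, norm_pow]
    have e2 : |‖z‖ - 1| ^ 2 ≤ ‖p‖ ^ 2 := by gcongr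
    rw [sq_abs] at e2
    rcases h with h | h
    · have := norm_nonneg z
      nlinarith
    · nlinarith
  have hb1 := hb (z - 1) h1 a3
  have hb2 := hb (z + 1) h2 a4
  set A := (1 + z ^ 2) * ((z - 1) ^ 2)⁻¹ with hA
  set B := (1 + z ^ 2) * ((z + 1) ^ 2)⁻¹ with hB
  -- the components
  have hc : ∀ j, hre (Hh j) z - hre (fun _ => (1 + z ^ 2) * W j z) 0
      = hre (fun _ => Hh j z - (1 + z ^ 2) * W j z) 0 := by
    intro j
    simp only [hre, map_sub]
    ring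
  have n0 : Hh 0 z - (1 + z ^ 2) * W 0 z = -2 + A + B := by
    simp only [Hh, W, Matrix.cons_val_zero, hA, hB]
    field_simp
    ring
  have n1 : Hh 1 z - (1 + z ^ 2) * W 1 z = 0 := by
    simp only [Hh, W, Matrix.cons_val_one, Matrix.cons_val_zero]
    field_simp
    ring
  have n2 : Hh 2 z - (1 + z ^ 2) * W 2 z = - s3 * (A + B) := by
    simp only [Hh, W, Matrix.cons_val, hA, hB]
    ring
  have n3 : Hh 3 z - (1 + z ^ 2) * W 3 z = - 2 * I * (A - B) := by
    simp only [Hh, W, Matrix.cons_val, hA, hB]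
    ring
  have s3n : ‖s3‖ ≤ 2 := by
    rw [s3, Complex.norm_real, Real.norm_of_nonneg (Real.sqrt_nonneg _)]
    rw [Real.sqrt_le_left (by norm_num)]; norm_num
  rw [Bf, Fin.sum_univ_four]
  simp only [hc]
  have k0 : ‖hre (fun _ => Hh 0 z - (1 + z ^ 2) * W 0 z) 0‖ ≤ 6 := by
    refine (norm_hre_le _ _).trans ?_
    simp only [n0]
    have := norm_add_le (-2 + A) B
    have h' := norm_add_le (-2) A
    have : ‖(-2:ℂ)‖ = 2 := by norm_num
    linarith
  have k1 : ‖hre (fun _ => Hh 1 z - (1 + z ^ 2) * W 1 z) 0‖ ≤ 0 := by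
    refine (norm_hre_le _ _).trans ?_
    simp only [n1, norm_zero, le_refl]
  have k2 : ‖hre (fun _ => Hh 2 z - (1 + z ^ 2) * W 2 z) 0‖ ≤ 8 := by
    refine (norm_hre_le _ _).trans ?_
    simp only [n2]
    rw [norm_mul, norm_neg]
    have := norm_add_le A B
    have h3 : ‖A + B‖ ≤ 4 := by linarith
    calc ‖s3‖ * ‖A + B‖ ≤ 2 * 4 := by gcongr
      _ = 8 := by norm_num
  have k3 : ‖hre (fun _ => Hh 3 z - (1 + z ^ 2) * W 3 z) 0‖ ≤ 8 := by
    refine (norm_hre_le _ _).trans ?_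
    simp only [n3]
    rw [norm_mul, norm_mul, Complex.norm_I, norm_neg]
    have := norm_sub_le A B
    have h3 : ‖A - B‖ ≤ 4 := by linarith
    have : ‖(2:ℂ)‖ = 2 := by norm_num
    rw [this]
    linarith
  have q0 := pow_le_pow_left₀ (norm_nonneg _) k0 2
  have q1 := pow_le_pow_left₀ (norm_nonneg _) k1 2
  have q2 := pow_le_pow_left₀ (norm_nonneg _) k2 2
  have q3 := pow_le_pow_left₀ (norm_nonneg _) k3 2
  linarith

/-- Bound near the ends `1` and `-1`. -/
lemma Bf_b {z : ℂ} (h : 2 / 3 ≤ ‖z‖ ∧ ‖z‖ ≤ 4 / 3) :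
    Bf (fun j => hre (Hh j) z) 0 z ≤ 200 := by
  obtain ⟨h1, h2⟩ := h
  have hp : 0 < ‖z‖ := by linarith
  have e0 : ∀ j, hre (fun _ => (0:ℂ) * W j z) 0 = 0 := by intro j; simp [hre]
  have b1 : ‖z ^ 2‖ ≤ 2 := by rw [norm_pow]; nlinarith
  have b2 : ‖(z ^ 2)⁻¹‖ ≤ 3 := by
    rw [norm_inv, norm_pow]
    have : (3:ℝ)⁻¹ ≤ ‖z‖ ^ 2 := by nlinarith
    calc (‖z‖ ^ 2)⁻¹ ≤ (3:ℝ)⁻¹⁻¹ := inv_anti₀ (by norm_num) this
      _ = 3 := by norm_num
  rw [Bf, Fin.sum_univ_four]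
  simp only [e0, sub_zero]
  have k0 : ‖hre (Hh 0) z‖ ≤ 5 := by
    refine (norm_hre_le _ _).trans ?_
    simp only [Hh, Matrix.cons_val_zero]
    have := norm_add_le (z ^ 2) (z ^ 2)⁻¹
    linarith
  have k1 : ‖hre (Hh 1) z‖ ≤ 5 := by
    refine (norm_hre_le _ _).trans ?_
    simp only [Hh, Matrix.cons_val_one, Matrix.cons_val_zero]
    rw [norm_mul, norm_neg, Complex.norm_I, one_mul]
    have := norm_sub_le (z ^ 2) (z ^ 2)⁻¹
    linarith
  have k2 : hre (Hh 2) z = 0 := by simp [hre, Hh]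
  have k3 : hre (Hh 3) z = 0 := by simp [hre, Hh]
  have q0 := pow_le_pow_left₀ (norm_nonneg _) k0 2
  have q1 := pow_le_pow_left₀ (norm_nonneg _) k1 2
  rw [k2, k3, norm_zero]
  linarith

/-- The full cut-off function. -/
noncomputable def chi (L : ℝ) (z : ℂ) : ℂ := ca L z * cb L z

variable {L : ℝ}

lemma tst_chi (hL : 0 < L) : Tst (chi L) := by
  set K : Set ℂ := {z | (Real.exp (-(2 * L)) ≤ ‖z‖ ∧ ‖z‖ ≤ Real.exp (2 * L)) ∧
    (Real.exp (-(2 * L)) * ‖z + 1‖ ≤ ‖z - 1‖ ∧ ‖z - 1‖ ≤ Real.exp (2 * L) * ‖z + 1‖)} with hK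
  have hKc : IsClosed K := by
    apply IsClosed.inter
    · exact (isClosed_le continuous_const continuous_norm).inter
        (isClosed_le continuous_norm continuous_const)
    · exact (isClosed_le (f := fun z : ℂ => Real.exp (-(2 * L)) * ‖z + 1‖) (g := fun z => ‖z - 1‖)
          (by fun_prop) (by fun_prop)).inter
        (isClosed_le (f := fun z : ℂ => ‖z - 1‖) (g := fun z => Real.exp (2 * L) * ‖z + 1‖)
          (by fun_prop) (by fun_prop))
  have hsub : tsupport (chi L) ⊆ K := by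
    apply closure_minimal _ hKc
    intro z hz
    have h1 : ca L z ≠ 0 := fun h => hz (by simp [chi, h])
    have h2 : cb L z ≠ 0 := fun h => hz (by simp [chi, h])
    exact ⟨ca_support hL h1, (cb_support hL h2).2⟩
  have e1 := Real.exp_pos (-(2 * L))
  have e2 := Real.exp_pos (2 * L)
  refine ⟨contDiff_infty.mp ((contDiff_ca hL).mul (contDiff_cb hL)) 2, ?_, ?_⟩
  · exact (ca_cs hL).mul_right
  · refine hsub.trans ?_
    rintro z ⟨⟨h1, h2⟩, h3, h4⟩
    refine ⟨?_, ?_, ?_⟩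
    · rintro rfl; rw [norm_zero] at h1; linarith
    · intro h
      rw [h, norm_zero] at h3
      have h5 : z + 1 = 2 := by linear_combination h
      rw [h5] at h3
      have : ‖(2:ℂ)‖ = 2 := by norm_num
      rw [this] at h3
      linarith
    · intro h
      rw [h, norm_zero, mul_zero] at h4
      have h5 : z - 1 = -2 := by linear_combination h
      rw [h5] at h4
      have : ‖(-2:ℂ)‖ = 2 := by norm_num
      rw [this] at h4
      linarith

lemma chi_real (L : ℝ) (z : ℂ) : conj (chi L z) = chi L z := by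
  rw [chi, map_mul, ca_real, cb_real]

lemma chi_iot (L : ℝ) {z : ℂ} (hz : z ∈ Om) : chi L (iot z) = chi L z := by
  rw [chi, chi, ca_iot L hz.1, cb, cb, mob_iot hz, ca_iot L (mob_mem hz).1]

lemma dz_cb_inner (hL : 0 < L) {z : ℂ} (h1 : z + 1 ≠ 0) (h2 : mob z ≠ 0)
    (h : |Real.log ‖mob z‖| < L) : dz (cb L) z = 0 := by
  have h3 : dz (cb L) z = dz (ca L) (mob z) * (2 / (z + 1) ^ 2) :=
    dz_comp_holo (hasDerivAt_mob h1) ((contDiff_ca hL).differentiable (by simp) _)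
  rw [h3, dz_ca_inner hL h2 h, zero_mul]

lemma dz_cb_cs (hL : 2 ≤ L) : HasCompactSupport (dz (cb L)) := by
  have hL0 : 0 < L := by linarith
  apply HasCompactSupport.of_support_subset_isCompact (isCompact_closedBall (0:ℂ) (4 / 3))
  intro z hz
  have h1 : z + 1 ≠ 0 := by
    intro h
    apply hz
    rw [eq_neg_of_add_eq_zero_left h, dz, (cb_eventually_zero hL0).fderiv_eq]
    simp
  have h3 : dz (cb L) z = dz (ca L) (mob z) * (2 / (z + 1) ^ 2) :=
    dz_comp_holo (hasDerivAt_mob h1) ((contDiff_ca hL0).differentiable (by simp) _)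
  have h2 : mob z ≠ 0 := by
    intro h
    apply hz
    rw [h3, h, dz, (ca_eventually_zero hL0).fderiv_eq]
    simp
  have h4 : L ≤ |Real.log ‖mob z‖| := by
    by_contra hcon
    exact hz (dz_cb_inner hL0 h1 h2 (not_le.mp hcon))
  have := (z_mid h1 (region h2 (hL.trans h4))).2
  simpa using this

/-- There is a cut-off parameter for which the second variation is negative. -/
theorem exists_negative : ∃ L : ℝ, 0 < L ∧ En (nrm (cutF (chi L) Hh)) < 0 := by
  obtain ⟨M, hM0, hM⟩ := exists_bound_eta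
  obtain ⟨L, hL2, hLM⟩ : ∃ L : ℝ, 2 ≤ L ∧ 2 * 200 * (2 * (2 * π * M ^ 2 / L)) < 16 * π := by
    refine ⟨100 * M ^ 2 + 2, by nlinarith [sq_nonneg M], ?_⟩
    have hpos : 0 < 100 * M ^ 2 + 2 := by positivity
    rw [show 2 * 200 * (2 * (2 * π * M ^ 2 / (100 * M ^ 2 + 2)))
      = (1600 * π * M ^ 2) / (100 * M ^ 2 + 2) by ring, div_lt_iff₀ hpos]
    nlinarith [Real.pi_pos]
  have hL : 0 < L := by linarith
  refine ⟨L, hL, ?_⟩
  have hca := contDiff_ca hL
  have hcb := contDiff_cb hL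
  have hca1 : ContDiff ℝ 1 (ca L) := contDiff_infty.mp hca 1
  have hcb1 : ContDiff ℝ 1 (cb L) := contDiff_infty.mp hcb 1
  have hca2 : ContDiff ℝ 2 (ca L) := contDiff_infty.mp hca 2
  have hcb2 : ContDiff ℝ 2 (cb L) := contDiff_infty.mp hcb 2
  set sq : ℂ → ℂ := fun z => ca L z * ca L z with hsq
  have hsqC : ContDiff ℝ 1 sq := hca1.mul hca1
  have hsqs : HasCompactSupport sq := (ca_cs hL).mul_right
  have hsqd : Continuous (dzb sq) := (contDiff_dzb (hca2.mul hca2)).continuous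
  have hdsq : ∀ z, dzb sq z = 2 * (ca L z * dzb (ca L) z) := by
    intro z
    rw [hsq, dzb_mul (hca1.differentiable (by norm_num) z) (hca1.differentiable (by norm_num) z)]
    ring
  -- integrability of pieces
  have ip : ∀ p : ℂ, Integrable (fun z => (z - p)⁻¹ * dzb sq z) := by
    intro p
    have h1 := integrable_inv_sub_mul hsqd (hasCompactSupport_dzb hsqs) p
    have h2 := h1.neg
    refine h2.congr (Eventually.of_forall fun z => ?_)
    simp only [Pi.neg_apply]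
    rw [← neg_sub z p, inv_neg]; ring
  have hcp : ∀ p : ℂ, ∫ z, (z - p)⁻¹ * dzb sq z = - π * sq p := fun p =>
    cauchy_pompeiu hsqC hsqs p
  set Q : ℂ → ℂ := fun z => dzb sq z * (8 * (z⁻¹ - (z - 1)⁻¹ - (z + 1)⁻¹)) with hQ
  have eQ : ∀ z, Q z = 8 * ((z - 0)⁻¹ * dzb sq z) - 8 * ((z - 1)⁻¹ * dzb sq z)
      - 8 * ((z - (-1))⁻¹ * dzb sq z) := by
    intro z; simp only [hQ, sub_zero, sub_neg_eq_add]; ring
  have iQ : Integrable Q := by
    have h1 : Integrable (fun z => 8 * ((z - 0)⁻¹ * dzb sq z) - 8 * ((z - 1)⁻¹ * dzb sq z)) :=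
      ((ip 0).const_mul 8).sub ((ip 1).const_mul 8)
    have h2 := h1.sub ((ip (-1)).const_mul 8)
    refine h2.congr (Eventually.of_forall fun z => ?_)
    simp only [Pi.sub_apply]
    rw [eQ]
  have vQ : ∫ z, Q z = 16 * π := by
    simp only [eQ]
    have h1 : Integrable (fun z => 8 * ((z - 0)⁻¹ * dzb sq z) - 8 * ((z - 1)⁻¹ * dzb sq z)) :=
      ((ip 0).const_mul 8).sub ((ip 1).const_mul 8)
    rw [integral_sub h1 ((ip (-1)).const_mul 8), integral_sub ((ip 0).const_mul 8)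
      ((ip 1).const_mul 8), integral_const_mul, integral_const_mul, integral_const_mul, hcp, hcp, hcp]
    have s0 : sq 0 = 0 := by simp [hsq, ca_zero]
    have s1 : sq 1 = 1 := by
      simp only [hsq]
      rw [ca_one hL one_ne_zero (by simp [hL.le])]; ring
    have s2 : sq (-1) = 1 := by
      simp only [hsq]
      rw [ca_one hL (by norm_num) (by simp [hL.le])]; ring
    rw [s0, s1, s2]; ring
  set R : ℂ → ℝ := fun z => 2 * 200 * (‖dz (ca L) z‖ ^ 2 + ‖dz (cb L) z‖ ^ 2) - (Q z).re with hR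
  have hdca : Integrable (fun z => ‖dz (ca L) z‖ ^ 2) :=
    integrable_sq_cs (contDiff_dz hca2).continuous (hasCompactSupport_dz (ca_cs hL))
  have hdcb : Integrable (fun z => ‖dz (cb L) z‖ ^ 2) :=
    integrable_sq_cs (contDiff_dz hcb2).continuous (dz_cb_cs hL2)
  have iQr := iQ.re
  simp only [RCLike.re_eq_complex_re] at iQr
  have hRi : Integrable R := ((hdca.add hdcb).const_mul (2 * 200)).sub iQr
  have hRv : ∫ z, R z < 0 := by
    have h1 : Integrable (fun z => 2 * 200 * (‖dz (ca L) z‖ ^ 2 + ‖dz (cb L) z‖ ^ 2)) :=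
      (hdca.add hdcb).const_mul (2 * 200)
    rw [hR, integral_sub h1 iQr, integral_const_mul, integral_add hdca hdcb]
    have h2 : ∫ z, (Q z).re = (∫ z, Q z).re := integral_re iQ
    rw [h2, vQ]
    have h3 := energy_ca hM hL
    have h4 := energy_cb hM hL
    have h5 : ((16 * π : ℂ)).re = 16 * π := by
      have : (16 * π : ℂ) = ((16 * π : ℝ) : ℂ) := by push_cast; ring
      rw [this, Complex.ofReal_re]
    rw [h5]
    linarith
  refine lt_of_le_of_lt (En_cut_le (tst_chi hL) (chi_real L) (fun z hz => chi_iot L hz)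
    (fun j z hz => hasDerivAt_Hh j hz) (fun j z hz => diff_Hh' j hz)
    (fun j z hz => hre_Hh_iot j hz) hRi ?_) hRv
  intro z hz
  have hchi : dz (chi L) z = dz (ca L) z * cb L z + ca L z * dz (cb L) z :=
    dz_mul (hca1.differentiable (by norm_num) z) (hcb1.differentiable (by norm_num) z)
  have hchib : dzb (chi L) z = dzb (ca L) z * cb L z + ca L z * dzb (cb L) z :=
    dzb_mul (hca1.differentiable (by norm_num) z) (hcb1.differentiable (by norm_num) z)
  have hrb : conj (dz (cb L) z) = dzb (cb L) z :=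
    dz_real (cb_real L) (hcb1.differentiable (by norm_num) z)
  have hra : conj (dz (ca L) z) = dzb (ca L) z :=
    dz_real (ca_real L) (hca1.differentiable (by norm_num) z)
  have hdzcb : |Real.log ‖mob z‖| < L → dz (cb L) z = 0 := by
    intro h
    have h1 : dz (cb L) z = dz (ca L) (mob z) * (2 / (z + 1) ^ 2) :=
      dz_comp_holo (hasDerivAt_mob hz.2.2) (hca1.differentiable (by norm_num) _)
    rw [h1, dz_ca_inner hL (mob_mem hz).1 h, zero_mul]
  by_cases hA : dz (ca L) z = 0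
  · -- only `cb` varies
    refine ⟨0, ?_⟩
    have hQz : Q z = 0 := by
      have : dzb (ca L) z = 0 := by rw [← hra, hA, map_zero]
      simp only [hQ, hdsq, this]
      ring
    simp only [hR, hQz, hchi, hA, zero_mul, zero_add, mul_zero, Complex.zero_re, sub_zero, norm_zero]
    by_cases hB : dz (cb L) z = 0
    · rw [hB]; simp
    · have h1 : L ≤ |Real.log ‖mob z‖| := by
        by_contra hcon; exact hB (hdzcb (not_le.mp hcon))
      have h2 := Bf_b (z_mid hz.2.2 (region (mob_mem hz).1 (hL2.trans h1)))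
      have h3 : ‖ca L z‖ ≤ 1 := by
        rw [ca, if_neg hz.1, Complex.norm_real, eta,
          Real.norm_of_nonneg (Real.smoothTransition.nonneg _)]
        exact Real.smoothTransition.le_one _
      have h4 : ‖ca L z * dz (cb L) z‖ ^ 2 ≤ ‖dz (cb L) z‖ ^ 2 := by
        rw [norm_mul]
        have : ‖ca L z‖ * ‖dz (cb L) z‖ ≤ 1 * ‖dz (cb L) z‖ := by gcongr
        rw [one_mul] at this
        gcongr
      have h5 : 0 ≤ Bf (fun j => hre (Hh j) z) 0 z := Finset.sum_nonneg fun j _ => by positivity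
      have h6 : 0 ≤ ‖dz (cb L) z‖ ^ 2 := by positivity
      simp only [ne_eq, OfNat.ofNat_ne_zero, not_false_eq_true, zero_pow, zero_add]
      calc 2 * ‖ca L z * dz (cb L) z‖ ^ 2 * Bf (fun j => hre (Hh j) z) 0 z
          ≤ 2 * ‖dz (cb L) z‖ ^ 2 * 200 := by gcongr
        _ = 2 * 200 * ‖dz (cb L) z‖ ^ 2 := by ring
  · have h1 : L ≤ |Real.log ‖z‖| := by
      by_contra hcon; exact hA (dz_ca_inner hL hz.1 (not_le.mp hcon))
    have h2 := region hz.1 (hL2.trans h1)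
    have h3 := mob_mid hz.2.2 h2
    have h4 : |Real.log ‖mob z‖| < L := by linarith
    have h5 : cb L z = 1 := ca_one hL (mob_mem hz).1 h4.le
    have h6 : dz (cb L) z = 0 := hdzcb h4
    have h7 : dzb (cb L) z = 0 := by rw [← hrb, h6, map_zero]
    refine ⟨1 + z ^ 2, ?_⟩
    have h8 := Bf_a hz h2
    have h9 : chi L z * dzb (chi L) z * (1 + z ^ 2) * ((∑ j, Hh' j z * W j z) / 2)
        = Q z / 2 := by
      have e := hopf hz
      rw [hchib, chi, h5, h7]
      simp only [hQ, hdsq]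
      linear_combination (ca L z * dzb (ca L) z) * e
    rw [h9, hchi, h5, h6]
    simp only [hR, h6, mul_one, mul_zero, add_zero, norm_zero]
    have h10 : (Q z / 2).re = (Q z).re / 2 := by
      rw [show Q z / 2 = Q z / ((2:ℝ):ℂ) by push_cast; rfl, Complex.div_ofReal_re]
    rw [h10]
    have h11 : 2 * ‖dz (ca L) z‖ ^ 2 * Bf (fun j => hre (Hh j) z) (1 + z ^ 2) z
        ≤ 2 * ‖dz (ca L) z‖ ^ 2 * 200 := by gcongr
    norm_num
    linarith

end Pool.Agent.Lib.Helper82.Mob
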