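import Pool.Agent.Lib.Helper82.Mob.Defs
import Pool.Agent.Lib.Helper82.Mob.Lower5

/-!
# The surface `u = Re F` and its second variation
-/

set_option autoImplicit false

open MeasureTheory Complex Set Topology Filter
open scoped ContDiff Real ComplexConjugate RealInnerProductSpace

namespace Pool.Agent.Lib.Helper82.Mob

/-- The real part of a vector of complex numbers. -/
noncomputable def reV (c : Fin 4 → ℂ) : E4 := WithLp.toLp 2 fun k => (c k).re

/-- The parametrization. -/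
noncomputable def uu (z : ℂ) : E4 := reV fun k => F k z

@[simp] lemma reV_apply (c : Fin 4 → ℂ) (k : Fin 4) : reV c k = (c k).re := rfl

lemma inner_E4 (x y : E4) : ⟪x, y⟫ = ∑ k, x k * y k := by
  rw [PiLp.inner_apply]
  refine Finset.sum_congr rfl fun k _ => ?_
  simp [mul_comm]

lemma norm_sq_E4 (x : E4) : ‖x‖ ^ 2 = ∑ k, x k ^ 2 := by
  rw [← real_inner_self_eq_norm_sq, inner_E4]
  exact Finset.sum_congr rfl fun k _ => by ring

/-- The differential of a map `Re c(z)`. -/
noncomputable def reL (c : Fin 4 → ℂ) : ℂ →L[ℝ] E4 :=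
  ((EuclideanSpace.equiv (Fin 4) ℝ).symm : (Fin 4 → ℝ) →L[ℝ] E4).comp
    (ContinuousLinearMap.pi fun k => Complex.reCLM.comp
      ((ContinuousLinearMap.toSpanSingleton ℂ (c k)).restrictScalars ℝ))

lemma reL_apply (c : Fin 4 → ℂ) (v : ℂ) : reL c v = reV fun k => v * c k := by
  ext k
  simp [reL, reV]

lemma hasFDerivAt_reV {f f' : Fin 4 → ℂ → ℂ} {z : ℂ} (h : ∀ k, HasDerivAt (f k) (f' k z) z) :
    HasFDerivAt (fun w => reV fun k => f k w) (reL fun k => f' k z) z := by
  have h1 : HasFDerivAt (fun w => fun k => (f k w).re)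
      (ContinuousLinearMap.pi fun k => Complex.reCLM.comp
        ((ContinuousLinearMap.toSpanSingleton ℂ (f' k z)).restrictScalars ℝ)) z := by
    rw [hasFDerivAt_pi]
    intro k
    exact Complex.reCLM.hasFDerivAt.comp z ((h k).hasFDerivAt.restrictScalars ℝ)
  exact ((EuclideanSpace.equiv (Fin 4) ℝ).symm : (Fin 4 → ℝ) →L[ℝ] E4).hasFDerivAt.comp z h1

lemma fderiv_uu {z : ℂ} (hz : z ∈ Om) : fderiv ℝ uu z = reL fun k => W k z :=
  (hasFDerivAt_reV (f := F) (f' := W) fun k => hasDerivAt_F k hz).fderiv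

lemma pd_uu (i : Fin 2) {z : ℂ} (hz : z ∈ Om) : pd i uu z = reV fun k => dir i * W k z := by
  rw [pd, fderiv_uu hz, reL_apply]

lemma pd_pd_uu (i j : Fin 2) {z : ℂ} (hz : z ∈ Om) :
    pd i (pd j uu) z = reV fun k => dir i * (dir j * V k z) := by
  have h1 : pd j uu =ᶠ[𝓝 z] fun w => reV fun k => dir j * W k w := by
    filter_upwards [isOpen_Om.mem_nhds hz] with w hw using pd_uu j hw
  rw [pd, h1.fderiv_eq]
  have h2 : HasFDerivAt (fun w => reV fun k => dir j * W k w) (reL fun k => dir j * V k z) z :=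
    hasFDerivAt_reV (f := fun k w => dir j * W k w) (f' := fun k w => dir j * V k w)
      fun k => (hasDerivAt_W k hz).const_mul (dir j)
  rw [h2.fderiv, reL_apply]

lemma dir_zero : dir 0 = 1 := rfl
lemma dir_one : dir 1 = I := rfl

/-- Real and imaginary parts of the isotropy relation. -/
lemma iso_re {z : ℂ} (hz : z ∈ Om) : ∑ k, ((W k z).re ^ 2 - (W k z).im ^ 2) = 0 := by
  have h := congrArg Complex.re (W_sq hz)
  rw [Complex.re_sum, Complex.zero_re] at h
  rw [← h]
  exact Finset.sum_congr rfl fun k _ => by rw [Complex.mul_re]; ring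

lemma iso_im {z : ℂ} (hz : z ∈ Om) : ∑ k, (W k z).re * (W k z).im = 0 := by
  have h := congrArg Complex.im (W_sq hz)
  rw [Complex.im_sum, Complex.zero_im] at h
  have h2 : ∑ k, (W k z * W k z).im = 2 * ∑ k, (W k z).re * (W k z).im := by
    rw [Finset.mul_sum]
    exact Finset.sum_congr rfl fun k _ => by rw [Complex.mul_im]; ring
  rw [h2] at h
  linarith

lemma sum_re_sq {z : ℂ} (hz : z ∈ Om) : ∑ k, (W k z).re ^ 2 = (∑ k, ‖W k z‖ ^ 2) / 2 := by
  have h := iso_re hz
  have h1 : ∑ k, ‖W k z‖ ^ 2 = ∑ k, (W k z).re ^ 2 + ∑ k, (W k z).im ^ 2 := by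
    rw [← Finset.sum_add_distrib]
    refine Finset.sum_congr rfl fun k _ => ?_
    rw [← Complex.normSq_eq_norm_sq, Complex.normSq_apply]; ring
  rw [Finset.sum_sub_distrib] at h
  linarith

lemma sum_im_sq {z : ℂ} (hz : z ∈ Om) : ∑ k, (W k z).im ^ 2 = (∑ k, ‖W k z‖ ^ 2) / 2 := by
  have h := iso_re hz
  have h1 := sum_re_sq hz
  rw [Finset.sum_sub_distrib] at h
  linarith

lemma lam_uu {z : ℂ} (hz : z ∈ Om) : lam uu z = (∑ k, ‖W k z‖ ^ 2) / 2 := by
  rw [lam, pd_uu 0 hz, norm_sq_E4, ← sum_re_sq hz]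
  simp [dir_zero]

lemma norm_pd_one {z : ℂ} (hz : z ∈ Om) : ‖pd 1 uu z‖ ^ 2 = (∑ k, ‖W k z‖ ^ 2) / 2 := by
  rw [pd_uu 1 hz, norm_sq_E4, ← sum_im_sq hz]
  simp [dir_one]

lemma inner_pd {z : ℂ} (hz : z ∈ Om) : ⟪pd 0 uu z, pd 1 uu z⟫ = 0 := by
  rw [pd_uu 0 hz, pd_uu 1 hz, inner_E4]
  have h := iso_im hz
  simp only [reV_apply, dir_zero, dir_one, one_mul, Complex.I_mul_re]
  have : ∑ k, (W k z).re * -(W k z).im = -∑ k, (W k z).re * (W k z).im := by
    rw [← Finset.sum_neg_distrib]; exact Finset.sum_congr rfl fun k _ => by ring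
  rw [this, h, neg_zero]

lemma lam_pos {z : ℂ} (hz : z ∈ Om) : 0 < lam uu z := by
  rw [lam_uu hz]; have := N_pos hz; positivity

/-- Formula for the normal component. -/
lemma nor_eq {z : ℂ} (hz : z ∈ Om) (v : E4) :
    nor uu z v = v - ((⟪pd 0 uu z, v⟫ / lam uu z) • pd 0 uu z
      + (⟪pd 1 uu z, v⟫ / lam uu z) • pd 1 uu z) := by
  have hl := (lam_pos hz).ne'
  have h00 : ⟪pd 0 uu z, pd 0 uu z⟫ = lam uu z := by rw [real_inner_self_eq_norm_sq, lam]
  have h11 : ⟪pd 1 uu z, pd 1 uu z⟫ = lam uu z := by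
    rw [real_inner_self_eq_norm_sq, norm_pd_one hz, lam_uu hz]
  have h01 := inner_pd hz
  have h10 : ⟪pd 1 uu z, pd 0 uu z⟫ = 0 := by rw [real_inner_comm]; exact h01
  have key : (tangentPlane uu z).starProjection v = (⟪pd 0 uu z, v⟫ / lam uu z) • pd 0 uu z
      + (⟪pd 1 uu z, v⟫ / lam uu z) • pd 1 uu z := by
    apply Submodule.eq_starProjection_of_mem_of_inner_eq_zero
    · exact Submodule.add_mem _
        (Submodule.smul_mem _ _ (Submodule.subset_span (by simp)))
        (Submodule.smul_mem _ _ (Submodule.subset_span (by simp)))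
    · intro w hw
      rw [tangentPlane, Submodule.mem_span_pair] at hw
      obtain ⟨a, b, rfl⟩ := hw
      simp only [inner_sub_left, inner_add_left, inner_add_right, inner_smul_left,
        inner_smul_right, h00, h11, h01, h10, RCLike.conj_to_real, real_inner_comm v]
      field_simp
      ring
  rw [nor, Submodule.starProjection_orthogonal_val, key]

lemma norm_nor_sq {z : ℂ} (hz : z ∈ Om) (v : E4) :
    ‖nor uu z v‖ ^ 2 = ‖v‖ ^ 2 - (⟪pd 0 uu z, v⟫ ^ 2 + ⟪pd 1 uu z, v⟫ ^ 2) / lam uu z := by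
  have hl := (lam_pos hz).ne'
  have h00 : ⟪pd 0 uu z, pd 0 uu z⟫ = lam uu z := by rw [real_inner_self_eq_norm_sq, lam]
  have h11 : ⟪pd 1 uu z, pd 1 uu z⟫ = lam uu z := by
    rw [real_inner_self_eq_norm_sq, norm_pd_one hz, lam_uu hz]
  have h01 := inner_pd hz
  have h10 : ⟪pd 1 uu z, pd 0 uu z⟫ = 0 := by rw [real_inner_comm]; exact h01
  rw [nor_eq hz, ← real_inner_self_eq_norm_sq, ← real_inner_self_eq_norm_sq]
  simp only [inner_sub_left, inner_sub_right, inner_add_left, inner_add_right, inner_smul_left,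
    inner_smul_right, h00, h11, h01, h10, RCLike.conj_to_real]
  rw [real_inner_comm (pd 0 uu z) v, real_inner_comm (pd 1 uu z) v]
  field_simp
  ring

lemma inner_nor {z : ℂ} (hz : z ∈ Om) (v : E4) {x : E4} (hx : ∀ i, ⟪x, pd i uu z⟫ = 0) :
    ⟪nor uu z v, x⟫ = ⟪v, x⟫ := by
  have h0 : ⟪pd 0 uu z, x⟫ = 0 := by rw [real_inner_comm]; exact hx 0
  have h1 : ⟪pd 1 uu z, x⟫ = 0 := by rw [real_inner_comm]; exact hx 1
  rw [nor_eq hz]
  simp only [inner_sub_left, inner_add_left, inner_smul_left, h0, h1, mul_zero, add_zero, sub_zero]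

/-- The components of a real field, as complex valued functions. -/
noncomputable def cmp (X : ℂ → E4) (j : Fin 4) (z : ℂ) : ℂ := ((X z j : ℝ) : ℂ)

lemma hasFDerivAt_apply {X : ℂ → E4} {z : ℂ} (hX : DifferentiableAt ℝ X z) (j : Fin 4) :
    HasFDerivAt (fun w => X w j) ((EuclideanSpace.proj j : E4 →L[ℝ] ℝ).comp (fderiv ℝ X z)) z :=
  (EuclideanSpace.proj j : E4 →L[ℝ] ℝ).hasFDerivAt.comp z hX.hasFDerivAt

lemma fderiv_cmp {X : ℂ → E4} {z : ℂ} (hX : DifferentiableAt ℝ X z) (j : Fin 4) (v : ℂ) :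
    fderiv ℝ (cmp X j) z v = ((fderiv ℝ X z v j : ℝ) : ℂ) := by
  have h1 : HasFDerivAt (cmp X j) (Complex.ofRealCLM.comp
      ((EuclideanSpace.proj j : E4 →L[ℝ] ℝ).comp (fderiv ℝ X z))) z :=
    Complex.ofRealCLM.hasFDerivAt.comp z (hasFDerivAt_apply hX j)
  rw [h1.fderiv]
  simp

lemma norm_dz_cmp {X : ℂ → E4} {z : ℂ} (hX : DifferentiableAt ℝ X z) (j : Fin 4) :
    4 * ‖dz (cmp X j) z‖ ^ 2 = (pd 0 X z j) ^ 2 + (pd 1 X z j) ^ 2 := by
  rw [dz, fderiv_cmp hX, fderiv_cmp hX, ← Complex.normSq_eq_norm_sq, Complex.normSq_mul]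
  simp only [Complex.normSq_apply, pd, dir_zero, dir_one]
  simp
  ring

variable {X : ℂ → E4}

lemma tfield_of_normal (hX : X ∈ normalFields Om iot uu) : TField (cmp X) := by
  obtain ⟨h1, h2, h3, h4, h5⟩ := hX
  refine ⟨fun j => ⟨?_, ?_, ?_⟩, ?_, ?_, ?_⟩
  · have : ContDiff ℝ ∞ (cmp X j) :=
      Complex.ofRealCLM.contDiff.comp ((EuclideanSpace.proj j : E4 →L[ℝ] ℝ).contDiff.comp h1)
    exact contDiff_infty.mp this 2
  · exact h2.comp_left (g := fun x : E4 => ((x j : ℝ) : ℂ)) (by simp)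
  · have : tsupport (cmp X j) ⊆ tsupport X := by
      apply closure_mono
      intro z hz hz'
      exact hz (by simp [cmp, hz'])
    exact this.trans h3
  · intro j z; exact Complex.conj_ofReal _
  · intro z hz
    have a0 := h5 z hz 0
    have a1 := h5 z hz 1
    rw [pd_uu 0 hz, inner_E4] at a0
    rw [pd_uu 1 hz, inner_E4] at a1
    simp only [reV_apply, dir_zero, dir_one, one_mul, Complex.I_mul_re] at a0 a1
    apply Complex.ext
    · rw [Complex.re_sum, Complex.zero_re, ← a0]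
      exact Finset.sum_congr rfl fun k _ => by rw [cmp, Complex.re_ofReal_mul]
    · rw [Complex.im_sum, Complex.zero_im]
      have : ∑ k, (cmp X k z * W k z).im = - ∑ k, X z k * -(W k z).im := by
        rw [← Finset.sum_neg_distrib]
        exact Finset.sum_congr rfl fun k _ => by rw [cmp, Complex.im_ofReal_mul]; ring
      rw [this, a1, neg_zero]
  · intro j z hz
    rw [cmp, cmp, h4 z hz]

/-- The Weingarten relation. -/
lemma weingarten (hX : X ∈ normalFields Om iot uu) {z : ℂ} (hz : z ∈ Om) (i k : Fin 2) :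
    ⟪pd k uu z, pd i X z⟫ = - ⟪X z, pd i (pd k uu) z⟫ := by
  obtain ⟨h1, -, -, -, h5⟩ := hX
  have hXd : DifferentiableAt ℝ X z := h1.differentiable (by simp) z
  have h2 : pd k uu =ᶠ[𝓝 z] fun w => reV fun l => dir k * W l w := by
    filter_upwards [isOpen_Om.mem_nhds hz] with w hw using pd_uu k hw
  have h3 : DifferentiableAt ℝ (pd k uu) z := by
    have h4 : HasFDerivAt (fun w => reV fun l => dir k * W l w) (reL fun l => dir k * V l z) z :=
      hasFDerivAt_reV (f := fun l w => dir k * W l w) (f' := fun l w => dir k * V l w)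
        fun l => (hasDerivAt_W l hz).const_mul (dir k)
    exact h4.differentiableAt.congr_of_eventuallyEq h2
  have h4 : (fun w => ⟪X w, pd k uu w⟫) =ᶠ[𝓝 z] fun _ => 0 := by
    filter_upwards [isOpen_Om.mem_nhds hz] with w hw using h5 w hw k
  have h6 := fderiv_inner_apply ℝ hXd h3 (dir i)
  rw [h4.fderiv_eq] at h6
  simp only [fderiv_fun_const, Pi.zero_apply, _root_.zero_apply] at h6
  simp only [pd] at h6 ⊢
  rw [real_inner_comm (fderiv ℝ X z (dir i))]
  linarith

/-- Pointwise formula for the second variation density. -/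
lemma density_eq (hX : X ∈ normalFields Om iot uu) {z : ℂ} (hz : z ∈ Om) :
    secondVarDensity uu X z * lam uu z
      = 4 * (∑ j, ‖dz (cmp X j) z‖ ^ 2) - 8 * (‖psi (cmp X) z‖ ^ 2 / (∑ j, ‖W j z‖ ^ 2)) := by
  have hl := lam_pos hz
  have hN := N_pos hz
  have hXd : DifferentiableAt ℝ X z := hX.1.differentiable (by simp) z
  have hw := weingarten hX hz
  have hn := fun i => norm_nor_sq hz (pd i X z)
  -- the numbers `⟪X, u_ij⟫`
  have hpsi : psi (cmp X) z = ((∑ k, X z k * (V k z).re : ℝ) : ℂ) + ((∑ k, X z k * (V k z).im : ℝ) : ℂ) * I := by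
    apply Complex.ext
    · simp only [psi, Complex.re_sum, cmp, Complex.add_re, Complex.ofReal_re,
        Complex.mul_re, Complex.ofReal_im, Complex.I_re, Complex.I_im]
      ring_nf
    · simp only [psi, Complex.im_sum, cmp, Complex.add_im, Complex.ofReal_re,
        Complex.mul_im, Complex.ofReal_im, Complex.I_re, Complex.I_im]
      ring_nf
  set a := ∑ k, X z k * (V k z).re
  set b := ∑ k, X z k * (V k z).im
  have hpsi2 : ‖psi (cmp X) z‖ ^ 2 = a ^ 2 + b ^ 2 := by
    rw [hpsi, ← Complex.normSq_eq_norm_sq, Complex.normSq_add_mul_I]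
  have u00 : ⟪X z, pd 0 (pd 0 uu) z⟫ = a := by
    rw [pd_pd_uu 0 0 hz, inner_E4]
    simp only [reV_apply, dir_zero, one_mul]; rfl
  have u01 : ⟪X z, pd 0 (pd 1 uu) z⟫ = - b := by
    rw [pd_pd_uu 0 1 hz, inner_E4]
    simp only [reV_apply, dir_zero, dir_one, one_mul, Complex.I_mul_re]
    rw [← Finset.sum_neg_distrib]; exact Finset.sum_congr rfl fun k _ => by ring
  have u10 : ⟪X z, pd 1 (pd 0 uu) z⟫ = - b := by
    rw [pd_pd_uu 1 0 hz, inner_E4]
    simp only [reV_apply, dir_zero, dir_one, one_mul, Complex.I_mul_re]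
    rw [← Finset.sum_neg_distrib]; exact Finset.sum_congr rfl fun k _ => by ring
  have u11 : ⟪X z, pd 1 (pd 1 uu) z⟫ = - a := by
    rw [pd_pd_uu 1 1 hz, inner_E4]
    simp only [reV_apply, dir_one]
    rw [← Finset.sum_neg_distrib]
    refine Finset.sum_congr rfl fun k _ => ?_
    rw [← mul_assoc, I_mul_I]
    simp
  have hsff : ∀ i j, ⟪sff uu i j z, X z⟫ = (lam uu z)⁻¹ * ⟪X z, pd i (pd j uu) z⟫ := by
    intro i j
    rw [sff, inner_smul_left, inner_nor hz _ (hX.2.2.2.2 z hz), real_inner_comm]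
    simp
  have hgrad : ∑ i, ‖pd i X z‖ ^ 2 = 4 * ∑ j, ‖dz (cmp X j) z‖ ^ 2 := by
    rw [Fin.sum_univ_two, norm_sq_E4, norm_sq_E4, ← Finset.sum_add_distrib, Finset.mul_sum]
    exact Finset.sum_congr rfl fun j _ => (norm_dz_cmp hXd j).symm
  rw [secondVarDensity]
  simp only [hsff, Fin.sum_univ_two, hn, hw, u00, u01, u10, u11]
  rw [← hgrad, Fin.sum_univ_two, hpsi2, lam_uu hz]
  field_simp
  ring

lemma ae_mem_Om : ∀ᵐ z : ℂ, z ∈ Om := by
  have h1 : ({a | a ∉ Om} : Set ℂ) ⊆ ({0, 1, -1} : Set ℂ) := by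
    intro z hz
    simp only [Om, mem_ofPred_eq, not_and_or, not_not] at hz
    rcases hz with h | h | h
    · simp [h]
    · simp [sub_eq_zero.mp h]
    · simp [eq_neg_of_add_eq_zero_left h]
  rw [ae_iff]
  exact measure_mono_null h1 ((Set.toFinite _).measure_zero _)

lemma restrict_Om : (volume : Measure ℂ).restrict Om = volume := by
  rw [Measure.restrict_eq_self_of_ae_mem ae_mem_Om]

/-- The second variation of area. -/
theorem secondVar_eq (hX : X ∈ normalFields Om iot uu) : secondVar Om uu X = 2 * En (cmp X) := by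
  have hT := tfield_of_normal hX
  rw [secondVar, setIntegral_congr_fun isOpen_Om.measurableSet fun z hz => density_eq hX hz,
    restrict_Om]
  have i1 : ∀ j, Integrable (fun z => ‖dz (cmp X j) z‖ ^ 2) := fun j =>
    integrable_sq_cs (hT.tst j).dzCont (hasCompactSupport_dz (hT.tst j).cs)
  have i1s : Integrable (fun z => 4 * ∑ j, ‖dz (cmp X j) z‖ ^ 2) :=
    (integrable_finsetSum _ fun j _ => i1 j).const_mul 4
  have iC : Integrable (fun z => ‖psi (cmp X) z‖ ^ 2 / (∑ j, ‖W j z‖ ^ 2)) := by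
    have hG : ∀ j, Tst (fun z => gg (cmp X) z * W j z) := fun j =>
      (tst_gg hT.tst).mul (contDiffOn_W j)
    have i : Integrable (fun z => ∑ j, ‖gg (cmp X) z * W j z‖ ^ 2) :=
      integrable_finsetSum _ fun j _ => integrable_sq_cs (hG j).smooth.continuous (hG j).cs
    refine i.congr (Eventually.of_forall fun z => ?_)
    simp only [norm_mul, mul_pow]
    rw [← Finset.mul_sum]
    by_cases hz : z ∈ Om
    · have hN := N_pos hz
      rw [gg_eq hT, norm_div, NN_eq, Complex.norm_real, Real.norm_of_nonneg hN.le, div_pow,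
        RCLike.norm_conj]
      field_simp
    · rw [(tst_gg hT.tst).eq_zero hz, psi]
      simp [(hT.tst _).eq_zero hz]
  rw [integral_sub i1s (iC.const_mul 8), integral_const_mul, integral_const_mul,
    integral_finsetSum _ fun j _ => i1 j, En]
  ring

end Pool.Agent.Lib.Helper82.Mob
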