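import Pool.Agent.Lib.Helper82.Mob.Glue

/-!
# The index of the surface is one
-/

set_option autoImplicit false

open MeasureTheory Complex Set Topology Filter
open scoped ContDiff Real ComplexConjugate RealInnerProductSpace

namespace Pool.Agent.Lib.Helper82.Mob

section smooth

lemma smoothOn_hol {f : ℂ → ℂ} (h : ∀ z ∈ Om, DifferentiableAt ℂ f z) : ContDiffOn ℝ ∞ f Om := by
  have h1 : DifferentiableOn ℂ f Om := fun z hz => (h z hz).differentiableWithinAt
  have h2 : ContDiffOn ℂ ∞ f Om := h1.contDiffOn isOpen_Om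
  exact h2.restrict_scalars ℝ

lemma smoothOn_conj {f : ℂ → ℂ} (h : ContDiffOn ℝ ∞ f Om) :
    ContDiffOn ℝ ∞ (fun z => conj (f z)) Om :=
  (Complex.conjCLE : ℂ →L[ℝ] ℂ).contDiff.comp_contDiffOn h

lemma smoothOn_W (j : Fin 4) : ContDiffOn ℝ ∞ (W j) Om :=
  smoothOn_hol fun _ hz => (hasDerivAt_W j hz).differentiableAt

lemma smoothOn_NN : ContDiffOn ℝ ∞ NN Om := by
  unfold NN
  exact ContDiffOn.sum fun j _ => (smoothOn_W j).mul (smoothOn_conj (smoothOn_W j))

lemma smoothOn_tc {Y : Fin 4 → ℂ → ℂ} (hY : ∀ j, ContDiffOn ℝ ∞ (Y j) Om) :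
    ContDiffOn ℝ ∞ (tc Y) Om := by
  unfold tc
  have h : ContDiffOn ℝ ∞ (fun z => (NN z)⁻¹) Om := smoothOn_NN.inv fun z hz => NN_ne hz
  refine ContDiffOn.sum fun j _ => (hY j).mul ?_
  simp only [div_eq_mul_inv]
  exact (contDiffOn_const.mul (smoothOn_conj (smoothOn_W j))).mul h

lemma smoothOn_nrm {Y : Fin 4 → ℂ → ℂ} (hY : ∀ j, ContDiffOn ℝ ∞ (Y j) Om) (j : Fin 4) :
    ContDiffOn ℝ ∞ (nrm Y j) Om := by
  unfold nrm
  have h1 : ContDiffOn ℝ ∞ (fun z => tc Y z * (W j z / 2)) Om :=
    (smoothOn_tc hY).mul ((smoothOn_W j).div_const 2)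
  exact (hY j).sub (h1.add (smoothOn_conj h1))

lemma smoothOn_cutF {L : ℝ} (hL : 0 < L) (j : Fin 4) : ContDiffOn ℝ ∞ (cutF (chi L) Hh j) Om := by
  have h1 : ContDiff ℝ ∞ (chi L) := (contDiff_ca hL).mul (contDiff_cb hL)
  have h2 : ContDiffOn ℝ ∞ (Hh j) Om :=
    smoothOn_hol fun z hz => (hasDerivAt_Hh j hz).differentiableAt
  exact h1.contDiffOn.mul ((h2.add (smoothOn_conj h2)).mul contDiffOn_const)

lemma smooth_of_support {E : Type*} [NormedAddCommGroup E] [NormedSpace ℝ E] {f : ℂ → E}
    (hs : tsupport f ⊆ Om) (hf : ContDiffOn ℝ ∞ f Om) : ContDiff ℝ ∞ f := by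
  rw [contDiff_iff_contDiffAt]
  intro z
  by_cases hz : z ∈ tsupport f
  · exact hf.contDiffAt (isOpen_Om.mem_nhds (hs hz))
  · have h1 : f =ᶠ[𝓝 z] fun _ => 0 := notMem_tsupport_iff_eventuallyEq.mp hz
    exact contDiffAt_const.congr_of_eventuallyEq h1

end smooth

/-- The destabilizing normal field. -/
noncomputable def X0 (L : ℝ) (z : ℂ) : E4 := reV fun j => nrm (cutF (chi L) Hh) j z

variable {L : ℝ}

lemma cmp_X0 (L : ℝ) : cmp (X0 L) = nrm (cutF (chi L) Hh) := by
  funext j z
  have h := nrm_real (Y := cutF (chi L) Hh) (fun j z => cutF_real (chi_real L) j z) j z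
  have hi := Complex.conj_eq_iff_im.mp h
  apply Complex.ext
  · simp [cmp, X0]
  · simp [cmp, hi]

lemma X0_support (L : ℝ) : tsupport (X0 L) ⊆ tsupport (chi L) := by
  apply closure_mono
  intro z hz hz'
  apply hz
  have h1 : ∀ j, cutF (chi L) Hh j z = 0 := by intro j; rw [cutF, hz', zero_mul]
  have h2 : tc (cutF (chi L) Hh) z = 0 := by rw [tc]; simp [h1]
  ext j
  simp [X0, nrm, h1, h2]

lemma X0_mem (hL : 0 < L) : X0 L ∈ normalFields Om iot uu := by
  have hchi := tst_chi hL
  have hY := tst_cutF (H := Hh) hchi (fun j z hz => hasDerivAt_Hh j hz)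
  have hYr := fun j z => cutF_real (H := Hh) (chi_real L) j z
  have hYi : ∀ j, ∀ z ∈ Om, cutF (chi L) Hh j (iot z) = cutF (chi L) Hh j z := by
    intro j z hz; rw [cutF, cutF, chi_iot L hz, hre_Hh_iot j hz]
  have hsupp : tsupport (X0 L) ⊆ Om := (X0_support L).trans hchi.supp
  refine ⟨?_, ?_, hsupp, ?_, ?_⟩
  · apply smooth_of_support hsupp
    have h1 : ContDiffOn ℝ ∞ (fun z => fun j => (nrm (cutF (chi L) Hh) j z).re) Om := by
      rw [contDiffOn_pi]
      intro j
      exact Complex.reCLM.contDiff.comp_contDiffOn (smoothOn_nrm (fun j => smoothOn_cutF hL j) j)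
    exact ((EuclideanSpace.equiv (Fin 4) ℝ).symm : (Fin 4 → ℝ) →L[ℝ] E4).contDiff.comp_contDiffOn h1
  · exact hchi.cs.of_isClosed_subset (isClosed_tsupport _) (X0_support L)
  · intro z hz
    ext j
    simp only [X0, reV_apply]
    rw [nrm_inv hYi hYr j hz]
  · intro z hz i
    have h := nrm_normal hYr hz
    have hr : ∀ j, nrm (cutF (chi L) Hh) j z = (((nrm (cutF (chi L) Hh) j z).re : ℝ) : ℂ) := by
      intro j
      have hi := Complex.conj_eq_iff_im.mp (nrm_real hYr j z)
      apply Complex.ext <;> simp [hi]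
    have h2 : ∑ j, (((nrm (cutF (chi L) Hh) j z).re : ℝ) : ℂ) * (dir i * W j z) = 0 := by
      have : ∑ j, (((nrm (cutF (chi L) Hh) j z).re : ℝ) : ℂ) * (dir i * W j z)
          = dir i * ∑ j, nrm (cutF (chi L) Hh) j z * W j z := by
        rw [Finset.mul_sum]
        refine Finset.sum_congr rfl fun j _ => ?_
        rw [← hr j]; ring
      rw [this, h, mul_zero]
    rw [pd_uu i hz, inner_E4]
    have h3 := congrArg Complex.re h2
    rw [Complex.re_sum, Complex.zero_re] at h3
    rw [← h3]
    refine Finset.sum_congr rfl fun j _ => ?_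
    rw [Complex.re_ofReal_mul]
    rfl

section linear

lemma cmp_add (X Y : ℂ → E4) (j : Fin 4) (z : ℂ) : cmp (X + Y) j z = cmp X j z + cmp Y j z := by
  simp [cmp]

lemma cmp_smul (c : ℝ) (X : ℂ → E4) (j : Fin 4) (z : ℂ) : cmp (c • X) j z = c * cmp X j z := by
  simp [cmp]

lemma gg_add (X Y : ℂ → E4) (z : ℂ) : gg (cmp (X + Y)) z = gg (cmp X) z + gg (cmp Y) z := by
  simp only [gg, cmp_add, add_mul, Finset.sum_add_distrib]

lemma gg_smul (c : ℝ) (X : ℂ → E4) (z : ℂ) : gg (cmp (c • X)) z = c * gg (cmp X) z := by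
  simp only [gg, cmp_smul, Finset.mul_sum, mul_assoc]

lemma mom_add {X Y : ℂ → E4} (hX : X ∈ normalFields Om iot uu) (hY : Y ∈ normalFields Om iot uu)
    (k : ℕ) : mom (cmp (X + Y)) k = mom (cmp X) k + mom (cmp Y) k := by
  have h1 := (tst_mom (tfield_of_normal hX).tst k).integrable
  have h2 := (tst_mom (tfield_of_normal hY).tst k).integrable
  rw [mom, mom, mom, ← integral_add h1 h2]
  congr 1
  funext z
  rw [gg_add]; ring

lemma mom_smul (c : ℝ) (X : ℂ → E4) (k : ℕ) : mom (cmp (c • X)) k = c * mom (cmp X) k := by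
  rw [mom, mom, ← integral_const_mul]
  congr 1
  funext z
  rw [gg_smul]; ring

end linear

/-- The negative direction is detected by one linear functional. -/
theorem secondVar_nonneg {X : ℂ → E4} (hX : X ∈ normalFields Om iot uu)
    (h : (mom (cmp X) 1).re = 0) : 0 ≤ secondVar Om uu X := by
  have h1 := En_ge' (tfield_of_normal hX)
  rw [h] at h1
  rw [secondVar_eq hX]
  have h2 : 0 ≤ (8 / π) * (((mom (cmp X) 0).re - 3 * (mom (cmp X) 2).re) ^ 2
      + (mom (cmp X) 0).im ^ 2 + 4 * (mom (cmp X) 1).im ^ 2 - 8 * 0 ^ 2) := by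
    have := Real.pi_pos
    have h3 : 0 ≤ ((mom (cmp X) 0).re - 3 * (mom (cmp X) 2).re) ^ 2
      + (mom (cmp X) 0).im ^ 2 + 4 * (mom (cmp X) 1).im ^ 2 - 8 * 0 ^ 2 := by
      have a := sq_nonneg ((mom (cmp X) 0).re - 3 * (mom (cmp X) 2).re)
      have b := sq_nonneg (mom (cmp X) 0).im
      have c := sq_nonneg (mom (cmp X) 1).im
      linarith
    positivity
  linarith

/-- The index of the surface is one. -/
theorem hasIndex_one : HasIndex Om iot uu 1 := by
  constructor
  · obtain ⟨L, hL, hneg⟩ := exists_negative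
    have hX0 := X0_mem hL
    have hsv : secondVar Om uu (X0 L) < 0 := by
      rw [secondVar_eq hX0, cmp_X0]; linarith
    have hne : X0 L ≠ 0 := by
      intro h
      rw [secondVar_eq hX0, cmp_X0] at hsv
      have h2 : nrm (cutF (chi L) Hh) = 0 := by
        rw [← cmp_X0, h]; funext j z; simp [cmp]
      rw [h2] at hneg
      have : En (0 : Fin 4 → ℂ → ℂ) = 0 := by
        rw [En]
        have e0 : dz (0 : ℂ → ℂ) = fun _ => 0 := by
          funext z
          simp [dz]
        have e1 : ∀ j : Fin 4, dz ((0 : Fin 4 → ℂ → ℂ) j) = fun _ => 0 := by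
          intro j
          exact e0
        simp only [psi, Pi.zero_apply]
        simp [e0]
      linarith
    refine ⟨Submodule.span ℝ {X0 L}, ?_, inferInstance, finrank_span_singleton hne, ?_⟩
    · intro X hX
      obtain ⟨c, rfl⟩ := Submodule.mem_span_singleton.mp hX
      obtain ⟨h1, h2, h3, h4, h5⟩ := hX0
      have hsub : tsupport (c • X0 L) ⊆ tsupport (X0 L) := by
        apply closure_mono
        intro z hz hz'
        exact hz (by simp [hz'])
      refine ⟨contDiff_const.smul h1, h2.of_isClosed_subset (isClosed_tsupport _) hsub,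
        hsub.trans h3, fun z hz => ?_, fun z hz i => ?_⟩
      · simp only [Pi.smul_apply, h4 z hz]
      · simp only [Pi.smul_apply, inner_smul_left, h5 z hz i, mul_zero]
    · intro X hX hXne
      obtain ⟨c, rfl⟩ := Submodule.mem_span_singleton.mp hX
      have hc : c ≠ 0 := by rintro rfl; exact hXne (zero_smul _ _)
      have e : secondVar Om uu (c • X0 L) = c ^ 2 * secondVar Om uu (X0 L) := by
        have hd : ∀ z, ∀ i, pd i (c • X0 L) z = c • pd i (X0 L) z := by
          intro z i
          have : DifferentiableAt ℝ (X0 L) z := hX0.1.differentiable (by simp) z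
          rw [pd, pd, fderiv_const_smul this]; rfl
        have hden : ∀ z, secondVarDensity uu (c • X0 L) z = c ^ 2 * secondVarDensity uu (X0 L) z := by
          intro z
          simp only [secondVarDensity, hd, nor, map_smul, norm_smul, Pi.smul_apply,
            inner_smul_right, mul_pow, Real.norm_eq_abs, sq_abs, Fin.sum_univ_two]
          ring
        rw [secondVar, secondVar]
        simp only [hden, mul_assoc]
        rw [integral_const_mul]
        ring
      rw [e]
      have : 0 < c ^ 2 := by positivity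
      exact mul_neg_of_pos_of_neg this hsv
  · rintro k ⟨V, hVn, hVf, rfl, hneg⟩
    by_contra hcon
    rw [not_le] at hcon
    let ell : V →ₗ[ℝ] ℝ :=
      { toFun := fun X => (mom (cmp X.1) 1).re
        map_add' := fun X Y => by
          have := mom_add (hVn X.2) (hVn Y.2) 1
          simp only [Submodule.coe_add, this, Complex.add_re]
        map_smul' := fun c X => by
          have := mom_smul c X.1 1
          simp only [Submodule.coe_smul, this, Complex.re_ofReal_mul, RingHom.id_apply, smul_eq_mul] }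
    have hker : LinearMap.ker ell ≠ ⊥ := by
      apply LinearMap.ker_ne_bot_of_finrank_lt
      rw [Module.finrank_self]
      exact hcon
    obtain ⟨X, hX, hXne⟩ := (Submodule.ne_bot_iff _).mp hker
    have h1 : (mom (cmp X.1) 1).re = 0 := hX
    have h2 := secondVar_nonneg (hVn X.2) h1
    have h3 := hneg X.1 X.2 (fun h => hXne (Subtype.ext h))
    linarith

end Pool.Agent.Lib.Helper82.Mob
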