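import Pool.Agent.Lib.Helper82.Mob.Core2

/-!
# The kernel formula for `∑ W_j ∂ R_j`
-/

set_option autoImplicit false

open MeasureTheory Complex Set Topology Filter
open scoped ContDiff Real

namespace Pool.Agent.Lib.Helper82.Mob

lemma integrable_inv_sub_mul {h : ℂ → ℂ} (hc : Continuous h) (hs : HasCompactSupport h) (ζ : ℂ) :
    Integrable (fun w => (ζ - w)⁻¹ * h w) := by
  have h1 := integrable_inv_mul (g := fun t => h (ζ - t)) (hc.comp (by fun_prop))
    (hs.comp_homeomorph (Homeomorph.subLeft ζ))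
  have h2 := h1.comp_sub_left ζ
  simpa using h2

lemma hasCompactSupport_mul_left' {f g : ℂ → ℂ} (hs : HasCompactSupport g) :
    HasCompactSupport (fun z => f z * g z) := hs.mul_left

/-- If the density `k` vanishes to second order at `z`, then `∂` of its Cauchy transform at `z`
is an absolutely convergent integral. -/
lemma dz_cT_of_sq {k h : ℂ → ℂ} (hk : ContDiff ℝ 2 k) (hks : HasCompactSupport k)
    (hh : ContDiff ℝ 2 h) (hs : HasCompactSupport h) (z : ℂ)
    (hkh : ∀ w, k w = (z - w) ^ 2 * h w) :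
    dz (cT k) z = - (π : ℂ)⁻¹ * ∫ w, h w := by
  have hc := hh.continuous
  have hint : Integrable h := hc.integrable_of_hasCompactSupport hs
  have hint1 : Integrable (fun w => w * h w) :=
    (continuous_id.mul hc).integrable_of_hasCompactSupport hs.mul_left
  have form : ∀ ζ, cauchyT k ζ = (z - ζ) ^ 2 * cauchyT h ζ
      + (2 * (z - ζ) * (∫ w, h w) + (ζ * (∫ w, h w) - ∫ w, w * h w)) := by
    intro ζ
    have j1 : Integrable (fun w => ζ * h w - w * h w) := (hint.const_mul ζ).sub hint1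
    have j3 : Integrable (fun w => 2 * (z - ζ) * h w + (ζ * h w - w * h w)) :=
      (hint.const_mul (2 * (z - ζ))).add j1
    rw [cauchyT_eq', cauchyT_eq', ← integral_const_mul, ← integral_const_mul, ← integral_const_mul,
      ← integral_sub (hint.const_mul ζ) hint1, ← integral_add (hint.const_mul (2 * (z - ζ))) j1,
      ← integral_add ((integrable_inv_sub_mul hc hs ζ).const_mul ((z - ζ) ^ 2)) j3]
    apply integral_congr_ae
    have : ∀ᵐ w : ℂ, w ≠ ζ := by
      rw [ae_iff]
      simp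
    filter_upwards [this] with w hw
    rw [hkh]
    have hne : ζ - w ≠ 0 := sub_ne_zero.mpr hw.symm
    field_simp
    ring
  have hd : DifferentiableAt ℝ (cauchyT k) z := (contDiff_cauchyT hk hks).differentiable (by norm_num) z
  have hd2 : DifferentiableAt ℝ (cauchyT h) z := (contDiff_cauchyT hh hs).differentiable (by norm_num) z
  have e1 : cauchyT k = fun ζ => (z - ζ) ^ 2 * cauchyT h ζ
      + (2 * (z - ζ) * (∫ w, h w) + (ζ * (∫ w, h w) - ∫ w, w * h w)) := funext form
  have hD : HasFDerivAt (cauchyT k) ((- ∫ w, h w) • (ContinuousLinearMap.id ℝ ℂ)) z := by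
    rw [e1]
    have a1 : HasFDerivAt (fun ζ : ℂ => (z - ζ)) (-(ContinuousLinearMap.id ℝ ℂ)) z :=
      (hasFDerivAt_id z).const_sub z
    have a2 : HasFDerivAt (fun ζ : ℂ => (z - ζ) ^ 2 * cauchyT h ζ) (0 : ℂ →L[ℝ] ℂ) z := by
      have := (a1.pow 2).mul hd2.hasFDerivAt
      refine this.congr_fderiv ?_
      ext v
      simp
    have a3 : HasFDerivAt (fun ζ : ℂ => 2 * (z - ζ) * (∫ w, h w) + (ζ * (∫ w, h w) - ∫ w, w * h w))
        ((- ∫ w, h w) • (ContinuousLinearMap.id ℝ ℂ)) z := by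
      have b1 := (a1.const_mul (2:ℂ)).mul_const (∫ w, h w)
      have b2 := ((hasFDerivAt_id (𝕜 := ℝ) z).mul_const (∫ w, h w)).sub_const (∫ w, w * h w)
      refine (b1.add b2).congr_fderiv ?_
      apply ContinuousLinearMap.ext
      intro v
      simp
      ring
    have := a2.add a3
    rw [zero_add] at this
    exact this
  rw [dz_cT hk hks, dz, hD.fderiv]
  simp only [_root_.smul_apply, ContinuousLinearMap.id_apply, smul_eq_mul]
  linear_combination (1/2 * (π:ℂ)⁻¹ * (∫ w, h w)) * I_mul_I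

lemma cT_sum {ι : Type*} (s : Finset ι) {f : ι → ℂ → ℂ} (hf : ∀ i ∈ s, Continuous (f i))
    (hs : ∀ i ∈ s, HasCompactSupport (f i)) :
    cT (fun w => ∑ i ∈ s, f i w) = fun z => ∑ i ∈ s, cT (f i) z := by
  funext z
  simp only [cT, cauchyT_eq']
  rw [← Finset.mul_sum]
  congr 1
  rw [← integral_finsetSum]
  · congr 1; funext w; rw [Finset.mul_sum]
  · intro i hi
    exact integrable_inv_sub_mul (hf i hi) (hs i hi) z

lemma cT_const_mul (c : ℂ) (f : ℂ → ℂ) : cT (fun w => c * f w) = fun z => c * cT f z := by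
  funext z
  simp only [cT, cauchyT_eq']
  have : ∀ w, (z - w)⁻¹ * (c * f w) = c * ((z - w)⁻¹ * f w) := fun w => by ring
  simp only [this]
  rw [integral_const_mul]
  ring

lemma dz_sum {ι : Type*} (s : Finset ι) {f : ι → ℂ → ℂ} {z : ℂ}
    (hf : ∀ i ∈ s, DifferentiableAt ℝ (f i) z) :
    dz (fun w => ∑ i ∈ s, f i w) z = ∑ i ∈ s, dz (f i) z := by
  have h : HasFDerivAt (fun w => ∑ i ∈ s, f i w) (∑ i ∈ s, fderiv ℝ (f i) z) z :=
    HasFDerivAt.fun_sum fun i hi => (hf i hi).hasFDerivAt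
  rw [dz, h.fderiv]
  simp only [_root_.sum_apply, dz]
  rw [← Finset.mul_sum, Finset.sum_sub_distrib, Finset.mul_sum]

/-- The kernel formula. -/
theorem kernel_formula {ι : Type*} (s : Finset ι) {G : ι → ℂ → ℂ} (hG : ∀ i ∈ s, ContDiff ℝ 2 (G i))
    (hGs : ∀ i ∈ s, HasCompactSupport (G i)) (c : ι → ℂ) {h : ℂ → ℂ}
    (hh : ContDiff ℝ 2 h) (hs : HasCompactSupport h) (z : ℂ)
    (hkh : ∀ w, ∑ i ∈ s, c i * G i w = (z - w) ^ 2 * h w) :
    ∑ i ∈ s, c i * dz (cT (G i)) z = - (π : ℂ)⁻¹ * ∫ w, h w := by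
  have hk : ContDiff ℝ 2 (fun w => ∑ i ∈ s, c i * G i w) :=
    ContDiff.sum fun i hi => contDiff_const.mul (hG i hi)
  have e0 : (fun w => ∑ i ∈ s, c i * G i w) = fun w => (z - w) ^ 2 * h w := funext hkh
  have hks : HasCompactSupport (fun w => ∑ i ∈ s, c i * G i w) := by
    rw [e0]; exact hs.mul_left
  rw [← dz_cT_of_sq hk hks hh hs z hkh]
  rw [cT_sum s (f := fun i w => c i * G i w)
    (fun i hi => continuous_const.mul (hG i hi).continuous) (fun i hi => (hGs i hi).mul_left)]
  have e2 : ∀ i ∈ s, DifferentiableAt ℝ (fun z => cT (fun w => c i * G i w) z) z := by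
    intro i hi
    exact (contDiff_cT (contDiff_const.mul (hG i hi)) (hGs i hi).mul_left).differentiable
      (by norm_num) z
  rw [dz_sum s e2]
  apply Finset.sum_congr rfl
  intro i hi
  rw [cT_const_mul, dz_const_mul]
  exact (contDiff_cT (hG i hi) (hGs i hi)).differentiable (by norm_num) z

end Pool.Agent.Lib.Helper82.Mob
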