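import Pool.Agent.Lib.Helper82.Mob.Proper

/-!
# The surface contains a line, and `FS_{2,1}` does not
-/

set_option autoImplicit false

open MeasureTheory Complex Set Topology Filter
open scoped ContDiff Real ComplexConjugate RealInnerProductSpace

namespace Pool.Agent.Lib.Helper82.Mob

/-- The last coordinate vector. -/
noncomputable def e3 : E4 := EuclideanSpace.single 3 1

/-- The surface contains the line spanned by `e3`. -/
theorem line_mem (t : ℝ) : t • e3 ∈ uu '' Om := by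
  obtain ⟨s, hs, hs2⟩ : ∃ s : ℝ, 0 < s ∧ s ^ 2 = t ^ 2 + 4 :=
    ⟨Real.sqrt (t ^ 2 + 4), Real.sqrt_pos.mpr (by positivity), Real.sq_sqrt (by positivity)⟩
  obtain ⟨c, d, hd, hcd, ht⟩ : ∃ c d : ℝ, 0 < d ∧ c ^ 2 + d ^ 2 = 1 ∧ t * d = -2 * c := by
    refine ⟨-t / s, 2 / s, by positivity, ?_, ?_⟩
    · field_simp; rw [hs2]; ring
    · field_simp
  have hc1 : c < 1 := by nlinarith
  have hc2 : -1 < c := by nlinarith
  have hn : normSq (⟨c, d⟩ : ℂ) = 1 := by rw [normSq_mk]; linarith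
  have hn1 : normSq ((⟨c, d⟩ : ℂ) - 1) = 2 - 2 * c := by
    rw [normSq_apply]; simp; nlinarith
  have hn2 : normSq ((⟨c, d⟩ : ℂ) + 1) = 2 + 2 * c := by
    rw [normSq_apply]; simp; nlinarith
  have hz : (⟨c, d⟩ : ℂ) ∈ Om := by
    refine ⟨?_, ?_, ?_⟩
    · rw [← normSq_pos, hn]; exact one_pos
    · rw [← normSq_pos, hn1]; linarith
    · rw [← normSq_pos, hn2]; linarith
  have i0r : ((⟨c, d⟩ : ℂ)⁻¹).re = c := by rw [Complex.inv_re, hn]; simp
  have i0i : ((⟨c, d⟩ : ℂ)⁻¹).im = -d := by rw [Complex.inv_im, hn]; simp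
  have i1r : (((⟨c, d⟩ : ℂ) - 1)⁻¹).re = -1 / 2 := by
    rw [Complex.inv_re, hn1]; simp
    rw [div_eq_div_iff (by linarith) (by norm_num)]; ring
  have i1i : (((⟨c, d⟩ : ℂ) - 1)⁻¹).im = -d / (2 - 2 * c) := by rw [Complex.inv_im, hn1]; simp
  have i2r : (((⟨c, d⟩ : ℂ) + 1)⁻¹).re = 1 / 2 := by
    rw [Complex.inv_re, hn2]; simp
    rw [div_eq_iff (by linarith)]; ring
  have i2i : (((⟨c, d⟩ : ℂ) + 1)⁻¹).im = -d / (2 + 2 * c) := by rw [Complex.inv_im, hn2]; simp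
  refine ⟨⟨c, d⟩, hz, ?_⟩
  ext j
  fin_cases j
  · change uu ⟨c, d⟩ 0 = (t • e3) 0
    rw [uu_zero]
    simp only [Complex.sub_re, Complex.add_re, i0r, i1r, i2r]
    simp [e3]
    norm_num
  · change uu ⟨c, d⟩ 1 = (t • e3) 1
    rw [uu_one]
    simp only [Complex.add_im, i0i]
    simp [e3]
  · change uu ⟨c, d⟩ 2 = (t • e3) 2
    rw [uu_two]
    simp only [Complex.add_re, i1r, i2r]
    simp [e3]
    norm_num
  · change uu ⟨c, d⟩ 3 = (t • e3) 3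
    rw [uu_three]
    simp only [Complex.add_im, Complex.sub_im, i1i, i2i]
    have h1 : (2 - 2 * c) ≠ 0 := by linarith
    have h2 : (2 + 2 * c) ≠ 0 := by linarith
    have h3 : -d / (2 - 2 * c) - -d / (2 + 2 * c) = t / 2 := by
      rw [div_sub_div _ _ h1 h2, div_eq_div_iff (mul_ne_zero h1 h2) two_ne_zero]
      have : d * (-4 * c) = t * (1 - c ^ 2) * 2 := by
        have h4 : 1 - c ^ 2 = d ^ 2 := by linarith
        rw [h4]
        linear_combination (-2 * d) * ht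
      linear_combination 2 * this
    simp [e3]
    linarith

/-- The equation satisfied by the points of `FS_{2,1}`. -/
lemma fs_eq {T : ℝ} : ∃ r : ℝ, 0 < r ∧ ∀ p ∈ fsSurface 2 1 T,
    r * (p 2 ^ 2 + p 3 ^ 2) = (1 + r * (p 0 ^ 2 + p 1 ^ 2) / 2) ^ 2 := by
  set ρ := ((2:ℕ) : ℝ) ^ 2 * Real.sinh ((1:ℕ) * T) ^ 2
    + ((1:ℕ) : ℝ) ^ 2 * Real.cosh ((2:ℕ) * T) ^ 2 with hρ
  have hρ0 : 0 < ρ := by
    have := Real.cosh_pos ((2:ℕ) * T)
    positivity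
  refine ⟨ρ, hρ0, ?_⟩
  rintro p ⟨t, θ, rfl⟩
  have hs : Real.sqrt ρ ^ 2 = ρ := Real.sq_sqrt hρ0.le
  have hsp : 0 < Real.sqrt ρ := Real.sqrt_pos.mpr hρ0
  have h0 : fsMap 2 1 T t θ 0 = (Real.sqrt ρ)⁻¹ * (2 * Real.sinh t * Real.cos θ) := by
    simp [fsMap, hρ]
  have h1 : fsMap 2 1 T t θ 1 = (Real.sqrt ρ)⁻¹ * (2 * Real.sinh t * Real.sin θ) := by
    simp [fsMap, hρ]
  have h2 : fsMap 2 1 T t θ 2 = (Real.sqrt ρ)⁻¹ * (Real.cosh (2 * t) * Real.cos (2 * θ)) := by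
    simp [fsMap, hρ]
  have h3 : fsMap 2 1 T t θ 3 = (Real.sqrt ρ)⁻¹ * (Real.cosh (2 * t) * Real.sin (2 * θ)) := by
    simp [fsMap, hρ]
  rw [h0, h1, h2, h3]
  have hi : ρ * ((Real.sqrt ρ)⁻¹) ^ 2 = 1 := by
    rw [inv_pow, hs]; exact mul_inv_cancel₀ hρ0.ne'
  have e1 : ρ * (((Real.sqrt ρ)⁻¹ * (Real.cosh (2 * t) * Real.cos (2 * θ))) ^ 2
      + ((Real.sqrt ρ)⁻¹ * (Real.cosh (2 * t) * Real.sin (2 * θ))) ^ 2) = Real.cosh (2 * t) ^ 2 := by
    have := Real.sin_sq_add_cos_sq (2 * θ)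
    linear_combination (Real.cosh (2 * t) ^ 2 * (Real.cos (2 * θ) ^ 2 + Real.sin (2 * θ) ^ 2)) * hi
      + (Real.cosh (2 * t) ^ 2) * this
  have e2 : ρ * (((Real.sqrt ρ)⁻¹ * (2 * Real.sinh t * Real.cos θ)) ^ 2
      + ((Real.sqrt ρ)⁻¹ * (2 * Real.sinh t * Real.sin θ)) ^ 2) = 4 * Real.sinh t ^ 2 := by
    have := Real.sin_sq_add_cos_sq θ
    linear_combination (4 * Real.sinh t ^ 2 * (Real.cos θ ^ 2 + Real.sin θ ^ 2)) * hi
      + (4 * Real.sinh t ^ 2) * this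
  rw [e1, e2, Real.cosh_two_mul]
  have := Real.cosh_sq t
  rw [this]; ring

/-- `FS_{2,1}` contains no line. -/
theorem no_line {T : ℝ} {p v : E4} (h : ∀ t : ℝ, p + t • v ∈ fsSurface 2 1 T) : v = 0 := by
  obtain ⟨r, hr, hP⟩ := fs_eq (T := T)
  have key : ∀ t : ℝ, r * ((p 2 + t * v 2) ^ 2 + (p 3 + t * v 3) ^ 2)
      = (1 + r * ((p 0 + t * v 0) ^ 2 + (p 1 + t * v 1) ^ 2) / 2) ^ 2 := by
    intro t
    have := hP _ (h t)
    simpa using this
  have k0 := key 0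
  have k1 := key 1
  have k2 := key (-1)
  have k3 := key 2
  have k4 := key (-2)
  have h4 : r ^ 2 * (v 0 ^ 2 + v 1 ^ 2) ^ 2 = 0 := by
    linear_combination (-1/6) * k3 + (-1/6) * k4 + (4/6) * k1 + (4/6) * k2 - k0
  have h5 : v 0 ^ 2 + v 1 ^ 2 = 0 := by
    rcases mul_eq_zero.mp h4 with h | h
    · exact absurd h (by positivity)
    · exact pow_eq_zero_iff (two_ne_zero) |>.mp h
  have sq0 : ∀ a b : ℝ, a ^ 2 + b ^ 2 = 0 → a = 0 ∧ b = 0 := by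
    intro a b hab
    have ha := sq_nonneg a
    have hb := sq_nonneg b
    have ha' : a ^ 2 = 0 := by linarith
    have hb' : b ^ 2 = 0 := by linarith
    exact ⟨(pow_eq_zero_iff two_ne_zero).mp ha', (pow_eq_zero_iff two_ne_zero).mp hb'⟩
  obtain ⟨hv0, hv1⟩ := sq0 _ _ h5
  rw [hv0, hv1] at k0 k1 k2
  have h6 : r * (v 2 ^ 2 + v 3 ^ 2) = 0 := by
    linear_combination (1/2) * k1 + (1/2) * k2 - k0
  have h7 : v 2 ^ 2 + v 3 ^ 2 = 0 := by
    rcases mul_eq_zero.mp h6 with h | h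
    · exact absurd h hr.ne'
    · exact h
  obtain ⟨hv2, hv3⟩ := sq0 _ _ h7
  ext j
  fin_cases j
  · exact hv0
  · exact hv1
  · exact hv2
  · exact hv3

/-- The surface is not similar to `FS_{2,1}`. -/
theorem not_similar (T : ℝ) (A : E4 ≃ₗᵢ[ℝ] E4) {c : ℝ} (hc : 0 < c) (b : E4) :
    uu '' Om ≠ (fun x => c • A x + b) '' fsSurface 2 1 T := by
  intro hcon
  have h1 : ∀ t : ℝ, A.symm (-(c⁻¹ • b)) + t • A.symm (c⁻¹ • e3) ∈ fsSurface 2 1 T := by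
    intro t
    have := line_mem t
    rw [hcon] at this
    obtain ⟨q, hq, hqt⟩ := this
    have e : q = A.symm (-(c⁻¹ • b)) + t • A.symm (c⁻¹ • e3) := by
      apply A.injective
      rw [map_add, map_smul, A.apply_symm_apply, A.apply_symm_apply]
      have h2 : c • A q = t • e3 - b := by rw [← hqt]; simp
      have h3 : A q = c⁻¹ • (t • e3 - b) := by rw [← h2, smul_smul, inv_mul_cancel₀ hc.ne', one_smul]
      rw [h3, smul_sub, smul_comm c⁻¹ t]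
      abel
    rw [← e]; exact hq
  have h2 := no_line h1
  have h3 : c⁻¹ • e3 = 0 := by
    have := congrArg A h2
    rwa [A.apply_symm_apply, map_zero] at this
  have h4 : e3 ≠ 0 := by simp [e3]
  rcases smul_eq_zero.mp h3 with h | h
  · exact (inv_ne_zero hc.ne') h
  · exact h4 h

end Pool.Agent.Lib.Helper82.Mob
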