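import Pool.Agent.Lib.Helper82.Mob.Symm

/-!
# The second variation of an arbitrary (not necessarily normal) field
-/

set_option autoImplicit false

open MeasureTheory Complex Set Topology Filter
open scoped ContDiff Real ComplexConjugate

namespace Pool.Agent.Lib.Helper82.Mob

lemma Tst.conj {f : ℂ → ℂ} (hf : Tst f) : Tst (fun z => (starRingEnd ℂ) (f z)) := by
  refine ⟨(Complex.conjCLE : ℂ →L[ℝ] ℂ).contDiff.comp hf.smooth, hf.cs.comp_left (map_zero _), ?_⟩
  have : tsupport (fun z => (starRingEnd ℂ) (f z)) ⊆ tsupport f := by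
    apply closure_mono
    intro z hz hz'
    exact hz (by simp only [hz', map_zero])
  exact this.trans hf.supp

lemma Tst.neg {f : ℂ → ℂ} (hf : Tst f) : Tst (fun z => - f z) := by
  have := hf.mul (r := fun _ => -1) contDiffOn_const
  simpa using this

lemma Tst.sub {f g : ℂ → ℂ} (hf : Tst f) (hg : Tst g) : Tst (fun z => f z - g z) := by
  have := hf.add hg.neg
  simpa [sub_eq_add_neg] using this

lemma Tst.dzCont {f : ℂ → ℂ} (hf : Tst f) : Continuous (dz f) := (contDiff_dz hf.smooth).continuous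

lemma Tst.dzbCont {f : ℂ → ℂ} (hf : Tst f) : Continuous (dzb f) := (contDiff_dzb hf.smooth).continuous

lemma Tst.diff {f : ℂ → ℂ} (hf : Tst f) (z : ℂ) : DifferentiableAt ℝ f z :=
  hf.smooth.differentiable (by norm_num) z

lemma dz_eq_zero_of_notMem {f : ℂ → ℂ} {z : ℂ} (hz : z ∉ tsupport f) : dz f z = 0 := by
  have h1 : f =ᶠ[𝓝 z] fun _ => 0 := notMem_tsupport_iff_eventuallyEq.mp hz
  rw [dz, h1.fderiv_eq]; simp

lemma dzb_eq_zero_of_notMem {f : ℂ → ℂ} {z : ℂ} (hz : z ∉ tsupport f) : dzb f z = 0 := by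
  have h1 : f =ᶠ[𝓝 z] fun _ => 0 := notMem_tsupport_iff_eventuallyEq.mp hz
  rw [dzb, h1.fderiv_eq]; simp

/-- `∫ |∂T|² = ∫ |∂̄T|²` for test functions. -/
lemma null_lagrangian {T : ℂ → ℂ} (hT : ContDiff ℝ 2 T) (hs : HasCompactSupport T) :
    ∫ z, ‖dz T z‖ ^ 2 = ∫ z, ‖dzb T z‖ ^ 2 := by
  have hT1 : ContDiff ℝ 1 T := hT.of_le (by norm_num)
  have hc : ContDiff ℝ 1 (fun z => conj (T z)) := (Complex.conjCLE : ℂ →L[ℝ] ℂ).contDiff.comp hT1
  have hcs : HasCompactSupport (fun z => conj (T z)) := hs.comp_left (map_zero _)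
  have h := ibp_swap hT hc hcs
  have e1 : ∀ z, dzb (fun w => conj (T w)) z * dz T z = ((‖dz T z‖ ^ 2 : ℝ) : ℂ) := by
    intro z
    rw [dzb_conj (hT1.differentiable (by norm_num) z), mul_comm, Complex.mul_conj,
      Complex.normSq_eq_norm_sq]
  have e2 : ∀ z, dz (fun w => conj (T w)) z * dzb T z = ((‖dzb T z‖ ^ 2 : ℝ) : ℂ) := by
    intro z
    rw [dz_conj (hT1.differentiable (by norm_num) z), mul_comm, Complex.mul_conj,
      Complex.normSq_eq_norm_sq]
  simp only [e1, e2] at h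
  rw [integral_complex_ofReal, integral_complex_ofReal] at h
  exact_mod_cast h

/-- One component of the energy of `X + T + \bar T`. -/
lemma component_eq {X T : ℂ → ℂ} (hX : Tst X) (hXr : ∀ z, conj (X z) = X z) (hT : Tst T) :
    ∫ z, ‖dz (fun w => X w + T w + conj (T w)) z‖ ^ 2
      = (∫ z, ‖dz X z‖ ^ 2) + 2 * (∫ z, ‖dzb T z‖ ^ 2) + 4 * (∫ z, dz X z * dzb T z).re
        + 2 * (∫ z, dz T z * dzb T z).re := by
  have hX1 : ContDiff ℝ 1 X := hX.smooth.of_le (by norm_num)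
  have ha := hX.dzCont
  have has : HasCompactSupport (dz X) := hasCompactSupport_dz hX.cs
  have hb := hT.dzCont
  have hbs : HasCompactSupport (dz T) := hasCompactSupport_dz hT.cs
  have hG := hT.dzbCont
  have hGs : HasCompactSupport (dzb T) := hasCompactSupport_dzb hT.cs
  have hconj : ∀ z, (starRingEnd ℂ) (dz X z) = dzb X z := by
    intro z
    have h := dzb_conj (hX.diff z)
    simp only [hXr] at h
    exact h.symm
  have hsw := ibp_swap hT.smooth hX1 hX.cs
  have hnl := null_lagrangian hT.smooth hT.cs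
  have ex : ∀ z, ‖dz (fun w => X w + T w + (starRingEnd ℂ) (T w)) z‖ ^ 2
      = ‖dz X z‖ ^ 2 + ‖dz T z‖ ^ 2 + ‖dzb T z‖ ^ 2 + 2 * (dzb X z * dz T z).re
        + 2 * (dz X z * dzb T z).re + 2 * (dz T z * dzb T z).re := by
    intro z
    rw [dz_add ((hX.diff z).fun_add (hT.diff z)) (hT.conj.diff z), dz_add (hX.diff z) (hT.diff z),
      dz_conj (hT.diff z), ← hconj]
    rw [← Complex.normSq_eq_norm_sq, ← Complex.normSq_eq_norm_sq, ← Complex.normSq_eq_norm_sq,
      ← Complex.normSq_eq_norm_sq]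
    simp only [Complex.normSq_apply, Complex.add_re, Complex.add_im, Complex.mul_re,
      Complex.conj_re, Complex.conj_im]
    ring
  have i1 : Integrable (fun z => ‖dz X z‖ ^ 2) := integrable_sq_cs ha has
  have i1' : Integrable (fun z => ‖dz T z‖ ^ 2) := integrable_sq_cs hb hbs
  have i2 : Integrable (fun z => ‖dzb T z‖ ^ 2) := integrable_sq_cs hG hGs
  have i3 : Integrable (fun z => dzb X z * dz T z) := integrable_cs hX.dzbCont hb hbs
  have i4 : Integrable (fun z => dz X z * dzb T z) := integrable_cs ha hG hGs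
  have i5 : Integrable (fun z => dz T z * dzb T z) := integrable_cs hb hG hGs
  have re_int : ∀ {f : ℂ → ℂ}, Integrable f → ∫ z, (f z).re = (∫ z, f z).re := fun hf =>
    integral_re hf
  have j3 := i3.re; have j4 := i4.re; have j5 := i5.re
  simp only [RCLike.re_eq_complex_re] at j3 j4 j5
  have k1 : Integrable (fun z => ‖dz X z‖ ^ 2 + ‖dz T z‖ ^ 2) := i1.add i1'
  have k2 : Integrable (fun z => ‖dz X z‖ ^ 2 + ‖dz T z‖ ^ 2 + ‖dzb T z‖ ^ 2) := k1.add i2
  have k3 : Integrable (fun z => ‖dz X z‖ ^ 2 + ‖dz T z‖ ^ 2 + ‖dzb T z‖ ^ 2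
      + 2 * (dzb X z * dz T z).re) := k2.add (j3.const_mul 2)
  have k4 : Integrable (fun z => ‖dz X z‖ ^ 2 + ‖dz T z‖ ^ 2 + ‖dzb T z‖ ^ 2
      + 2 * (dzb X z * dz T z).re + 2 * (dz X z * dzb T z).re) := k3.add (j4.const_mul 2)
  simp only [ex]
  rw [integral_add k4 (j5.const_mul 2), integral_add k3 (j4.const_mul 2),
    integral_add k2 (j3.const_mul 2),
    integral_add k1 i2, integral_add i1 i1', integral_const_mul, integral_const_mul,
    integral_const_mul, re_int i3, re_int i4, re_int i5, hsw, hnl]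
  ring

/-- The tangential coefficient of a real field `Y`: `Y^⊤ = Re (tc Y * W)`. -/
noncomputable def tc (Y : Fin 4 → ℂ → ℂ) (z : ℂ) : ℂ := ∑ j, Y j z * (2 * conj (W j z) / NN z)

/-- The normal part of `Y`. -/
noncomputable def nrm (Y : Fin 4 → ℂ → ℂ) (j : Fin 4) (z : ℂ) : ℂ :=
  Y j z - (tc Y z * (W j z / 2) + conj (tc Y z * (W j z / 2)))

variable {Y : Fin 4 → ℂ → ℂ}

lemma tst_tc (hY : ∀ j, Tst (Y j)) : Tst (tc Y) := by
  unfold tc
  refine Tst.sum _ fun j _ => (hY j).mul ?_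
  have h : ContDiffOn ℝ 2 (fun z => (NN z)⁻¹) Om :=
    contDiffOn_NN.inv fun z hz => NN_ne hz
  simp only [div_eq_mul_inv]
  exact (contDiffOn_const.mul (contDiffOn_conj (contDiffOn_W j))).mul h

lemma tst_T (hY : ∀ j, Tst (Y j)) (j : Fin 4) : Tst (fun z => tc Y z * (W j z / 2)) :=
  (tst_tc hY).mul ((contDiffOn_W j).div_const 2)

lemma tst_nrm (hY : ∀ j, Tst (Y j)) (j : Fin 4) : Tst (nrm Y j) :=
  (hY j).sub ((tst_T hY j).add (tst_T hY j).conj)

lemma sum_conj_sq {z : ℂ} (hz : z ∈ Om) : ∑ j, conj (W j z) * conj (W j z) = 0 := by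
  have := congrArg conj (W_sq hz)
  rw [map_sum, map_zero] at this
  rw [← this]
  exact Finset.sum_congr rfl fun j _ => by rw [map_mul]

lemma nrm_normal (hYr : ∀ j z, conj (Y j z) = Y j z) {z : ℂ} (hz : z ∈ Om) :
    ∑ j, nrm Y j z * W j z = 0 := by
  have hN := NN_ne hz
  have h1 : ∀ j, nrm Y j z * W j z = Y j z * W j z - (tc Y z / 2) * (W j z * W j z)
      - (conj (tc Y z) / 2) * (W j z * conj (W j z)) := by
    intro j
    simp only [nrm, map_mul, map_div₀, map_ofNat]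
    ring
  simp only [h1]
  rw [Finset.sum_sub_distrib, Finset.sum_sub_distrib, ← Finset.mul_sum, ← Finset.mul_sum, W_sq hz,
    ← NN]
  have h2 : conj (tc Y z) = 2 * (∑ j, Y j z * W j z) / NN z := by
    rw [tc, map_sum, Finset.mul_sum, Finset.sum_div]
    refine Finset.sum_congr rfl fun j _ => ?_
    simp only [map_mul, map_div₀, map_ofNat, Complex.conj_conj, hYr, conj_NN]
    ring
  rw [h2]
  field_simp
  ring

lemma nrm_real (hYr : ∀ j z, conj (Y j z) = Y j z) (j : Fin 4) (z : ℂ) :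
    conj (nrm Y j z) = nrm Y j z := by
  simp only [nrm, map_sub, map_add, Complex.conj_conj, hYr]
  ring

lemma tc_iot (hYi : ∀ j, ∀ z ∈ Om, Y j (iot z) = Y j z) (hYr : ∀ j z, conj (Y j z) = Y j z)
    {z : ℂ} (hz : z ∈ Om) : tc Y (iot z) = conj (tc Y z) * (conj z ^ 2)⁻¹ := by
  have c0 : conj z ≠ 0 := by simpa using hz.1
  have z0 : z ≠ 0 := hz.1
  have hN := NN_ne hz
  rw [tc, tc, map_sum, Finset.sum_mul]
  refine Finset.sum_congr rfl fun j _ => ?_
  rw [hYi j z hz, W_iot j hz, NN_iot hz]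
  simp only [map_mul, map_pow, Complex.conj_conj, map_div₀, map_ofNat, hYr, conj_NN]
  field_simp

lemma nrm_inv (hYi : ∀ j, ∀ z ∈ Om, Y j (iot z) = Y j z) (hYr : ∀ j z, conj (Y j z) = Y j z)
    (j : Fin 4) {z : ℂ} (hz : z ∈ Om) : nrm Y j (iot z) = nrm Y j z := by
  have c0 : conj z ≠ 0 := by simpa using hz.1
  have z0 : z ≠ 0 := hz.1
  simp only [nrm]
  rw [tc_iot hYi hYr hz, hYi j z hz, W_iot j hz]
  simp only [map_mul, map_pow, Complex.conj_conj, map_div₀, map_ofNat, map_inv₀]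
  field_simp
  ring

lemma tfield_nrm (hY : ∀ j, Tst (Y j)) (hYr : ∀ j z, conj (Y j z) = Y j z)
    (hYi : ∀ j, ∀ z ∈ Om, Y j (iot z) = Y j z) : TField (nrm Y) :=
  ⟨tst_nrm hY, nrm_real hYr, fun _ hz => nrm_normal hYr hz, fun j _ hz => nrm_inv hYi hYr j hz⟩

/-- The second variation in terms of a not necessarily normal field. -/
theorem En_nrm (hY : ∀ j, Tst (Y j)) (hYr : ∀ j z, conj (Y j z) = Y j z)
    (hYi : ∀ j, ∀ z ∈ Om, Y j (iot z) = Y j z) :
    En (nrm Y) = (∑ j, ∫ z, ‖dz (Y j) z‖ ^ 2)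
      - 2 * ∫ z, ‖∑ j, dz (Y j) z * W j z‖ ^ 2 / (∑ j, ‖W j z‖ ^ 2) := by
  have hX := tfield_nrm hY hYr hYi
  set X := nrm Y with hXdef
  set T : Fin 4 → ℂ → ℂ := fun j z => tc Y z * (W j z / 2) with hTdef
  have hT : ∀ j, Tst (T j) := tst_T hY
  have htc := tst_tc hY
  have hYX : ∀ j, Y j = fun w => X j w + T j w + conj (T j w) := by
    intro j; funext w; simp only [hXdef, nrm, hTdef]; ring
  have c := fun j => component_eq (hX.tst j) (hX.real j) (hT j)
  simp only [← hYX] at c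
  -- derivatives of `T`
  have dbT : ∀ j, ∀ z ∈ Om, dzb (T j) z = dzb (tc Y) z * (W j z / 2) := by
    intro j z hz
    have hW : DifferentiableAt ℝ (fun w => W j w / 2) z :=
      ((hasDerivAt_W j hz).div_const 2).differentiableAt.restrictScalars ℝ
    have h0 : dzb (fun w => W j w / 2) z = 0 :=
      (differentiableAt_iff_dzb hW).mp ((hasDerivAt_W j hz).differentiableAt.div_const 2)
    rw [hTdef]
    simp only
    rw [dzb_mul (htc.diff z) hW, h0]; ring
  have dT : ∀ j, ∀ z ∈ Om, dz (T j) z = dz (tc Y) z * (W j z / 2) + tc Y z * (V j z / 2) := by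
    intro j z hz
    have hW : DifferentiableAt ℝ (fun w => W j w / 2) z :=
      ((hasDerivAt_W j hz).div_const 2).differentiableAt.restrictScalars ℝ
    rw [hTdef]
    simp only
    rw [dz_mul (htc.diff z) hW, dz_of_holo ((hasDerivAt_W j hz).div_const 2)]
  have dT0 : ∀ j, ∀ z, z ∉ Om → dz (T j) z = 0 := fun j z hz =>
    dz_eq_zero_of_notMem fun h => hz ((hT j).supp h)
  have dbT0 : ∀ j, ∀ z, z ∉ Om → dzb (T j) z = 0 := fun j z hz =>
    dzb_eq_zero_of_notMem fun h => hz ((hT j).supp h)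
  have dX0 : ∀ j, ∀ z, z ∉ Om → dz (X j) z = 0 := fun j z hz =>
    dz_eq_zero_of_notMem fun h => hz ((hX.tst j).supp h)
  -- pointwise sums
  have sVW : ∀ z ∈ Om, ∑ j, W j z * W j z = 0 := fun z hz => W_sq hz
  have s1 : ∀ z, ∑ j, dz (T j) z * dzb (T j) z = 0 := by
    intro z
    by_cases hz : z ∈ Om
    · have e : ∀ j, dz (T j) z * dzb (T j) z = (dz (tc Y) z * dzb (tc Y) z / 4) * (W j z * W j z)
          + (tc Y z * dzb (tc Y) z / 4) * (W j z * V j z) := by
        intro j; rw [dT j z hz, dbT j z hz]; ring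
      simp only [e]
      rw [Finset.sum_add_distrib, ← Finset.mul_sum, ← Finset.mul_sum, W_sq hz, W_V hz]; ring
    · simp [dT0 _ z hz]
  have s2 : ∀ z, ∑ j, dz (X j) z * dzb (T j) z = - (dzb (tc Y) z * psi X z) / 2 := by
    intro z
    by_cases hz : z ∈ Om
    · have e : ∀ j, dz (X j) z * dzb (T j) z = (dzb (tc Y) z / 2) * (dz (X j) z * W j z) := by
        intro j; rw [dbT j z hz]; ring
      simp only [e]
      rw [← Finset.mul_sum, sum_dzX_W hX hz]; ring
    · rw [psi]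
      simp [dX0 _ z hz, (hX.tst _).eq_zero hz]
  have s3 : ∀ z, ∑ j, ‖dzb (T j) z‖ ^ 2 = ‖dzb (tc Y) z‖ ^ 2 * (∑ j, ‖W j z‖ ^ 2) / 4 := by
    intro z
    by_cases hz : z ∈ Om
    · rw [Finset.mul_sum, Finset.sum_div]
      refine Finset.sum_congr rfl fun j _ => ?_
      rw [dbT j z hz, norm_mul, norm_div]
      norm_num
      ring
    · simp only [dbT0 _ z hz]
      rw [dzb_eq_zero_of_notMem fun h => hz (htc.supp h)]
      simp
  have s4 : ∀ z ∈ Om, ∑ j, dz (Y j) z * W j z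
      = - psi X z + conj (dzb (tc Y) z) * ((∑ j, ‖W j z‖ ^ 2 : ℝ) : ℂ) / 2 := by
    intro z hz
    have e : ∀ j, dz (Y j) z * W j z = dz (X j) z * W j z
        + ((dz (tc Y) z / 2) * (W j z * W j z) + (tc Y z / 2) * (W j z * V j z))
        + (conj (dzb (tc Y) z) / 2) * (W j z * conj (W j z)) := by
      intro j
      have : dz (Y j) z = dz (X j) z + dz (T j) z + conj (dzb (T j) z) := by
        conv_lhs => rw [hYX j]
        rw [dz_add (((hX.tst j).diff z).fun_add ((hT j).diff z)) ((hT j).conj.diff z),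
          dz_add ((hX.tst j).diff z) ((hT j).diff z), dz_conj ((hT j).diff z)]
      rw [this, dT j z hz, dbT j z hz]
      simp only [map_mul, map_div₀, map_ofNat]
      ring
    simp only [e]
    rw [Finset.sum_add_distrib, Finset.sum_add_distrib, Finset.sum_add_distrib, ← Finset.mul_sum,
      ← Finset.mul_sum, ← Finset.mul_sum, W_sq hz, W_V hz, sum_dzX_W hX hz, ← NN, NN_eq]
    ring
  have s5 : ∀ z, ‖∑ j, dz (Y j) z * W j z‖ ^ 2 / (∑ j, ‖W j z‖ ^ 2)
      = ‖psi X z‖ ^ 2 / (∑ j, ‖W j z‖ ^ 2) + ‖dzb (tc Y) z‖ ^ 2 * (∑ j, ‖W j z‖ ^ 2) / 4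
        - (dzb (tc Y) z * psi X z).re := by
    intro z
    by_cases hz : z ∈ Om
    · have hN := N_pos hz
      rw [s4 z hz]
      set N := ∑ j, ‖W j z‖ ^ 2
      have : ‖- psi X z + conj (dzb (tc Y) z) * (N : ℂ) / 2‖ ^ 2
          = ‖psi X z‖ ^ 2 + ‖dzb (tc Y) z‖ ^ 2 * N ^ 2 / 4 - N * (dzb (tc Y) z * psi X z).re := by
        rw [← Complex.normSq_eq_norm_sq, ← Complex.normSq_eq_norm_sq, ← Complex.normSq_eq_norm_sq]
        have e2 : - psi X z + conj (dzb (tc Y) z) * (N : ℂ) / 2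
            = - psi X z + conj (dzb (tc Y) z) * ((N / 2 : ℝ) : ℂ) := by push_cast; ring
        rw [e2]
        simp only [Complex.normSq_apply, Complex.add_re, Complex.add_im, Complex.mul_re,
          Complex.mul_im, Complex.neg_re, Complex.neg_im,
          Complex.conj_re, Complex.conj_im, Complex.ofReal_re, Complex.ofReal_im]
        ring
      rw [this]
      field_simp
      try ring
    · have h1 : ∀ j, dz (Y j) z = 0 := fun j => dz_eq_zero_of_notMem fun h => hz ((hY j).supp h)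
      have h2 : dzb (tc Y) z = 0 := dzb_eq_zero_of_notMem fun h => hz (htc.supp h)
      have h3 : psi X z = 0 := by rw [psi]; simp [(hX.tst _).eq_zero hz]
      simp [h1, h2, h3]
  -- integrability
  have hdtc : Tst (psi X) := by
    unfold psi
    exact Tst.sum _ fun j _ => (hX.tst j).mul (contDiffOn_V j)
  have iA : Integrable (fun z => ∑ j, ‖dzb (T j) z‖ ^ 2) :=
    integrable_finsetSum _ fun j _ =>
      integrable_sq_cs (hT j).dzbCont (hasCompactSupport_dzb (hT j).cs)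
  have iA' : Integrable (fun z => ‖dzb (tc Y) z‖ ^ 2 * (∑ j, ‖W j z‖ ^ 2) / 4) := by
    simpa only [s3] using iA
  have iB : Integrable (fun z => dzb (tc Y) z * psi X z) :=
    integrable_cs htc.dzbCont hdtc.smooth.continuous hdtc.cs
  have iBr := iB.re
  simp only [RCLike.re_eq_complex_re] at iBr
  have iC : Integrable (fun z => ‖psi X z‖ ^ 2 / (∑ j, ‖W j z‖ ^ 2)) := by
    have hG : ∀ j, Tst (fun z => gg X z * W j z) := fun j => (tst_gg hX.tst).mul (contDiffOn_W j)
    have i : Integrable (fun z => ∑ j, ‖gg X z * W j z‖ ^ 2) :=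
      integrable_finsetSum _ fun j _ => integrable_sq_cs (hG j).smooth.continuous (hG j).cs
    refine i.congr (Eventually.of_forall fun z => ?_)
    simp only [norm_mul, mul_pow]
    rw [← Finset.mul_sum]
    by_cases hz : z ∈ Om
    · have hN := N_pos hz
      rw [gg_eq hX, norm_div, NN_eq, Complex.norm_real, Real.norm_of_nonneg hN.le, div_pow,
        RCLike.norm_conj]
      field_simp
    · rw [(tst_gg hX.tst).eq_zero hz, psi]
      simp [(hX.tst _).eq_zero hz]
  -- assemble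
  have t1 : ∑ j, ∫ z, ‖dz (Y j) z‖ ^ 2 = (∑ j, ∫ z, ‖dz (X j) z‖ ^ 2)
      + 2 * (∫ z, ‖dzb (tc Y) z‖ ^ 2 * (∑ j, ‖W j z‖ ^ 2) / 4)
      - 2 * (∫ z, dzb (tc Y) z * psi X z).re := by
    simp only [c]
    rw [Finset.sum_add_distrib, Finset.sum_add_distrib, Finset.sum_add_distrib, ← Finset.mul_sum,
      ← Finset.mul_sum, ← Finset.mul_sum]
    have a1 : ∑ j, ∫ z, ‖dzb (T j) z‖ ^ 2
        = ∫ z, ‖dzb (tc Y) z‖ ^ 2 * (∑ j, ‖W j z‖ ^ 2) / 4 := by
      rw [← integral_finsetSum _ fun j _ =>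
        integrable_sq_cs (hT j).dzbCont (hasCompactSupport_dzb (hT j).cs)]
      simp only [s3]
    have a2 : ∑ j, (∫ z, dz (X j) z * dzb (T j) z).re
        = - (∫ z, dzb (tc Y) z * psi X z).re / 2 := by
      rw [← Complex.re_sum, ← integral_finsetSum _ fun j _ =>
        integrable_cs (hX.tst j).dzCont (hT j).dzbCont (hasCompactSupport_dzb (hT j).cs)]
      simp only [s2]
      have : ∀ z, -(dzb (tc Y) z * psi X z) / 2 = (-1/2 : ℝ) * (dzb (tc Y) z * psi X z) := by
        intro z; push_cast; ring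
      simp only [this]
      rw [integral_const_mul, Complex.re_ofReal_mul]
      ring
    have a3 : ∑ j, (∫ z, dz (T j) z * dzb (T j) z).re = 0 := by
      rw [← Complex.re_sum, ← integral_finsetSum _ fun j _ =>
        integrable_cs (hT j).dzCont (hT j).dzbCont (hasCompactSupport_dzb (hT j).cs)]
      simp only [s1]
      simp
    rw [a1, a2, a3]
    ring
  have t2 : ∫ z, ‖∑ j, dz (Y j) z * W j z‖ ^ 2 / (∑ j, ‖W j z‖ ^ 2)
      = (∫ z, ‖psi X z‖ ^ 2 / (∑ j, ‖W j z‖ ^ 2))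
        + (∫ z, ‖dzb (tc Y) z‖ ^ 2 * (∑ j, ‖W j z‖ ^ 2) / 4)
        - (∫ z, dzb (tc Y) z * psi X z).re := by
    simp only [s5]
    have iCA : Integrable (fun z => ‖psi X z‖ ^ 2 / (∑ j, ‖W j z‖ ^ 2)
        + ‖dzb (tc Y) z‖ ^ 2 * (∑ j, ‖W j z‖ ^ 2) / 4) := iC.add iA'
    rw [integral_sub iCA iBr, integral_add iC iA']
    congr 1
    exact integral_re iB
  rw [t1, t2, En]
  ring

end Pool.Agent.Lib.Helper82.Mob
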