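import Pool.Agent.Lib.Helper82.Mob.Lower1

/-!
# The second variation of a cut-off harmonic field
-/

set_option autoImplicit false

open MeasureTheory Complex Set Topology Filter
open scoped ContDiff Real ComplexConjugate

namespace Pool.Agent.Lib.Helper82.Mob

/-- The harmonic function `Re H`, complex valued. -/
noncomputable def hre (H : ℂ → ℂ) (z : ℂ) : ℂ := (H z + conj (H z)) * (1 / 2)

lemma conj_hre (H : ℂ → ℂ) (z : ℂ) : conj (hre H z) = hre H z := by
  simp only [hre, map_mul, map_add, Complex.conj_conj, map_div₀, map_one, map_ofNat]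
  ring

lemma contDiffOn_hre {H : ℂ → ℂ} (hH : ∀ z ∈ Om, DifferentiableAt ℂ H z) :
    ContDiffOn ℝ 2 (hre H) Om := by
  have h := contDiffOn_hol hH
  exact (h.add (contDiffOn_conj h)).mul contDiffOn_const

lemma dzb_of_holo {f : ℂ → ℂ} {z : ℂ} (h : DifferentiableAt ℂ f z) : dzb f z = 0 :=
  (differentiableAt_iff_dzb (h.restrictScalars ℝ)).mp h

lemma diff_hre {H : ℂ → ℂ} {z : ℂ} (h : DifferentiableAt ℂ H z) : DifferentiableAt ℝ (hre H) z := by
  have h1 : DifferentiableAt ℝ H z := h.restrictScalars ℝ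
  have h2 : DifferentiableAt ℝ (fun w => conj (H w)) z :=
    (Complex.conjCLE : ℂ →L[ℝ] ℂ).differentiableAt.comp z h1
  exact (h1.fun_add h2).fun_mul (differentiableAt_const _)

lemma dz_hre {H : ℂ → ℂ} {z H' : ℂ} (h : HasDerivAt H H' z) : dz (hre H) z = H' / 2 := by
  have h1 : DifferentiableAt ℝ H z := h.differentiableAt.restrictScalars ℝ
  have h2 : DifferentiableAt ℝ (fun w => conj (H w)) z :=
    (Complex.conjCLE : ℂ →L[ℝ] ℂ).differentiableAt.comp z h1
  unfold hre
  rw [dz_mul (h1.fun_add h2) (differentiableAt_const _), dz_add h1 h2, dz_conj h1, dz_of_holo h,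
    dzb_of_holo h.differentiableAt]
  simp [dz]
  ring

lemma dzb_hre {H : ℂ → ℂ} {z H' : ℂ} (h : HasDerivAt H H' z) : dzb (hre H) z = conj H' / 2 := by
  have h0 := dz_hre h
  have h1 := dzb_conj (diff_hre h.differentiableAt)
  simp only [conj_hre] at h1
  rw [h1, h0, map_div₀, map_ofNat]

lemma integral_dzb_eq_zero {ψ : ℂ → ℂ} (hψ : ContDiff ℝ 1 ψ) (hs : HasCompactSupport ψ) :
    ∫ z, dzb ψ z = 0 := by
  have h := ibp_dzb (F := fun _ => (1:ℂ)) contDiff_const hψ hs
  simp only [one_mul] at h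
  rw [h]
  have : dzb (fun _ : ℂ => (1:ℂ)) = fun _ => 0 := by funext z; simp [dzb]
  rw [this]; simp

section cut

variable {χ : ℂ → ℂ}

lemma dz_real {χ : ℂ → ℂ} (hχr : ∀ z, conj (χ z) = χ z) {z : ℂ} (hd : DifferentiableAt ℝ χ z) :
    conj (dz χ z) = dzb χ z := by
  have h := dzb_conj hd
  simp only [hχr] at h
  exact h.symm

/-- Dirichlet energy of a cut-off harmonic function. -/
lemma energy_cut (hχ : Tst χ) (hχr : ∀ z, conj (χ z) = χ z) {H H' : ℂ → ℂ}
    (hH : ∀ z ∈ Om, HasDerivAt H (H' z) z) (hH' : ∀ z ∈ Om, DifferentiableAt ℂ H' z) :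
    ∫ z, ‖dz (fun w => χ w * hre H w) z‖ ^ 2 = ∫ z, ‖dz χ z‖ ^ 2 * ‖hre H z‖ ^ 2 := by
  have hHd : ∀ z ∈ Om, DifferentiableAt ℂ H z := fun z hz => (hH z hz).differentiableAt
  have hY : Tst (fun w => χ w * hre H w) := hχ.mul (contDiffOn_hre hHd)
  have hU : Tst (fun w => χ w * (χ w * (hre H w * (H' w * (1 / 2))))) :=
    hχ.mul (hχ.smooth.contDiffOn.mul ((contDiffOn_hre hHd).mul
      ((contDiffOn_hol hH').mul contDiffOn_const)))
  have hpt : ∀ z, ‖dz (fun w => χ w * hre H w) z‖ ^ 2 = ‖dz χ z‖ ^ 2 * ‖hre H z‖ ^ 2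
      + (dzb (fun w => χ w * (χ w * (hre H w * (H' w * (1 / 2))))) z).re := by
    intro z
    by_cases hz : z ∈ Om
    · have h1 : DifferentiableAt ℝ χ z := hχ.diff z
      have h2 := diff_hre (hHd z hz)
      have h3 : DifferentiableAt ℝ (fun w => H' w * (1 / 2)) z :=
        (hH' z hz).restrictScalars ℝ |>.fun_mul (differentiableAt_const _)
      rw [dz_mul h1 h2, dz_hre (hH z hz), dzb_mul h1 (h1.fun_mul (h2.fun_mul h3)),
        dzb_mul h1 (h2.fun_mul h3), dzb_mul h2 h3, dzb_hre (hH z hz),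
        dzb_of_holo ((hH' z hz).fun_mul (differentiableAt_const _)), ← dz_real hχr h1]
      have er : (hre H z).im = 0 := Complex.conj_eq_iff_im.mp (conj_hre H z)
      have ec : (χ z).im = 0 := Complex.conj_eq_iff_im.mp (hχr z)
      rw [← Complex.normSq_eq_norm_sq, ← Complex.normSq_eq_norm_sq, ← Complex.normSq_eq_norm_sq]
      have e1 : hre H z = ((hre H z).re : ℂ) := by apply Complex.ext <;> simp [er]
      have e2 : χ z = ((χ z).re : ℂ) := by apply Complex.ext <;> simp [ec]
      set y := (hre H z).re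
      set c := (χ z).re
      rw [e1, e2]
      have e3 : dz χ z * (y : ℂ) + (c : ℂ) * (H' z / 2)
          = ⟨(dz χ z).re * y + c * (H' z).re / 2, (dz χ z).im * y + c * (H' z).im / 2⟩ := by
        apply Complex.ext <;> simp <;> ring
      have e4 : conj (H' z) / 2 * (H' z * (1 / 2))
          = (((H' z).re ^ 2 + (H' z).im ^ 2) / 4 : ℝ) := by
        rw [show conj (H' z) / 2 * (H' z * (1 / 2)) = (H' z * conj (H' z)) * (1 / 4) by ring,
          Complex.mul_conj, normSq_apply]
        push_cast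
        ring
      have e5 : conj (dz χ z) * ((c : ℂ) * ((y : ℂ) * (H' z * (1 / 2))))
          + (c : ℂ) * (conj (dz χ z) * ((y : ℂ) * (H' z * (1 / 2)))
            + (c : ℂ) * (conj (H' z) / 2 * (H' z * (1 / 2)) + (y : ℂ) * 0))
          = (c * y : ℝ) * (conj (dz χ z) * H' z) + (c ^ 2 : ℝ) * (conj (H' z) / 2 * (H' z * (1 / 2))) := by
        push_cast; ring
      rw [e5, e4, e3]
      simp only [normSq_apply, Complex.add_re, Complex.mul_re, Complex.ofReal_re, Complex.ofReal_im,
        Complex.conj_re, Complex.conj_im]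
      ring
    · rw [dz_eq_zero_of_notMem fun h => hz (hY.supp h), dz_eq_zero_of_notMem fun h => hz (hχ.supp h),
        dzb_eq_zero_of_notMem fun h => hz (hU.supp h)]
      simp
  have iU : Integrable (fun z => dzb (fun w => χ w * (χ w * (hre H w * (H' w * (1 / 2))))) z) :=
    hU.dzbCont.integrable_of_hasCompactSupport (hasCompactSupport_dzb hU.cs)
  have iUr := iU.re
  simp only [RCLike.re_eq_complex_re] at iUr
  have iY := integrable_sq_cs hY.dzCont (hasCompactSupport_dz hY.cs)
  have iZ : Integrable (fun z => ‖dz χ z‖ ^ 2 * ‖hre H z‖ ^ 2) := by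
    have := iY.sub iUr
    refine this.congr (Eventually.of_forall fun z => ?_)
    simp only [Pi.sub_apply]
    rw [hpt]; ring
  simp only [hpt]
  rw [integral_add iZ iUr]
  have : ∫ z, (dzb (fun w => χ w * (χ w * (hre H w * (H' w * (1 / 2))))) z).re
      = (∫ z, dzb (fun w => χ w * (χ w * (hre H w * (H' w * (1 / 2))))) z).re := integral_re iU
  rw [this, integral_dzb_eq_zero (hU.smooth.of_le (by norm_num)) hU.cs]
  simp

lemma integrable_cut (hχ : Tst χ) {H H' : ℂ → ℂ}
    (hH : ∀ z ∈ Om, HasDerivAt H (H' z) z) :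
    Integrable (fun z => ‖dz χ z‖ ^ 2 * ‖hre H z‖ ^ 2) := by
  have hHd : ∀ z ∈ Om, DifferentiableAt ℂ H z := fun z hz => (hH z hz).differentiableAt
  have h1 : ContDiff ℝ 1 (dz χ) := contDiff_dz hχ.smooth
  have hcont : Continuous (fun z => dz χ z * hre H z) := by
    rw [continuous_iff_continuousAt]
    intro z
    by_cases hz : z ∈ tsupport χ
    · exact h1.continuous.continuousAt.mul
        ((contDiffOn_hre hHd).continuousOn.continuousAt (isOpen_Om.mem_nhds (hχ.supp hz)))
    · have h2 : ∀ᶠ w in 𝓝 z, w ∉ tsupport χ :=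
        (isClosed_tsupport χ).isOpen_compl.mem_nhds hz
      have h3 : (fun z => dz χ z * hre H z) =ᶠ[𝓝 z] fun _ => 0 := by
        filter_upwards [h2] with w hw
        rw [dz_eq_zero_of_notMem hw, zero_mul]
      exact continuousAt_const.congr h3.symm
  have hs : HasCompactSupport (fun z => dz χ z * hre H z) := (hasCompactSupport_dz hχ.cs).mul_right
  refine (integrable_sq_cs hcont hs).congr (Eventually.of_forall fun z => ?_)
  simp only [norm_mul, mul_pow]

end cut

end Pool.Agent.Lib.Helper82.Mob
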