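import Pool.Agent.Lib.Helper82.Mob.Lower2

/-!
# Upper estimate for the second variation of a cut-off harmonic field
-/

set_option autoImplicit false

open MeasureTheory Complex Set Topology Filter
open scoped ContDiff Real ComplexConjugate

namespace Pool.Agent.Lib.Helper82.Mob

/-- The algebraic inequality behind the estimate. -/
lemma pt_ineq {Y2 N c : ℝ} {s a q f : ℂ} (hN : 0 < N) (hP : 0 ≤ Y2 - 2 * ‖s‖ ^ 2 / N) :
    ‖a‖ ^ 2 * Y2 - 2 * (‖a * s + c * q‖ ^ 2 / N)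
      ≤ 2 * ‖a‖ ^ 2 * (Y2 - 2 * (f * s).re + ‖f‖ ^ 2 * N / 2) - 2 * (c * conj a * f * q).re := by
  set d : ℂ := s - conj f * (N / 2 : ℝ) with hd
  have key : 2 * ‖a‖ ^ 2 * (Y2 - 2 * (f * s).re + ‖f‖ ^ 2 * N / 2) - 2 * (c * conj a * f * q).re
      - (‖a‖ ^ 2 * Y2 - 2 * (‖a * s + c * q‖ ^ 2 / N))
      = ‖a‖ ^ 2 * (Y2 - 2 * ‖s‖ ^ 2 / N) + 2 / N * (‖a * d + c * q‖ ^ 2 + ‖a * d‖ ^ 2) := by
    simp only [← Complex.normSq_eq_norm_sq]
    simp only [hd, Complex.normSq_apply, Complex.add_re, Complex.add_im, Complex.sub_re,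
      Complex.sub_im, Complex.mul_re, Complex.mul_im, Complex.conj_re, Complex.conj_im,
      Complex.ofReal_re, Complex.ofReal_im]
    field_simp
    ring
  have h2 : 0 ≤ ‖a‖ ^ 2 * (Y2 - 2 * ‖s‖ ^ 2 / N) + 2 / N * (‖a * d + c * q‖ ^ 2 + ‖a * d‖ ^ 2) := by
    positivity
  linarith

/-- `|y - Re (f W)|²` for a real vector `y`. -/
noncomputable def Bf (y : Fin 4 → ℂ) (f z : ℂ) : ℝ := ∑ j, ‖y j - hre (fun _ => f * W j z) 0‖ ^ 2

lemma Bf_eq {y : Fin 4 → ℂ} (hy : ∀ j, conj (y j) = y j) (f : ℂ) {z : ℂ} (hz : z ∈ Om) :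
    Bf y f z = (∑ j, ‖y j‖ ^ 2) - 2 * (f * ∑ j, y j * W j z).re
      + ‖f‖ ^ 2 * (∑ j, ‖W j z‖ ^ 2) / 2 := by
  have h1 : ∀ j, ‖y j - hre (fun _ => f * W j z) 0‖ ^ 2 = ‖y j‖ ^ 2 - 2 * (f * (y j * W j z)).re
      + ‖f‖ ^ 2 * ‖W j z‖ ^ 2 / 2 + ((f ^ 2 * (W j z * W j z)).re) / 2 := by
    intro j
    have hyi : (y j).im = 0 := Complex.conj_eq_iff_im.mp (hy j)
    have hy' : y j = ((y j).re : ℂ) := by apply Complex.ext <;> simp [hyi]
    rw [hy']
    have : hre (fun _ => f * W j z) 0 = (((f * W j z).re : ℝ) : ℂ) := by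
      rw [hre, Complex.add_conj]; push_cast; ring
    rw [this, ← Complex.ofReal_sub, Complex.norm_real, Complex.norm_real]
    simp only [← Complex.normSq_eq_norm_sq, Real.norm_eq_abs, sq_abs]
    simp only [Complex.normSq_apply, Complex.mul_re, Complex.mul_im,
      Complex.ofReal_re, Complex.ofReal_im, pow_two]
    ring
  rw [Bf]
  simp only [h1]
  rw [Finset.sum_add_distrib, Finset.sum_add_distrib, Finset.sum_sub_distrib, ← Finset.mul_sum,
    ← Finset.sum_div, ← Finset.sum_div, ← Finset.mul_sum, ← Complex.re_sum, ← Complex.re_sum,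
    ← Finset.mul_sum, ← Finset.mul_sum, W_sq hz]
  simp

lemma P_nonneg {y : Fin 4 → ℂ} (hy : ∀ j, conj (y j) = y j) {z : ℂ} (hz : z ∈ Om) :
    0 ≤ (∑ j, ‖y j‖ ^ 2) - 2 * ‖∑ j, y j * W j z‖ ^ 2 / (∑ j, ‖W j z‖ ^ 2) := by
  have hN := N_pos hz
  set N := ∑ j, ‖W j z‖ ^ 2
  set s := ∑ j, y j * W j z
  have h := Bf_eq hy (conj s * (2 / N : ℝ)) hz
  have h0 : 0 ≤ Bf y (conj s * (2 / N : ℝ)) z := Finset.sum_nonneg fun j _ => by positivity
  rw [h] at h0
  have e1 : (conj s * (2 / N : ℝ) * s).re = 2 / N * ‖s‖ ^ 2 := by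
    have : conj s * (2 / N : ℝ) * s = ((2 / N * ‖s‖ ^ 2 : ℝ) : ℂ) := by
      rw [mul_right_comm, mul_comm (conj s) s, Complex.mul_conj, Complex.normSq_eq_norm_sq]
      push_cast; ring
    rw [this, Complex.ofReal_re]
  have e2 : ‖conj s * (2 / N : ℝ)‖ ^ 2 = 4 / N ^ 2 * ‖s‖ ^ 2 := by
    rw [norm_mul, RCLike.norm_conj, Complex.norm_real, Real.norm_of_nonneg (by positivity), mul_pow,
      div_pow]
    norm_num
    ring
  change 0 ≤ (∑ j, ‖y j‖ ^ 2) - 2 * (conj s * (2 / N : ℝ) * s).re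
    + ‖conj s * (2 / N : ℝ)‖ ^ 2 * N / 2 at h0
  rw [e1, e2] at h0
  have : (∑ j, ‖y j‖ ^ 2) - 2 * ‖s‖ ^ 2 / N = (∑ j, ‖y j‖ ^ 2) - 2 * (2 / N * ‖s‖ ^ 2)
      + 4 / N ^ 2 * ‖s‖ ^ 2 * N / 2 := by
    field_simp; ring
  rw [this]; exact h0

variable {χ : ℂ → ℂ} {H H' : Fin 4 → ℂ → ℂ}

/-- The cut-off field. -/
noncomputable def cutF (χ : ℂ → ℂ) (H : Fin 4 → ℂ → ℂ) (j : Fin 4) (z : ℂ) : ℂ := χ z * hre (H j) z

lemma tst_cutF (hχ : Tst χ) (hH : ∀ j, ∀ z ∈ Om, HasDerivAt (H j) (H' j z) z) (j : Fin 4) :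
    Tst (cutF χ H j) :=
  hχ.mul (contDiffOn_hre fun z hz => (hH j z hz).differentiableAt)

lemma cutF_real (hχr : ∀ z, conj (χ z) = χ z) (j : Fin 4) (z : ℂ) :
    conj (cutF χ H j z) = cutF χ H j z := by
  rw [cutF, map_mul, hχr, conj_hre]

/-- Upper estimate for the second variation of the cut-off field. -/
theorem En_cut_le (hχ : Tst χ) (hχr : ∀ z, conj (χ z) = χ z)
    (hχi : ∀ z ∈ Om, χ (iot z) = χ z)
    (hH : ∀ j, ∀ z ∈ Om, HasDerivAt (H j) (H' j z) z)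
    (hH' : ∀ j, ∀ z ∈ Om, DifferentiableAt ℂ (H' j) z)
    (hHi : ∀ j, ∀ z ∈ Om, hre (H j) (iot z) = hre (H j) z)
    {R : ℂ → ℝ} (hR : Integrable R)
    (hle : ∀ z ∈ Om, ∃ f : ℂ, 2 * ‖dz χ z‖ ^ 2 * Bf (fun j => hre (H j) z) f z
      - 2 * (χ z * dzb χ z * f * ((∑ j, H' j z * W j z) / 2)).re ≤ R z) :
    En (nrm (cutF χ H)) ≤ ∫ z, R z := by
  have hY := tst_cutF (H := H) hχ hH
  have hYr := fun j z => cutF_real (H := H) hχr j z
  have hYi : ∀ j, ∀ z ∈ Om, cutF χ H j (iot z) = cutF χ H j z := by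
    intro j z hz; rw [cutF, cutF, hχi z hz, hHi j z hz]
  rw [En_nrm hY hYr hYi]
  have i1 : ∀ j, Integrable (fun z => ‖dz χ z‖ ^ 2 * ‖hre (H j) z‖ ^ 2) := fun j =>
    integrable_cut hχ (hH j)
  have e1 : ∑ j, ∫ z, ‖dz (cutF χ H j) z‖ ^ 2 = ∫ z, ‖dz χ z‖ ^ 2 * ∑ j, ‖hre (H j) z‖ ^ 2 := by
    have : ∀ j, ∫ z, ‖dz (cutF χ H j) z‖ ^ 2 = ∫ z, ‖dz χ z‖ ^ 2 * ‖hre (H j) z‖ ^ 2 := fun j =>
      energy_cut hχ hχr (hH j) (hH' j)
    simp only [this]
    rw [← integral_finsetSum _ fun j _ => i1 j]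
    simp only [Finset.mul_sum]
  have i2 : Integrable (fun z => ‖dz χ z‖ ^ 2 * ∑ j, ‖hre (H j) z‖ ^ 2) := by
    simp only [Finset.mul_sum]
    exact integrable_finsetSum _ fun j _ => i1 j
  -- integrability of the second term
  have i3 : Integrable (fun z => ‖∑ j, dz (cutF χ H j) z * W j z‖ ^ 2 / (∑ j, ‖W j z‖ ^ 2)) := by
    have hmeas : ∀ j, Continuous (fun z => dz (cutF χ H j) z * W j z) := by
      intro j
      have h1 := (hY j).dzCont
      rw [continuous_iff_continuousAt]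
      intro z
      by_cases hz : z ∈ tsupport (cutF χ H j)
      · exact h1.continuousAt.mul
          ((contDiffOn_W j).continuousOn.continuousAt (isOpen_Om.mem_nhds ((hY j).supp hz)))
      · have h2 : ∀ᶠ w in 𝓝 z, w ∉ tsupport (cutF χ H j) :=
          (isClosed_tsupport _).isOpen_compl.mem_nhds hz
        have h3 : (fun z => dz (cutF χ H j) z * W j z) =ᶠ[𝓝 z] fun _ => 0 := by
          filter_upwards [h2] with w hw
          rw [dz_eq_zero_of_notMem hw, zero_mul]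
        exact continuousAt_const.congr h3.symm
    have hc : Continuous (fun z => ‖∑ j, dz (cutF χ H j) z * W j z‖ ^ 2 / (∑ j, ‖W j z‖ ^ 2)) := by
      rw [continuous_iff_continuousAt]
      intro z
      by_cases hz : z ∈ tsupport χ
      · have hz' := hχ.supp hz
        apply ContinuousAt.div
        · exact ((continuous_finsetSum _ fun j _ => hmeas j).norm.pow 2).continuousAt
        · exact tendsto_finsetSum _ fun j _ =>
            ((contDiffOn_W j).continuousOn.continuousAt (isOpen_Om.mem_nhds hz')).norm.pow 2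
        · exact (N_pos hz').ne'
      · have h2 : ∀ᶠ w in 𝓝 z, w ∉ tsupport χ := (isClosed_tsupport _).isOpen_compl.mem_nhds hz
        have h3 : (fun z => ‖∑ j, dz (cutF χ H j) z * W j z‖ ^ 2 / (∑ j, ‖W j z‖ ^ 2))
            =ᶠ[𝓝 z] fun _ => 0 := by
          filter_upwards [h2] with w hw
          have : ∀ j, dz (cutF χ H j) w = 0 := fun j =>
            dz_eq_zero_of_notMem fun h => hw (tsupport_mul_subset_left h)
          simp [this]
        exact continuousAt_const.congr h3.symm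
    apply hc.integrable_of_hasCompactSupport
    apply HasCompactSupport.of_support_subset_isCompact hχ.cs
    intro z hz
    by_contra hcon
    have : ∀ j, dz (cutF χ H j) z = 0 := fun j =>
      dz_eq_zero_of_notMem fun h => hcon (tsupport_mul_subset_left h)
    apply hz
    simp [this]
  rw [e1, ← integral_const_mul, ← integral_sub i2 (i3.const_mul 2)]
  apply integral_mono_ae (i2.sub (i3.const_mul 2)) hR
  have hae : ∀ᵐ z : ℂ, z ∈ Om := by
    have h1 : Omᶜ ⊆ ({0, 1, -1} : Set ℂ) := by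
      intro z hz
      simp only [Om, mem_compl_iff, mem_ofPred_eq, not_and_or, not_not] at hz
      rcases hz with h | h | h
      · simp [h]
      · simp [sub_eq_zero.mp h]
      · simp [eq_neg_of_add_eq_zero_left h]
    rw [ae_iff]
    have h2 : ({a | a ∉ Om} : Set ℂ) ⊆ ({0, 1, -1} : Set ℂ) := h1
    exact measure_mono_null h2 ((Set.toFinite _).measure_zero _)
  filter_upwards [hae] with z hz
  obtain ⟨f, hf⟩ := hle z hz
  refine le_trans ?_ hf
  have hN := N_pos hz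
  have hder : ∑ j, dz (cutF χ H j) z * W j z
      = dz χ z * (∑ j, hre (H j) z * W j z) + ((χ z).re : ℂ) * ((∑ j, H' j z * W j z) / 2) := by
    have ec : (χ z).im = 0 := Complex.conj_eq_iff_im.mp (hχr z)
    have e2 : ((χ z).re : ℂ) = χ z := by apply Complex.ext <;> simp [ec]
    rw [e2, Finset.mul_sum, Finset.sum_div, Finset.mul_sum, ← Finset.sum_add_distrib]
    refine Finset.sum_congr rfl fun j _ => ?_
    have : dz (cutF χ H j) z = dz χ z * hre (H j) z + χ z * (H' j z / 2) := by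
      unfold cutF
      rw [dz_mul (hχ.diff z) (diff_hre (hH j z hz).differentiableAt), dz_hre (hH j z hz)]
    rw [this]; ring
  change ‖dz χ z‖ ^ 2 * ∑ j, ‖hre (H j) z‖ ^ 2
    - 2 * (‖∑ j, dz (cutF χ H j) z * W j z‖ ^ 2 / ∑ j, ‖W j z‖ ^ 2) ≤ _
  rw [hder, Bf_eq (fun j => conj_hre _ _) f hz, ← dz_real hχr (hχ.diff z)]
  have ec : (χ z).im = 0 := Complex.conj_eq_iff_im.mp (hχr z)
  have e2 : χ z = ((χ z).re : ℂ) := by apply Complex.ext <;> simp [ec]
  have := pt_ineq (c := (χ z).re) (a := dz χ z) (q := (∑ j, H' j z * W j z) / 2) (f := f) hN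
    (P_nonneg (y := fun j => hre (H j) z) (fun j => conj_hre _ _) hz)
  rw [← e2] at this
  rw [← e2]
  exact this

end Pool.Agent.Lib.Helper82.Mob
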