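import Pool.Agent.Lib.Helper82.Mob.Cutoff

/-!
# The negative direction: index at least one
-/

set_option autoImplicit false

open MeasureTheory Complex Set Topology Filter
open scoped ContDiff Real ComplexConjugate

namespace Pool.Agent.Lib.Helper82.Mob

/-- The Möbius map exchanging the two pairs of ends. -/
noncomputable def mob (z : ℂ) : ℂ := (z - 1) / (z + 1)

lemma mob_mem {z : ℂ} (hz : z ∈ Om) : mob z ∈ Om := by
  obtain ⟨h0, h1, h2⟩ := hz
  refine ⟨div_ne_zero h1 h2, ?_, ?_⟩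
  · have : mob z - 1 = -2 / (z + 1) := by rw [mob]; field_simp; ring
    rw [this]; exact div_ne_zero (by norm_num) h2
  · have : mob z + 1 = 2 * z / (z + 1) := by rw [mob]; field_simp; ring
    rw [this]; exact div_ne_zero (mul_ne_zero (by norm_num) h0) h2

lemma mob_inj {z w : ℂ} (hz : z + 1 ≠ 0) (hw : w + 1 ≠ 0) (h : mob z = mob w) : z = w := by
  rw [mob, mob, div_eq_div_iff hz hw] at h
  linear_combination (1/2) * h

lemma mob_surj {w : ℂ} (hw : w ∈ Om) : ∃ z ∈ Om, mob z = w := by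
  obtain ⟨h0, h1, h2⟩ := hw
  have h1' : 1 - w ≠ 0 := by
    intro h; apply h1; linear_combination -h
  refine ⟨(1 + w) / (1 - w), ⟨?_, ?_, ?_⟩, ?_⟩
  · exact div_ne_zero (by rw [add_comm]; exact h2) h1'
  · have : (1 + w) / (1 - w) - 1 = 2 * w / (1 - w) := by field_simp; ring
    rw [this]; exact div_ne_zero (mul_ne_zero (by norm_num) h0) h1'
  · have : (1 + w) / (1 - w) + 1 = 2 / (1 - w) := by field_simp; ring
    rw [this]; exact div_ne_zero (by norm_num) h1'
  · rw [mob]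
    have e1 : (1 + w) / (1 - w) - 1 = 2 * w / (1 - w) := by field_simp; ring
    have e2 : (1 + w) / (1 - w) + 1 = 2 / (1 - w) := by field_simp; ring
    rw [e1, e2]
    field_simp

lemma image_mob : mob '' Om = Om := by
  ext w; constructor
  · rintro ⟨z, hz, rfl⟩; exact mob_mem hz
  · intro hw; obtain ⟨z, hz, h⟩ := mob_surj hw; exact ⟨z, hz, h⟩

lemma hasDerivAt_mob {z : ℂ} (hz : z + 1 ≠ 0) : HasDerivAt mob (2 / (z + 1) ^ 2) z := by
  have h1 : HasDerivAt (fun w : ℂ => w - 1) 1 z := (hasDerivAt_id z).sub_const 1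
  have h2 : HasDerivAt (fun w : ℂ => w + 1) 1 z := (hasDerivAt_id z).add_const 1
  refine (h1.fun_div h2 hz).congr_deriv ?_
  field_simp; ring

lemma mob_iot {z : ℂ} (hz : z ∈ Om) : mob (iot z) = iot (mob z) := by
  obtain ⟨h0, h1, h2⟩ := hz
  have c0 : conj z ≠ 0 := by simpa using h0
  have c1 : conj z - 1 ≠ 0 := by
    have := (map_ne_zero (starRingEnd ℂ)).mpr h1
    simpa using this
  have c2 : conj z + 1 ≠ 0 := by
    have := (map_ne_zero (starRingEnd ℂ)).mpr h2
    simpa using this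
  rw [mob, iot, iot, mob, map_div₀, map_add, map_sub, map_one]
  have e1 : -(conj z)⁻¹ - 1 = - ((conj z + 1) / conj z) := by field_simp; ring
  have e2 : -(conj z)⁻¹ + 1 = (conj z - 1) / conj z := by field_simp; ring
  rw [e1, e2]
  field_simp

/-- The second cut-off function. -/
noncomputable def cb (L : ℝ) (z : ℂ) : ℂ := ca L (mob z)

variable {L : ℝ}

lemma cb_real (L : ℝ) (z : ℂ) : conj (cb L z) = cb L z := ca_real L _

lemma cb_support (hL : 0 < L) {z : ℂ} (h : cb L z ≠ 0) :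
    z + 1 ≠ 0 ∧ Real.exp (-(2 * L)) * ‖z + 1‖ ≤ ‖z - 1‖ ∧ ‖z - 1‖ ≤ Real.exp (2 * L) * ‖z + 1‖ := by
  have h1 : z + 1 ≠ 0 := by
    intro h0; apply h; rw [cb, mob, h0, div_zero, ca_zero]
  have hp : 0 < ‖z + 1‖ := norm_pos_iff.mpr h1
  obtain ⟨h2, h3⟩ := ca_support hL h
  rw [mob, norm_div] at h2 h3
  refine ⟨h1, ?_, ?_⟩
  · rwa [le_div_iff₀ hp] at h2
  · rwa [div_le_iff₀ hp] at h3

lemma cb_eventually_zero (hL : 0 < L) : cb L =ᶠ[𝓝 (-1)] fun _ => 0 := by
  have h : ∀ᶠ z : ℂ in 𝓝 (-1), Real.exp (2 * L) * ‖z + 1‖ < ‖z - 1‖ := by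
    have hc : ContinuousAt (fun z : ℂ => ‖z - 1‖ - Real.exp (2 * L) * ‖z + 1‖) (-1) := by fun_prop
    have h0 : (0:ℝ) < ‖(-1:ℂ) - 1‖ - Real.exp (2 * L) * ‖(-1:ℂ) + 1‖ := by
      norm_num
    filter_upwards [hc.eventually (lt_mem_nhds h0)] with z hz
    linarith
  filter_upwards [h] with z hz
  by_contra hcon
  exact absurd (cb_support hL hcon).2.2 (not_le.mpr hz)

lemma contDiff_cb (hL : 0 < L) : ContDiff ℝ ∞ (cb L) := by
  rw [contDiff_iff_contDiffAt]
  intro z
  by_cases hz : z + 1 = 0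
  · rw [eq_neg_of_add_eq_zero_left hz]
    exact contDiffAt_const.congr_of_eventuallyEq (cb_eventually_zero hL)
  · have h1 : ContDiffAt ℝ ∞ mob z := by
      have : ContDiffAt ℂ ∞ mob z := by
        unfold mob
        exact (contDiffAt_id.sub contDiffAt_const).div (contDiffAt_id.add contDiffAt_const) hz
      exact this.restrict_scalars ℝ
    exact (contDiff_ca hL).contDiffAt.comp z h1

lemma dz_comp_holo {f m : ℂ → ℂ} {z m' : ℂ} (hm : HasDerivAt m m' z)
    (hf : DifferentiableAt ℝ f (m z)) : dz (fun w => f (m w)) z = dz f (m z) * m' := by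
  have h1 : HasFDerivAt m ((ContinuousLinearMap.toSpanSingleton ℂ m').restrictScalars ℝ) z :=
    hm.hasFDerivAt.restrictScalars ℝ
  have h2 : HasFDerivAt (fun w => f (m w)) _ z := hf.hasFDerivAt.comp z h1
  rw [dz, dz, h2.fderiv]
  have hv : ∀ v : ℂ, fderiv ℝ f (m z) v
      = v.re * fderiv ℝ f (m z) 1 + v.im * fderiv ℝ f (m z) I := by
    intro v
    conv_lhs => rw [show v = v.re • (1:ℂ) + v.im • I by simp]
    rw [map_add, map_smul, map_smul]
    simp
  simp only [ContinuousLinearMap.comp_apply, ContinuousLinearMap.coe_restrictScalars',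
    ContinuousLinearMap.toSpanSingleton_apply, smul_eq_mul, one_mul]
  rw [hv m', hv (I * m')]
  have e1 : m' = m'.re + m'.im * I := (Complex.re_add_im m').symm
  have e2 : (I * m').re = - m'.im := by simp
  have e3 : (I * m').im = m'.re := by simp
  rw [e2, e3]
  conv_rhs => rw [show m' = m'.re + m'.im * I from e1]
  push_cast
  linear_combination (1/2 * m'.im * fderiv ℝ f (m z) I) * I_mul_I

lemma energy_cb {M : ℝ} (hM : ∀ s, |deriv eta s| ≤ M) (hL : 0 < L) :
    ∫ z, ‖dz (cb L) z‖ ^ 2 ≤ 2 * π * M ^ 2 / L := by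
  refine le_trans (le_of_eq ?_) (energy_ca hM hL)
  have hnull : ∀ᵐ z : ℂ, z ∈ Om := by
    have h1 : ({a | a ∉ Om} : Set ℂ) ⊆ ({0, 1, -1} : Set ℂ) := by
      intro z hz
      simp only [Om, mem_ofPred_eq, not_and_or, not_not] at hz
      rcases hz with h | h | h
      · simp [h]
      · simp [sub_eq_zero.mp h]
      · simp [eq_neg_of_add_eq_zero_left h]
    rw [ae_iff]
    exact measure_mono_null h1 ((Set.toFinite _).measure_zero _)
  have hrest : (volume : Measure ℂ).restrict Om = volume := by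
    rw [Measure.restrict_eq_self_of_ae_mem hnull]
  have h := integral_image_eq_integral_abs_det_fderiv_smul volume (s := Om) (f := mob)
    (f' := fun z => (ContinuousLinearMap.toSpanSingleton ℂ (2 / (z + 1) ^ 2)).restrictScalars ℝ)
    isOpen_Om.measurableSet
    (fun z hz => ((hasDerivAt_mob hz.2.2).hasFDerivAt.restrictScalars ℝ).hasFDerivWithinAt)
    (fun a ha b hb hab => mob_inj ha.2.2 hb.2.2 hab) (fun z => ‖dz (ca L) z‖ ^ 2)
  rw [image_mob] at h
  rw [← hrest, h]
  refine setIntegral_congr_fun isOpen_Om.measurableSet fun z hz => ?_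
  have h1 : dz (cb L) z = dz (ca L) (mob z) * (2 / (z + 1) ^ 2) :=
    dz_comp_holo (hasDerivAt_mob hz.2.2) ((contDiff_ca hL).differentiable (by simp) _)
  have h2 : |((ContinuousLinearMap.toSpanSingleton ℂ (2 / (z + 1) ^ 2)).restrictScalars ℝ).det|
      = ‖2 / (z + 1) ^ 2‖ ^ 2 := by
    rw [det_clm]
    simp only [ContinuousLinearMap.coe_restrictScalars',
      ContinuousLinearMap.toSpanSingleton_apply, smul_eq_mul, one_mul]
    rw [← Complex.normSq_eq_norm_sq, normSq_apply]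
    rw [Complex.I_mul_re, Complex.I_mul_im]
    rw [abs_of_nonneg]
    · ring
    · nlinarith [sq_nonneg (2 / (z + 1) ^ 2 : ℂ).re, sq_nonneg (2 / (z + 1) ^ 2 : ℂ).im]
  rw [h1, h2, norm_mul, mul_pow, smul_eq_mul]
  ring

end Pool.Agent.Lib.Helper82.Mob
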