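import Pool.Agent.Lib.Helper82.Mob.Cover

/-!
# The surface is properly embedded
-/

set_option autoImplicit false

open MeasureTheory Complex Set Topology Filter
open scoped ContDiff Real ComplexConjugate RealInnerProductSpace

namespace Pool.Agent.Lib.Helper82.Mob

/-- The first linear function of `u`. -/
noncomputable def zt (a : ℂ) : ℂ := a - (conj a)⁻¹

lemma zt_bound {a : ℂ} (ha : a ≠ 0) {c : ℝ} (h : ‖zt a‖ ≤ c) :
    ‖a‖ ≤ c + 1 ∧ 1 ≤ (c + 1) * ‖a‖ := by
  have hx : 0 < ‖a‖ := norm_pos_iff.mpr ha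
  have hc : 0 ≤ c := (norm_nonneg _).trans h
  have hn : ‖(conj a)⁻¹‖ = ‖a‖⁻¹ := by rw [norm_inv, RCLike.norm_conj]
  have h1 : ‖a‖ - ‖a‖⁻¹ ≤ c := by
    rw [← hn]; exact (norm_sub_norm_le _ _).trans h
  have h2 : ‖a‖⁻¹ - ‖a‖ ≤ c := by
    rw [← hn]
    have := norm_sub_norm_le (conj a)⁻¹ a
    rw [norm_sub_rev] at this
    exact this.trans h
  have hxi : ‖a‖ * ‖a‖⁻¹ = 1 := mul_inv_cancel₀ hx.ne'
  constructor
  · by_contra hcon
    rw [not_le] at hcon
    have h3 : 1 < ‖a‖⁻¹ := by linarith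
    have h4 : 1 < ‖a‖ := by linarith
    nlinarith
  · have h3 : ‖a‖⁻¹ ≤ c + 1 := by
      by_contra hcon
      rw [not_le] at hcon
      have h3 : 1 < ‖a‖ := by linarith
      have h4 : 1 < ‖a‖⁻¹ := by linarith
      nlinarith
    calc (1:ℝ) = ‖a‖⁻¹ * ‖a‖ := by rw [mul_comm]; exact hxi.symm
      _ ≤ (c + 1) * ‖a‖ := by gcongr

lemma zt_re (a : ℂ) : (zt a).re = (a - a⁻¹).re := by
  rw [zt, ← map_inv₀, Complex.sub_re, Complex.sub_re, Complex.conj_re]

lemma zt_im (a : ℂ) : (zt a).im = (a + a⁻¹).im := by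
  rw [zt, ← map_inv₀, Complex.sub_im, Complex.add_im, Complex.conj_im]; ring

lemma sqrt3_pos : 0 < Real.sqrt 3 := Real.sqrt_pos.mpr (by norm_num)

lemma uu_zero (z : ℂ) : uu z 0 = (z - z⁻¹).re + ((z - 1)⁻¹ + (z + 1)⁻¹).re := by
  simp only [uu, reV_apply, F, Matrix.cons_val_zero, Complex.add_re]; ring

lemma uu_one (z : ℂ) : uu z 1 = (z + z⁻¹).im := by
  simp only [uu, reV_apply, F, Matrix.cons_val_one, Matrix.cons_val]
  rw [neg_mul, Complex.neg_re, Complex.I_mul_re, neg_neg]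

lemma uu_two (z : ℂ) : uu z 2 = - Real.sqrt 3 * ((z - 1)⁻¹ + (z + 1)⁻¹).re := by
  simp only [uu, reV_apply, F, Matrix.cons_val]
  rw [s3, ← Complex.ofReal_neg, Complex.re_ofReal_mul]

lemma uu_three (z : ℂ) : uu z 3 = 2 * (1 + (z - 1)⁻¹ - (z + 1)⁻¹).im := by
  simp only [uu, reV_apply, F, Matrix.cons_val]
  have : -2 * I * (1 + (z - 1)⁻¹ - (z + 1)⁻¹)
      = ((-2:ℝ) : ℂ) * (I * (1 + (z - 1)⁻¹ - (z + 1)⁻¹)) := by push_cast; ring
  rw [this, Complex.re_ofReal_mul, Complex.I_mul_re]; ring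

lemma zt_z (z : ℂ) : zt z = ⟨uu z 0 + uu z 2 / Real.sqrt 3, uu z 1⟩ := by
  have h3 := sqrt3_pos.ne'
  apply Complex.ext
  · rw [zt_re, uu_zero, uu_two]
    field_simp
    ring
  · rw [zt_im, uu_one]

lemma mob_eq {z : ℂ} (hz : z ∈ Om) : mob z = 1 - 2 * (z + 1)⁻¹ := by
  have h2 := hz.2.2
  rw [mob]; field_simp; ring

lemma mob_inv {z : ℂ} (hz : z ∈ Om) : (mob z)⁻¹ = 1 + 2 * (z - 1)⁻¹ := by
  have h1 := hz.2.1
  have h2 := hz.2.2
  rw [mob, inv_div]; field_simp; ring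

lemma zt_mob {z : ℂ} (hz : z ∈ Om) : zt (mob z) = ⟨2 * uu z 2 / Real.sqrt 3, uu z 3⟩ := by
  have h3 := sqrt3_pos.ne'
  apply Complex.ext
  · rw [zt_re, uu_two, mob_inv hz, mob_eq hz]
    have : (1 - 2 * (z + 1)⁻¹ - (1 + 2 * (z - 1)⁻¹)) = ((-2:ℝ) : ℂ) * ((z - 1)⁻¹ + (z + 1)⁻¹) := by
      push_cast; ring
    rw [this, Complex.re_ofReal_mul]
    field_simp
  · rw [zt_im, uu_three, mob_inv hz, mob_eq hz]
    have : (1 - 2 * (z + 1)⁻¹ + (1 + 2 * (z - 1)⁻¹)) = ((2:ℝ) : ℂ) * (1 + (z - 1)⁻¹ - (z + 1)⁻¹) := by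
      push_cast; ring
    rw [this, Complex.im_ofReal_mul]

/-- Compact subsets of the domain. -/
def KK (C : ℝ) : Set ℂ :=
  {z | 1 ≤ C * ‖z‖ ∧ ‖z‖ ≤ C ∧ ‖z + 1‖ ≤ C * ‖z - 1‖ ∧ ‖z - 1‖ ≤ C * ‖z + 1‖}

lemma KK_sub (C : ℝ) : KK C ⊆ Om := by
  rintro z ⟨h1, h2, h3, h4⟩
  refine ⟨?_, ?_, ?_⟩
  · rintro rfl; simp at h1; linarith
  · intro h
    have e : z = 1 := sub_eq_zero.mp h
    subst e
    norm_num at h3
  · intro h
    have e : z = -1 := eq_neg_of_add_eq_zero_left h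
    subst e
    norm_num at h4

lemma isClosed_KK (C : ℝ) : IsClosed (KK C) := by
  have h1 : IsClosed {z : ℂ | 1 ≤ C * ‖z‖} := isClosed_le continuous_const (by fun_prop)
  have h2 : IsClosed {z : ℂ | ‖z‖ ≤ C} := isClosed_le (by fun_prop) continuous_const
  have h3 : IsClosed {z : ℂ | ‖z + 1‖ ≤ C * ‖z - 1‖} := isClosed_le (by fun_prop) (by fun_prop)
  have h4 : IsClosed {z : ℂ | ‖z - 1‖ ≤ C * ‖z + 1‖} := isClosed_le (by fun_prop) (by fun_prop)
  exact h1.inter (h2.inter (h3.inter h4))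

lemma isCompact_KK (C : ℝ) : IsCompact (KK C) := by
  apply (isCompact_closedBall (0:ℂ) C).of_isClosed_subset (isClosed_KK C)
  rintro z ⟨-, h, -⟩
  simpa using h

lemma abs_apply_le (x : E4) (j : Fin 4) : |x j| ≤ ‖x‖ := by
  have h : |x j| ^ 2 ≤ ‖x‖ ^ 2 := by
    rw [norm_sq_E4, sq_abs]
    exact Finset.single_le_sum (f := fun k => x k ^ 2) (fun k _ => sq_nonneg _) (Finset.mem_univ j)
  exact abs_le_of_sq_le_sq' h (norm_nonneg _) |>.2 |> fun h => by simpa using h

lemma sqrt3_ge : 1 ≤ Real.sqrt 3 := by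
  rw [Real.one_le_sqrt]; norm_num

theorem mem_KK {z : ℂ} (hz : z ∈ Om) {R : ℝ} (h : ‖uu z‖ ≤ R) : z ∈ KK (3 * R + 1) := by
  have h0 := (abs_apply_le (uu z) 0).trans h
  have h1 := (abs_apply_le (uu z) 1).trans h
  have h2 := (abs_apply_le (uu z) 2).trans h
  have h3 := (abs_apply_le (uu z) 3).trans h
  have hs := sqrt3_ge
  have hR : 0 ≤ R := (norm_nonneg _).trans h
  have h2' : |uu z 2 / Real.sqrt 3| ≤ R := by
    rw [abs_div, abs_of_pos sqrt3_pos, div_le_iff₀ sqrt3_pos]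
    nlinarith
  have e1 : ‖zt z‖ ≤ 3 * R := by
    refine (Complex.norm_le_abs_re_add_abs_im _).trans ?_
    rw [zt_z]
    have := abs_add_le (uu z 0) (uu z 2 / Real.sqrt 3)
    simp only
    linarith
  have e2 : ‖zt (mob z)‖ ≤ 3 * R := by
    refine (Complex.norm_le_abs_re_add_abs_im _).trans ?_
    rw [zt_mob hz]
    simp only
    rw [mul_div_assoc, abs_mul, abs_of_pos (by norm_num : (0:ℝ) < 2)]
    linarith
  obtain ⟨a1, a2⟩ := zt_bound hz.1 e1
  obtain ⟨b1, b2⟩ := zt_bound (mob_mem hz).1 e2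
  have hp : 0 < ‖z + 1‖ := norm_pos_iff.mpr hz.2.2
  have hm : ‖mob z‖ = ‖z - 1‖ / ‖z + 1‖ := by rw [mob, norm_div]
  rw [hm] at b1 b2
  refine ⟨a2, a1, ?_, ?_⟩
  · rw [← mul_div_assoc, le_div_iff₀ hp, one_mul] at b2
    exact b2
  · rwa [div_le_iff₀ hp] at b1

lemma zt_inj {a b : ℂ} (ha : a ≠ 0) (hb : b ≠ 0) (h : zt a = zt b) :
    b = a ∨ b = iot a ∨ (normSq a = 1 ∧ normSq b = 1) := by
  have ca : conj a ≠ 0 := by simpa using ha
  have cb : conj b ≠ 0 := by simpa using hb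
  have e1 : ((normSq a - 1 : ℝ) : ℂ) * conj b = ((normSq b - 1 : ℝ) : ℂ) * conj a := by
    have h1 : conj a * conj b * zt a = conj a * conj b * zt b := by rw [h]
    have h2 : conj a * conj b * zt a = (a * conj a) * conj b - conj b := by
      rw [zt]; field_simp
    have h3 : conj a * conj b * zt b = (b * conj b) * conj a - conj a := by
      rw [zt]; field_simp
    rw [h2, h3, Complex.mul_conj, Complex.mul_conj] at h1
    push_cast
    linear_combination h1
  have e2 : ((normSq a - 1 : ℝ) : ℂ) * b = ((normSq b - 1 : ℝ) : ℂ) * a := by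
    have := congrArg conj e1
    simpa only [map_mul, Complex.conj_ofReal, Complex.conj_conj] using this
  have e3 : (normSq a - 1) ^ 2 * normSq b = (normSq b - 1) ^ 2 * normSq a := by
    have h1 := congrArg normSq e2
    rw [normSq_mul, normSq_mul, normSq_ofReal, normSq_ofReal] at h1
    linarith
  have e4 : (normSq a - normSq b) * (normSq a * normSq b - 1) = 0 := by
    linear_combination e3
  rcases mul_eq_zero.mp e4 with h4 | h4
  · have h5 : normSq b = normSq a := by linarith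
    rw [h5] at e2
    by_cases h6 : normSq a = 1
    · exact Or.inr (Or.inr ⟨h6, h5.trans h6⟩)
    · left
      have h7 : ((normSq a - 1 : ℝ) : ℂ) ≠ 0 := by
        rw [Complex.ofReal_ne_zero]; exact sub_ne_zero.mpr h6
      exact mul_left_cancel₀ h7 e2
  · have hna : normSq a ≠ 0 := (Complex.normSq_pos.mpr ha).ne'
    by_cases h6 : normSq a = 1
    · right; right
      refine ⟨h6, ?_⟩
      rw [h6] at h4; linarith
    · right; left
      have h7 : ((normSq a - 1 : ℝ) : ℂ) ≠ 0 := by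
        rw [Complex.ofReal_ne_zero]; exact sub_ne_zero.mpr h6
      apply mul_left_cancel₀ h7
      rw [e2, iot]
      have h8 : ((normSq b - 1 : ℝ) : ℂ) * (a * conj a) = - ((normSq a - 1 : ℝ) : ℂ) := by
        rw [Complex.mul_conj]
        have : (normSq b - 1) * normSq a = -(normSq a - 1) := by linear_combination h4
        exact_mod_cast this
      apply mul_right_cancel₀ ca
      rw [mul_assoc, h8, mul_assoc]
      field_simp

theorem uu_inj {z w : ℂ} (hz : z ∈ Om) (hw : w ∈ Om) (h : uu z = uu w) : w = z ∨ w = iot z := by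
  have h1 : zt z = zt w := by rw [zt_z, zt_z, h]
  have h2 : zt (mob z) = zt (mob w) := by rw [zt_mob hz, zt_mob hw, h]
  rcases zt_inj hz.1 hw.1 h1 with c | c | ⟨c1, c2⟩
  · exact Or.inl c
  · exact Or.inr c
  rcases zt_inj (mob_mem hz).1 (mob_mem hw).1 h2 with d | d | ⟨d1, d2⟩
  · exact Or.inl (mob_inj hw.2.2 hz.2.2 d)
  · rw [← mob_iot hz] at d
    exact Or.inr (mob_inj hw.2.2 (iot_mem hz).2.2 d)
  have key : ∀ v : ℂ, v ∈ Om → normSq v = 1 → normSq (mob v) = 1 → v.re = 0 ∧ v.im ^ 2 = 1 := by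
    intro v hv e1 e2
    have hp : normSq (v + 1) ≠ 0 := (Complex.normSq_pos.mpr hv.2.2).ne'
    rw [mob, normSq_div, div_eq_one_iff_eq hp] at e2
    simp only [normSq_apply, Complex.sub_re, Complex.sub_im, Complex.add_re, Complex.add_im,
      Complex.one_re, Complex.one_im, sub_zero, add_zero] at e1 e2
    have h3 : v.re = 0 := by linarith
    refine ⟨h3, ?_⟩
    rw [h3] at e1; linarith
  obtain ⟨z1, z2⟩ := key z hz c1 d1
  obtain ⟨w1, w2⟩ := key w hw c2 d2
  have h3 : (w.im - z.im) * (w.im + z.im) = 0 := by linear_combination w2 - z2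
  rcases mul_eq_zero.mp h3 with h4 | h4
  · left
    apply Complex.ext
    · rw [w1, z1]
    · linarith
  · right
    have h5 : iot z = - z := by
      rw [iot]
      have : z * conj z = 1 := by rw [Complex.mul_conj, c1]; simp
      rw [← eq_inv_of_mul_eq_one_left this]
    rw [h5]
    apply Complex.ext
    · rw [Complex.neg_re, w1, z1, neg_zero]
    · rw [Complex.neg_im]; linarith

lemma continuous_uu_restrict : Continuous (fun z : Om => uu z) :=
  continuousOn_iff_continuous_domRestrict.mp contDiffOn_uu.continuousOn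

theorem isProperMap_uu : IsProperMap (fun z : Om => uu z) := by
  rw [isProperMap_iff_isCompact_preimage]
  refine ⟨continuous_uu_restrict, fun K hK => ?_⟩
  obtain ⟨R, hR⟩ := hK.isBounded.exists_norm_le
  have h1 : IsCompact ((fun z : Om => (z : ℂ)) ⁻¹' KK (3 * R + 1)) := by
    rw [Subtype.isCompact_iff, Subtype.image_preimage_coe, inter_eq_right.mpr (KK_sub _)]
    exact isCompact_KK _
  refine h1.of_isClosed_subset (hK.isClosed.preimage continuous_uu_restrict) ?_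
  intro z hz
  exact mem_KK z.2 (hR _ hz)

theorem isEmbeddedSurface : IsEmbeddedSurface Om iot uu := by
  have hrel : ∀ a b : Om, coverRel Om iot a b → uu a = uu b := by
    rintro a b (h | h)
    · rw [h]
    · rw [h, uu_iot a.2]
  have hcont : Continuous (Quot.lift (fun z : Om => uu z) hrel) :=
    continuous_quot_lift hrel continuous_uu_restrict
  refine ⟨Quot.lift (fun z : Om => uu z) hrel, fun z => rfl, ?_⟩
  apply IsClosedEmbedding.isEmbedding
  apply IsClosedEmbedding.of_continuous_injective_isClosedMap hcont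
  · intro x y
    induction x using Quot.ind with | _ a => ?_
    induction y using Quot.ind with | _ b => ?_
    intro h
    exact Quot.sound (uu_inj a.2 b.2 h)
  · intro C hC
    have h1 : Quot.lift (fun z : Om => uu z) hrel '' C
        = (fun z : Om => uu z) '' (Quot.mk (coverRel Om iot) ⁻¹' C) := by
      ext p
      constructor
      · rintro ⟨x, hx, rfl⟩
        induction x using Quot.ind with | _ a => ?_
        exact ⟨a, hx, rfl⟩
      · rintro ⟨a, ha, rfl⟩
        exact ⟨Quot.mk _ a, ha, rfl⟩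
    rw [h1]
    exact isProperMap_uu.isClosedMap _ (hC.preimage continuous_quot_mk)

end Pool.Agent.Lib.Helper82.Mob
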