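import Mathlib

/-!
# The Weierstrass data of the surface
-/

set_option autoImplicit false

open MeasureTheory Complex Set Topology Filter
open scoped ContDiff Real ComplexConjugate

namespace Pool.Agent.Lib.Helper82.Mob

/-- The plane with `0, 1, -1` removed. -/
def Om : Set ℂ := {z | z ≠ 0 ∧ z - 1 ≠ 0 ∧ z + 1 ≠ 0}

lemma isOpen_Om : IsOpen Om := by
  have h1 : IsOpen {z : ℂ | z ≠ 0} := isOpen_ne
  have h2 : IsOpen {z : ℂ | z - 1 ≠ 0} := isOpen_ne_fun (by fun_prop) continuous_const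
  have h3 : IsOpen {z : ℂ | z + 1 ≠ 0} := isOpen_ne_fun (by fun_prop) continuous_const
  exact (h1.inter (h2.inter h3))

/-- `√3` as a complex number. -/
noncomputable def s3 : ℂ := ((Real.sqrt 3 : ℝ) : ℂ)

lemma s3_sq : s3 ^ 2 = 3 := by
  rw [s3, ← Complex.ofReal_pow, Real.sq_sqrt (by norm_num)]; norm_num

lemma conj_s3 : conj s3 = s3 := Complex.conj_ofReal _

/-- The holomorphic primitives: `u = Re F`. -/
noncomputable def F (j : Fin 4) (z : ℂ) : ℂ :=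
  ![z - z⁻¹ + (z - 1)⁻¹ + (z + 1)⁻¹, - I * (z + z⁻¹), - s3 * ((z - 1)⁻¹ + (z + 1)⁻¹),
    - 2 * I * (1 + (z - 1)⁻¹ - (z + 1)⁻¹)] j

/-- `W = F'`. -/
noncomputable def W (j : Fin 4) (z : ℂ) : ℂ :=
  ![1 + (z ^ 2)⁻¹ - ((z - 1) ^ 2)⁻¹ - ((z + 1) ^ 2)⁻¹, - I * (1 - (z ^ 2)⁻¹),
    s3 * (((z - 1) ^ 2)⁻¹ + ((z + 1) ^ 2)⁻¹), 2 * I * (((z - 1) ^ 2)⁻¹ - ((z + 1) ^ 2)⁻¹)] j

/-- `V = F''`. -/
noncomputable def V (j : Fin 4) (z : ℂ) : ℂ :=
  ![- 2 * (z ^ 3)⁻¹ + 2 * ((z - 1) ^ 3)⁻¹ + 2 * ((z + 1) ^ 3)⁻¹, - 2 * I * (z ^ 3)⁻¹,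
    - 2 * s3 * (((z - 1) ^ 3)⁻¹ + ((z + 1) ^ 3)⁻¹),
    - 4 * I * (((z - 1) ^ 3)⁻¹ - ((z + 1) ^ 3)⁻¹)] j

lemma hasDerivAt_inv_shift {z c : ℂ} (h : z + c ≠ 0) :
    HasDerivAt (fun w : ℂ => (w + c)⁻¹) (-((z + c) ^ 2)⁻¹) z := by
  have h1 : HasDerivAt (fun w : ℂ => w + c) 1 z := (hasDerivAt_id z).add_const c
  have h2 := h1.fun_inv h
  refine h2.congr_deriv ?_
  rw [neg_div, one_div]

lemma hasDerivAt_inv_sq_shift {z c : ℂ} (h : z + c ≠ 0) :
    HasDerivAt (fun w : ℂ => ((w + c) ^ 2)⁻¹) (-2 * ((z + c) ^ 3)⁻¹) z := by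
  have h1 : HasDerivAt (fun w : ℂ => w + c) 1 z := (hasDerivAt_id z).add_const c
  have h2 := (h1.fun_pow 2).fun_inv (pow_ne_zero 2 h)
  refine h2.congr_deriv ?_
  field_simp
  norm_num
  ring

lemma hasDerivAt_F (j : Fin 4) {z : ℂ} (hz : z ∈ Om) : HasDerivAt (F j) (W j z) z := by
  obtain ⟨h0, h1, h2⟩ := hz
  have a0 : HasDerivAt (fun w : ℂ => w⁻¹) (-(z ^ 2)⁻¹) z := by
    have := hasDerivAt_inv_shift (z := z) (c := 0) (by simpa using h0)
    simpa using this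
  have a1 : HasDerivAt (fun w : ℂ => (w - 1)⁻¹) (-((z - 1) ^ 2)⁻¹) z :=
    hasDerivAt_inv_shift (z := z) (c := -1) h1
  have a2 : HasDerivAt (fun w : ℂ => (w + 1)⁻¹) (-((z + 1) ^ 2)⁻¹) z :=
    hasDerivAt_inv_shift (z := z) (c := 1) h2
  have aid : HasDerivAt (fun w : ℂ => w) 1 z := hasDerivAt_id z
  fin_cases j
  · refine (((aid.fun_sub a0).fun_add a1).fun_add a2).congr_deriv ?_
    simp [W]; try ring
  · refine ((aid.fun_add a0).const_mul (-I)).congr_deriv ?_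
    simp [W]; ring
  · refine ((a1.fun_add a2).const_mul (-s3)).congr_deriv ?_
    simp [W]; ring
  · refine (((a1.const_add (1:ℂ)).fun_sub a2).const_mul (-2 * I)).congr_deriv ?_
    simp [W]; ring

lemma hasDerivAt_W (j : Fin 4) {z : ℂ} (hz : z ∈ Om) : HasDerivAt (W j) (V j z) z := by
  obtain ⟨h0, h1, h2⟩ := hz
  have a0 : HasDerivAt (fun w : ℂ => (w ^ 2)⁻¹) (-2 * (z ^ 3)⁻¹) z := by
    have := hasDerivAt_inv_sq_shift (z := z) (c := 0) (by simpa using h0)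
    simpa using this
  have a1 : HasDerivAt (fun w : ℂ => ((w - 1) ^ 2)⁻¹) (-2 * ((z - 1) ^ 3)⁻¹) z :=
    hasDerivAt_inv_sq_shift (z := z) (c := -1) h1
  have a2 : HasDerivAt (fun w : ℂ => ((w + 1) ^ 2)⁻¹) (-2 * ((z + 1) ^ 3)⁻¹) z :=
    hasDerivAt_inv_sq_shift (z := z) (c := 1) h2
  fin_cases j
  · refine (((a0.const_add (1:ℂ)).fun_sub a1).fun_sub a2).congr_deriv ?_
    simp [V]
  · refine ((a0.const_sub (1:ℂ)).const_mul (-I)).congr_deriv ?_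
    simp [V]; ring
  · refine ((a1.fun_add a2).const_mul s3).congr_deriv ?_
    simp [V]; ring
  · refine ((a1.fun_sub a2).const_mul (2 * I)).congr_deriv ?_
    simp [V]; ring

/-- The common denominator. -/
noncomputable def den (z : ℂ) : ℂ := z ^ 2 * (z ^ 2 - 1) ^ 2

lemma den_ne {z : ℂ} (hz : z ∈ Om) : den z ≠ 0 := by
  obtain ⟨h0, h1, h2⟩ := hz
  have : z ^ 2 - 1 = (z - 1) * (z + 1) := by ring
  rw [den, this]
  exact mul_ne_zero (pow_ne_zero 2 h0) (pow_ne_zero 2 (mul_ne_zero h1 h2))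

/-- The numerator polynomial of the kernel. -/
noncomputable def nn (z w : ℂ) : ℂ :=
  (z ^ 4 + w ^ 4) - 3 * (z ^ 2 + w ^ 2) - 6 * z * w + 2 * z * w * (z ^ 2 + w ^ 2)
    + 18 * z ^ 2 * w ^ 2 - 3 * z ^ 2 * w ^ 2 * (z ^ 2 + w ^ 2) - 6 * z ^ 3 * w ^ 3

/-- `W(z)·W(w)` vanishes to second order on the diagonal, with explicit quotient. -/
lemma W_dot_W {z w : ℂ} (hz : z ∈ Om) (hw : w ∈ Om) :
    ∑ j, W j z * W j w = (z - w) ^ 2 * (2 * nn z w / (den z * den w)) := by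
  have hdz := den_ne hz
  have hdw := den_ne hw
  obtain ⟨h0, h1, h2⟩ := hz
  obtain ⟨k0, k1, k2⟩ := hw
  have ez : z ^ 2 - 1 = (z - 1) * (z + 1) := by ring
  have ew : w ^ 2 - 1 = (w - 1) * (w + 1) := by ring
  simp only [Fin.sum_univ_four, W, den, nn, ez, ew]
  simp only [Matrix.cons_val_zero, Matrix.cons_val_one, Matrix.cons_val]
  have hs := s3_sq
  have hI := I_sq
  have e1 : s3 * (((z - 1) ^ 2)⁻¹ + ((z + 1) ^ 2)⁻¹) * (s3 * (((w - 1) ^ 2)⁻¹ + ((w + 1) ^ 2)⁻¹))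
      = 3 * ((((z - 1) ^ 2)⁻¹ + ((z + 1) ^ 2)⁻¹) * (((w - 1) ^ 2)⁻¹ + ((w + 1) ^ 2)⁻¹)) := by
    rw [← hs]; ring
  have e2 : -I * (1 - (z ^ 2)⁻¹) * (-I * (1 - (w ^ 2)⁻¹)) = -((1 - (z ^ 2)⁻¹) * (1 - (w ^ 2)⁻¹)) := by
    linear_combination ((1 - (z ^ 2)⁻¹) * (1 - (w ^ 2)⁻¹)) * hI
  have e3 : 2 * I * (((z - 1) ^ 2)⁻¹ - ((z + 1) ^ 2)⁻¹) * (2 * I * (((w - 1) ^ 2)⁻¹ - ((w + 1) ^ 2)⁻¹))
      = -4 * ((((z - 1) ^ 2)⁻¹ - ((z + 1) ^ 2)⁻¹) * (((w - 1) ^ 2)⁻¹ - ((w + 1) ^ 2)⁻¹)) := by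
    linear_combination (4 * ((((z - 1) ^ 2)⁻¹ - ((z + 1) ^ 2)⁻¹) * (((w - 1) ^ 2)⁻¹ - ((w + 1) ^ 2)⁻¹))) * hI
  rw [e1, e2, e3]
  field_simp
  ring

lemma W_sq {z : ℂ} (hz : z ∈ Om) : ∑ j, W j z * W j z = 0 := by
  rw [W_dot_W hz hz]; ring

lemma W_V {z : ℂ} (hz : z ∈ Om) : ∑ j, W j z * V j z = 0 := by
  have h1 : HasDerivAt (fun w => ∑ j, W j w * W j w) (∑ j, (V j z * W j z + W j z * V j z)) z :=
    HasDerivAt.fun_sum fun j _ => (hasDerivAt_W j hz).mul (hasDerivAt_W j hz)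
  have h2 : (fun w => ∑ j, W j w * W j w) =ᶠ[𝓝 z] fun _ => 0 := by
    filter_upwards [isOpen_Om.mem_nhds hz] with w hw using W_sq hw
  have h3 := (h1.congr_of_eventuallyEq h2.symm).unique (hasDerivAt_const z (0:ℂ))
  have h4 : ∑ j, (V j z * W j z + W j z * V j z) = 2 * ∑ j, W j z * V j z := by
    rw [Finset.mul_sum]; exact Finset.sum_congr rfl fun j _ => by ring
  rw [h4] at h3
  simpa using h3

/-- The (complex valued) function `N = ∑ |W_j|²`. -/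
noncomputable def NN (z : ℂ) : ℂ := ∑ j, W j z * conj (W j z)

lemma NN_eq (z : ℂ) : NN z = ((∑ j, ‖W j z‖ ^ 2 : ℝ) : ℂ) := by
  rw [NN]
  push_cast
  refine Finset.sum_congr rfl fun j _ => ?_
  rw [Complex.mul_conj, Complex.normSq_eq_norm_sq]
  push_cast; rfl

lemma W_ne_zero {z : ℂ} (hz : z ∈ Om) : ∃ j, W j z ≠ 0 := by
  by_contra hcon
  push Not at hcon
  obtain ⟨h0, h1, h2⟩ := hz
  have c1 := hcon 1
  have c3 := hcon 3
  simp only [W, Matrix.cons_val_one, Matrix.cons_val] at c1 c3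
  have e1 : z ^ 2 = 1 := by
    have : (1 - (z ^ 2)⁻¹) = 0 := by
      rcases mul_eq_zero.mp c1 with h | h
      · exact absurd (neg_eq_zero.mp h) I_ne_zero
      · exact h
    have h3 : (z ^ 2)⁻¹ = 1 := by linear_combination -this
    rw [inv_eq_one] at h3
    exact h3
  have : (z - 1) * (z + 1) = 0 := by linear_combination e1
  rcases mul_eq_zero.mp this with h | h
  · exact h1 h
  · exact h2 h

lemma N_pos {z : ℂ} (hz : z ∈ Om) : 0 < ∑ j, ‖W j z‖ ^ 2 := by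
  obtain ⟨j, hj⟩ := W_ne_zero hz
  exact Finset.sum_pos' (fun i _ => by positivity) ⟨j, Finset.mem_univ _, by positivity⟩

lemma NN_ne {z : ℂ} (hz : z ∈ Om) : NN z ≠ 0 := by
  rw [NN_eq]
  exact_mod_cast (N_pos hz).ne'

/-- The involution. -/
noncomputable def iot (z : ℂ) : ℂ := - (conj z)⁻¹

lemma iot_mem {z : ℂ} (hz : z ∈ Om) : iot z ∈ Om := by
  obtain ⟨h0, h1, h2⟩ := hz
  have c0 : conj z ≠ 0 := by simpa using h0
  have c1 : conj z - 1 ≠ 0 := by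
    have := (map_ne_zero (starRingEnd ℂ)).mpr h1
    simpa using this
  have c2 : conj z + 1 ≠ 0 := by
    have := (map_ne_zero (starRingEnd ℂ)).mpr h2
    simpa using this
  refine ⟨neg_ne_zero.mpr (inv_ne_zero c0), ?_, ?_⟩
  · have : iot z - 1 = - ((conj z + 1) * (conj z)⁻¹) := by
      rw [iot]; field_simp; ring
    rw [this]; exact neg_ne_zero.mpr (mul_ne_zero c2 (inv_ne_zero c0))
  · have : iot z + 1 = (conj z - 1) * (conj z)⁻¹ := by
      rw [iot]; field_simp; ring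
    rw [this]; exact mul_ne_zero c1 (inv_ne_zero c0)

lemma iot_iot (z : ℂ) : iot (iot z) = z := by
  simp [iot]

lemma iot_ne {z : ℂ} (hz : z ∈ Om) : iot z ≠ z := by
  intro h
  have h0 := hz.1
  have c0 : conj z ≠ 0 := by simpa using h0
  have h1 : z * conj z = -1 := by
    have : iot z * conj z = z * conj z := by rw [h]
    rw [← this, iot]; field_simp
  rw [Complex.mul_conj] at h1
  have h2 : Complex.normSq z = -1 := by exact_mod_cast h1
  linarith [Complex.normSq_nonneg z]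

lemma F_iot (j : Fin 4) {z : ℂ} (hz : z ∈ Om) : F j (iot z) = conj (F j z) := by
  obtain ⟨h0, h1, h2⟩ := iot_mem hz
  obtain ⟨k0, k1, k2⟩ := hz
  have c0 : conj z ≠ 0 := by simpa using k0
  have c1 : conj z - 1 ≠ 0 := by
    have := (map_ne_zero (starRingEnd ℂ)).mpr k1
    simpa using this
  have c2 : conj z + 1 ≠ 0 := by
    have := (map_ne_zero (starRingEnd ℂ)).mpr k2
    simpa using this
  have e1 : (iot z - 1)⁻¹ = - (conj z) * (conj z + 1)⁻¹ := by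
    have : iot z - 1 = - ((conj z + 1) * (conj z)⁻¹) := by
      rw [iot]; field_simp; ring
    rw [this, inv_neg, mul_inv, inv_inv]; ring
  have e2 : (iot z + 1)⁻¹ = (conj z) * (conj z - 1)⁻¹ := by
    have : iot z + 1 = (conj z - 1) * (conj z)⁻¹ := by
      rw [iot]; field_simp; ring
    rw [this, mul_inv, inv_inv]; ring
  have e0 : (iot z)⁻¹ = - conj z := by rw [iot, inv_neg, inv_inv]
  fin_cases j <;> simp only [F, Matrix.cons_val_zero, Matrix.cons_val_one, Matrix.cons_val,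
    Fin.mk_one, Fin.zero_eta, Fin.reduceFinMk, e0, e1, e2, map_add, map_sub, map_mul, map_neg,
    map_inv₀, map_one, conj_I, conj_s3, map_ofNat] <;> (try simp only [iot]) <;> field_simp <;> ring

lemma W_iot (j : Fin 4) {z : ℂ} (hz : z ∈ Om) : W j (iot z) = conj z ^ 2 * conj (W j z) := by
  obtain ⟨h0, h1, h2⟩ := iot_mem hz
  obtain ⟨k0, k1, k2⟩ := hz
  have c0 : conj z ≠ 0 := by simpa using k0
  have c1 : conj z - 1 ≠ 0 := by
    have := (map_ne_zero (starRingEnd ℂ)).mpr k1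
    simpa using this
  have c2 : conj z + 1 ≠ 0 := by
    have := (map_ne_zero (starRingEnd ℂ)).mpr k2
    simpa using this
  have e1 : ((iot z - 1) ^ 2)⁻¹ = (conj z) ^ 2 * ((conj z + 1) ^ 2)⁻¹ := by
    have : iot z - 1 = - ((conj z + 1) * (conj z)⁻¹) := by
      rw [iot]; field_simp; ring
    rw [this, neg_sq, mul_pow, mul_inv, inv_pow, inv_inv]; ring
  have e2 : ((iot z + 1) ^ 2)⁻¹ = (conj z) ^ 2 * ((conj z - 1) ^ 2)⁻¹ := by
    have : iot z + 1 = (conj z - 1) * (conj z)⁻¹ := by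
      rw [iot]; field_simp; ring
    rw [this, mul_pow, mul_inv, inv_pow, inv_inv]; ring
  have e0 : ((iot z) ^ 2)⁻¹ = (conj z) ^ 2 := by rw [iot, neg_sq, inv_pow, inv_inv]
  fin_cases j <;> simp only [W, Matrix.cons_val_zero, Matrix.cons_val_one, Matrix.cons_val,
    Fin.mk_one, Fin.zero_eta, Fin.reduceFinMk, e0, e1, e2, map_add, map_sub, map_mul, map_neg,
    map_inv₀, map_one, conj_I, conj_s3, map_ofNat, map_pow] <;> field_simp <;> ring

lemma V_iot (j : Fin 4) {z : ℂ} (hz : z ∈ Om) :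
    V j (iot z) = conj z ^ 3 * (2 * conj (W j z) + conj z * conj (V j z)) := by
  obtain ⟨h0, h1, h2⟩ := iot_mem hz
  obtain ⟨k0, k1, k2⟩ := hz
  have c0 : conj z ≠ 0 := by simpa using k0
  have c1 : conj z - 1 ≠ 0 := by
    have := (map_ne_zero (starRingEnd ℂ)).mpr k1
    simpa using this
  have c2 : conj z + 1 ≠ 0 := by
    have := (map_ne_zero (starRingEnd ℂ)).mpr k2
    simpa using this
  have e1 : ((iot z - 1) ^ 3)⁻¹ = - (conj z) ^ 3 * ((conj z + 1) ^ 3)⁻¹ := by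
    have : iot z - 1 = - ((conj z + 1) * (conj z)⁻¹) := by
      rw [iot]; field_simp; ring
    rw [this, neg_pow, mul_pow, mul_inv, mul_inv, inv_pow, inv_inv]; norm_num; ring
  have e2 : ((iot z + 1) ^ 3)⁻¹ = (conj z) ^ 3 * ((conj z - 1) ^ 3)⁻¹ := by
    have : iot z + 1 = (conj z - 1) * (conj z)⁻¹ := by
      rw [iot]; field_simp; ring
    rw [this, mul_pow, mul_inv, inv_pow, inv_inv]; ring
  have e0 : ((iot z) ^ 3)⁻¹ = - (conj z) ^ 3 := by
    rw [iot, neg_pow, mul_inv, inv_pow, inv_inv]; norm_num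
  fin_cases j <;> simp only [W, V, Matrix.cons_val_zero, Matrix.cons_val_one, Matrix.cons_val,
    Fin.mk_one, Fin.zero_eta, Fin.reduceFinMk, e0, e1, e2, map_add, map_sub, map_mul, map_neg,
    map_inv₀, map_one, conj_I, conj_s3, map_ofNat, map_pow] <;> field_simp <;> ring

lemma den_iot {z : ℂ} (hz : z ∈ Om) : den (iot z) * conj z ^ 8 = conj (den z) := by
  have k0 := hz.1
  have c0 : conj z ≠ 0 := by simpa using k0
  simp only [den, iot, map_mul, map_pow, map_sub, map_one]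
  field_simp
  ring

end Pool.Agent.Lib.Helper82.Mob
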