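import Pool.Agent.Lib.Helper82.Mob.Upper

/-!
# Behaviour under the involution
-/

set_option autoImplicit false

open MeasureTheory Complex Set Topology Filter
open scoped ContDiff Real ComplexConjugate

namespace Pool.Agent.Lib.Helper82.Mob

lemma det_clm (L : ℂ →L[ℝ] ℂ) : L.det = (L 1).re * (L I).im - (L I).re * (L 1).im := by
  rw [ContinuousLinearMap.det, ← LinearMap.det_toMatrix Complex.basisOneI, Matrix.det_fin_two]
  simp [LinearMap.toMatrix_apply]

/-- The derivative of the involution. -/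
noncomputable def iotD (z : ℂ) : ℂ →L[ℝ] ℂ :=
  ((conj z ^ 2)⁻¹) • (Complex.conjCLE : ℂ →L[ℝ] ℂ)

lemma hasFDerivAt_iot {z : ℂ} (hz : z ≠ 0) : HasFDerivAt iot (iotD z) z := by
  have c0 : conj z ≠ 0 := by simpa using hz
  have h1 : HasDerivAt (fun w : ℂ => - w⁻¹) ((conj z ^ 2)⁻¹) (conj z) := by
    have := (hasDerivAt_inv c0).fun_neg
    simpa using this
  have h2 : HasFDerivAt (fun w : ℂ => conj w) (Complex.conjCLE : ℂ →L[ℝ] ℂ) z :=
    (Complex.conjCLE : ℂ →L[ℝ] ℂ).hasFDerivAt
  have h3 := (h1.hasFDerivAt.restrictScalars ℝ).comp z h2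
  refine h3.congr_fderiv ?_
  ext v
  simp [iotD, mul_comm]

lemma det_smul_conj (c : ℂ) : (c • (Complex.conjCLE : ℂ →L[ℝ] ℂ)).det = - normSq c := by
  rw [det_clm, normSq_apply]
  simp
  ring

lemma det_iotD (z : ℂ) : (iotD z).det = - (normSq z ^ 2)⁻¹ := by
  rw [iotD, det_smul_conj, normSq_inv, map_pow, normSq_conj]

lemma abs_det_iotD (z : ℂ) : |(iotD z).det| = (normSq z ^ 2)⁻¹ := by
  rw [det_iotD, abs_neg, abs_of_nonneg]
  positivity

lemma image_iot : iot '' Om = Om := by
  ext z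
  constructor
  · rintro ⟨w, hw, rfl⟩; exact iot_mem hw
  · intro hz; exact ⟨iot z, iot_mem hz, iot_iot z⟩

/-- Change of variables by the involution. -/
lemma integral_iot (f : ℂ → ℂ) :
    ∫ z in Om, f z = ∫ z in Om, ((normSq z ^ 2)⁻¹ : ℝ) • f (iot z) := by
  have h := integral_image_eq_integral_abs_det_fderiv_smul volume (s := Om) (f := iot) (f' := iotD)
    isOpen_Om.measurableSet (fun z hz => (hasFDerivAt_iot hz.1).hasFDerivWithinAt)
    (by intro a _ b _ hab
        have := congrArg iot hab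
        rwa [iot_iot, iot_iot] at this) f
  rw [image_iot] at h
  simp only [abs_det_iotD] at h
  exact h

variable {X : Fin 4 → ℂ → ℂ}

lemma psi_iot (hX : TField X) {z : ℂ} (hz : z ∈ Om) : psi X (iot z) = conj z ^ 4 * conj (psi X z) := by
  have h1 : ∑ j, X j z * conj (W j z) = 0 := by
    have := congrArg conj (hX.normal z hz)
    rw [map_sum, map_zero] at this
    rw [← this]
    refine Finset.sum_congr rfl fun j _ => ?_
    rw [map_mul, hX.real]
  rw [psi, psi, map_sum, Finset.mul_sum]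
  have h2 : ∀ j, X j (iot z) * V j (iot z)
      = 2 * conj z ^ 3 * (X j z * conj (W j z)) + conj z ^ 4 * conj (X j z * V j z) := by
    intro j
    rw [hX.inv j z hz, V_iot j hz, map_mul, hX.real]
    ring
  simp only [h2]
  rw [Finset.sum_add_distrib, ← Finset.mul_sum, h1]
  ring

lemma NN_iot {z : ℂ} (hz : z ∈ Om) : NN (iot z) = conj z ^ 2 * z ^ 2 * NN z := by
  rw [NN, NN, Finset.mul_sum]
  refine Finset.sum_congr rfl fun j _ => ?_
  rw [W_iot j hz]
  simp only [map_mul, map_pow, Complex.conj_conj]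
  ring

lemma conj_NN (z : ℂ) : conj (NN z) = NN z := by
  rw [NN_eq, Complex.conj_ofReal]

lemma gg_iot (hX : TField X) {z : ℂ} (hz : z ∈ Om) :
    gg X (iot z) = conj (gg X z) * z ^ 2 * (conj z ^ 2)⁻¹ := by
  have h0 := hz.1
  have c0 : conj z ≠ 0 := by simpa using h0
  have hN := NN_ne hz
  rw [gg_eq hX, gg_eq hX, psi_iot hX hz, NN_iot hz]
  simp only [map_mul, map_pow, Complex.conj_conj, map_div₀, conj_NN]
  field_simp

lemma mom_eq (hX : ∀ j, Tst (X j)) (k : ℕ) :
    mom X k = ∫ w in Om, gg X w * (w ^ k * (den w)⁻¹) := by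
  rw [mom, setIntegral_eq_integral_of_forall_compl_eq_zero]
  intro z hz
  rw [(tst_gg hX).eq_zero hz, zero_mul]

/-- The symmetry of the moments. -/
lemma mom_symm (hX : TField X) {k : ℕ} (hk : k ≤ 4) :
    mom X k = (-1) ^ k * conj (mom X (4 - k)) := by
  rw [mom_eq hX.tst k, integral_iot, mom_eq hX.tst (4 - k), ← integral_conj, ← integral_const_mul]
  refine setIntegral_congr_fun isOpen_Om.measurableSet fun z hz => ?_
  have h0 := hz.1
  have c0 : conj z ≠ 0 := by simpa using h0
  have hd : den (iot z) ≠ 0 := den_ne (iot_mem hz)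
  have hcd : conj (den z) ≠ 0 := by simpa using den_ne hz
  have e1 : (den (iot z))⁻¹ = conj z ^ 8 * (conj (den z))⁻¹ := by
    rw [← den_iot hz, mul_inv]
    field_simp
  have e2 : (((normSq z ^ 2)⁻¹ : ℝ) : ℂ) = (z ^ 2)⁻¹ * (conj z ^ 2)⁻¹ := by
    rw [Complex.ofReal_inv, Complex.ofReal_pow, ← Complex.mul_conj, mul_pow, mul_inv]
  rw [Complex.real_smul, gg_iot hX hz, e1, e2]
  simp only [map_mul, map_pow, map_inv₀]
  have e3 : conj z ^ (4 - k) * conj z ^ k = conj z ^ 4 := by
    rw [← pow_add]; congr 1; omega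
  have e4 : iot z ^ k = (-1) ^ k * (conj z ^ k)⁻¹ := by
    rw [iot, neg_pow, inv_pow]
  rw [e4]
  have hk0 : conj z ^ k ≠ 0 := pow_ne_zero _ c0
  have e5 : conj z ^ (4 - k) = conj z ^ 4 * (conj z ^ k)⁻¹ := by
    rw [← e3]; field_simp
  rw [e5]
  field_simp

/-- The lower bound for the second variation. -/
theorem En_ge' (hX : TField X) :
    (8 / π) * (((mom X 0).re - 3 * (mom X 2).re) ^ 2 + (mom X 0).im ^ 2
      + 4 * (mom X 1).im ^ 2 - 8 * (mom X 1).re ^ 2) ≤ En X := by
  have h := En_ge hX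
  have h4 : mom X 4 = conj (mom X 0) := by
    have := mom_symm hX (k := 4) le_rfl
    norm_num at this
    exact this
  have h3 : mom X 3 = - conj (mom X 1) := by
    have := mom_symm hX (k := 3) (by norm_num)
    rw [this]; norm_num
  have h2 : (mom X 2).im = 0 := by
    have h := mom_symm hX (k := 2) (by norm_num)
    norm_num at h
    exact Complex.conj_eq_iff_im.mp h.symm
  refine le_trans (le_of_eq ?_) h
  rw [h4, h3]
  have e2 : mom X 2 = ((mom X 2).re : ℂ) := by
    apply Complex.ext <;> simp [h2]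
  set a := mom X 0
  set b := mom X 1
  rw [e2]
  set c := (mom X 2).re
  have hπ : π ≠ 0 := Real.pi_ne_zero
  simp only [Complex.add_re, Complex.sub_re, Complex.mul_re, Complex.neg_re, Complex.mul_im,
    Complex.conj_re, Complex.conj_im, Complex.ofReal_re, Complex.ofReal_im, pow_two,
    Complex.neg_im, Complex.re_ofNat, Complex.im_ofNat]
  field_simp
  ring

end Pool.Agent.Lib.Helper82.Mob
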