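import Pool.Agent.Lib.Helper82.Mob.Kernel
import Pool.Agent.Lib.Helper82.Mob.Surf

/-!
# Upper bound for the index: a lower bound for the second variation
-/

set_option autoImplicit false

open MeasureTheory Complex Set Topology Filter
open scoped ContDiff Real ComplexConjugate

namespace Pool.Agent.Lib.Helper82.Mob

/-- Test functions on `Om`. -/
structure Tst (f : ℂ → ℂ) : Prop where
  smooth : ContDiff ℝ 2 f
  cs : HasCompactSupport f
  supp : tsupport f ⊆ Om

lemma Tst.mul {f r : ℂ → ℂ} (hf : Tst f) (hr : ContDiffOn ℝ 2 r Om) : Tst (fun z => f z * r z) := by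
  refine ⟨?_, hf.cs.mul_right, (tsupport_mul_subset_left).trans hf.supp⟩
  rw [contDiff_iff_contDiffAt]
  intro z
  by_cases hz : z ∈ tsupport f
  · exact hf.smooth.contDiffAt.mul (hr.contDiffAt (isOpen_Om.mem_nhds (hf.supp hz)))
  · have h1 : f =ᶠ[𝓝 z] fun _ => 0 := notMem_tsupport_iff_eventuallyEq.mp hz
    have h2 : (fun z => f z * r z) =ᶠ[𝓝 z] fun _ => 0 := by
      filter_upwards [h1] with w hw
      rw [hw, zero_mul]
    exact contDiffAt_const.congr_of_eventuallyEq h2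

lemma Tst.zero : Tst (fun _ => 0) :=
  ⟨contDiff_const, HasCompactSupport.zero, by
    have : tsupport (fun _ : ℂ => (0:ℂ)) = ∅ := by
      rw [tsupport_eq_empty_iff]; rfl
    rw [this]; exact empty_subset _⟩

lemma Tst.add {f g : ℂ → ℂ} (hf : Tst f) (hg : Tst g) : Tst (fun z => f z + g z) :=
  ⟨hf.smooth.add hg.smooth, hf.cs.add hg.cs,
    (tsupport_add f g).trans (union_subset hf.supp hg.supp)⟩

lemma Tst.sum {ι : Type*} (s : Finset ι) {f : ι → ℂ → ℂ} (hf : ∀ i ∈ s, Tst (f i)) :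
    Tst (fun z => ∑ i ∈ s, f i z) := by
  classical
  induction s using Finset.induction_on with
  | empty => simpa using Tst.zero
  | insert a s ha ih =>
    have h1 : (fun z => ∑ i ∈ insert a s, f i z) = fun z => f a z + ∑ i ∈ s, f i z := by
      funext z; rw [Finset.sum_insert ha]
    rw [h1]
    exact (hf a (Finset.mem_insert_self _ _)).add
      (ih fun i hi => hf i (Finset.mem_insert_of_mem hi))

lemma Tst.eq_zero {f : ℂ → ℂ} (hf : Tst f) {z : ℂ} (hz : z ∉ Om) : f z = 0 :=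
  image_eq_zero_of_notMem_tsupport fun h => hz (hf.supp h)

lemma Tst.integrable {f : ℂ → ℂ} (hf : Tst f) : Integrable f :=
  hf.smooth.continuous.integrable_of_hasCompactSupport hf.cs

lemma contDiffOn_hol {f : ℂ → ℂ} (h : ∀ z ∈ Om, DifferentiableAt ℂ f z) : ContDiffOn ℝ 2 f Om := by
  have h1 : DifferentiableOn ℂ f Om := fun z hz => (h z hz).differentiableWithinAt
  have h2 : ContDiffOn ℂ 2 f Om := h1.contDiffOn isOpen_Om
  exact h2.restrict_scalars ℝ

lemma contDiffOn_conj {f : ℂ → ℂ} (h : ContDiffOn ℝ 2 f Om) :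
    ContDiffOn ℝ 2 (fun z => conj (f z)) Om :=
  (Complex.conjCLE : ℂ →L[ℝ] ℂ).contDiff.comp_contDiffOn h

lemma contDiffOn_W (j : Fin 4) : ContDiffOn ℝ 2 (W j) Om :=
  contDiffOn_hol fun _ hz => (hasDerivAt_W j hz).differentiableAt

lemma differentiableAt_V (j : Fin 4) {z : ℂ} (hz : z ∈ Om) : DifferentiableAt ℂ (V j) z := by
  have h1 : DifferentiableOn ℂ (W j) Om := fun z hz =>
    (hasDerivAt_W j hz).differentiableAt.differentiableWithinAt
  have h2 : DifferentiableOn ℂ (deriv (W j)) Om := h1.deriv isOpen_Om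
  have h3 : deriv (W j) =ᶠ[𝓝 z] V j := by
    filter_upwards [isOpen_Om.mem_nhds hz] with w hw using (hasDerivAt_W j hw).deriv
  exact (h2.differentiableAt (isOpen_Om.mem_nhds hz)).congr_of_eventuallyEq h3.symm

lemma contDiffOn_V (j : Fin 4) : ContDiffOn ℝ 2 (V j) Om :=
  contDiffOn_hol fun _ hz => differentiableAt_V j hz

lemma contDiffOn_NN : ContDiffOn ℝ 2 NN Om := by
  unfold NN
  exact ContDiffOn.sum fun j _ => (contDiffOn_W j).mul (contDiffOn_conj (contDiffOn_W j))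

lemma contDiffOn_den_inv : ContDiffOn ℝ 2 (fun z => (den z)⁻¹) Om := by
  refine contDiffOn_hol fun z hz => ?_
  refine DifferentiableAt.fun_inv ?_ (den_ne hz)
  unfold den
  fun_prop

/-- Normal, invariant, real test fields. -/
structure TField (X : Fin 4 → ℂ → ℂ) : Prop where
  tst : ∀ j, Tst (X j)
  real : ∀ j z, conj (X j z) = X j z
  normal : ∀ z ∈ Om, ∑ j, X j z * W j z = 0
  inv : ∀ j, ∀ z ∈ Om, X j (iot z) = X j z

/-- `ψ = X · W'`. -/
noncomputable def psi (X : Fin 4 → ℂ → ℂ) (z : ℂ) : ℂ := ∑ j, X j z * V j z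

/-- `g = \bar ψ / |W|²`. -/
noncomputable def gg (X : Fin 4 → ℂ → ℂ) (z : ℂ) : ℂ := ∑ j, X j z * (conj (V j z) / NN z)

/-- A quarter of the second variation on the double cover. -/
noncomputable def En (X : Fin 4 → ℂ → ℂ) : ℝ :=
  (∑ j, ∫ z, ‖dz (X j) z‖ ^ 2) - 2 * ∫ z, ‖psi X z‖ ^ 2 / (∑ j, ‖W j z‖ ^ 2)

/-- The moments. -/
noncomputable def mom (X : Fin 4 → ℂ → ℂ) (k : ℕ) : ℂ := ∫ w, gg X w * (w ^ k * (den w)⁻¹)

lemma mom_def (X : Fin 4 → ℂ → ℂ) (k : ℕ) :
    ∫ w, gg X w * (w ^ k * (den w)⁻¹) = mom X k := rfl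

variable {X : Fin 4 → ℂ → ℂ}

lemma tst_gg (hX : ∀ j, Tst (X j)) : Tst (gg X) := by
  unfold gg
  refine Tst.sum _ fun j _ => (hX j).mul ?_
  have h : ContDiffOn ℝ 2 (fun z => (NN z)⁻¹) Om :=
    contDiffOn_NN.inv fun z hz => NN_ne hz
  simp only [div_eq_mul_inv]
  exact (contDiffOn_conj (contDiffOn_V j)).mul h

lemma gg_eq (hX : TField X) (z : ℂ) : gg X z = conj (psi X z) / NN z := by
  rw [gg, psi, map_sum, Finset.sum_div]
  refine Finset.sum_congr rfl fun j _ => ?_
  rw [map_mul, hX.real]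
  ring

lemma tst_mom (hX : ∀ j, Tst (X j)) (k : ℕ) : Tst (fun w => gg X w * (w ^ k * (den w)⁻¹)) :=
  (tst_gg hX).mul ((contDiff_id.pow k).contDiffOn.mul contDiffOn_den_inv)

lemma dz_of_holo {f : ℂ → ℂ} {f' z : ℂ} (h : HasDerivAt f f' z) : dz f z = f' := by
  have h1 : HasFDerivAt f ((ContinuousLinearMap.toSpanSingleton ℂ f').restrictScalars ℝ) z :=
    h.hasFDerivAt.restrictScalars ℝ
  rw [dz, h1.fderiv]
  simp
  linear_combination (-1/2 * f') * I_mul_I

lemma sum_dzX_W (hX : TField X) {z : ℂ} (hz : z ∈ Om) :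
    ∑ j, dz (X j) z * W j z = - psi X z := by
  have h1 : dz (fun w => ∑ j, X j w * W j w) z = ∑ j, (dz (X j) z * W j z + X j z * V j z) := by
    rw [dz_sum]
    · refine Finset.sum_congr rfl fun j _ => ?_
      rw [dz_mul ((hX.tst j).smooth.differentiable (by norm_num) z)
        ((hasDerivAt_W j hz).differentiableAt.restrictScalars ℝ), dz_of_holo (hasDerivAt_W j hz)]
    · intro j _
      exact ((hX.tst j).smooth.differentiable (by norm_num) z).mul
        ((hasDerivAt_W j hz).differentiableAt.restrictScalars ℝ)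
  have h2 : (fun w => ∑ j, X j w * W j w) =ᶠ[𝓝 z] fun _ => 0 := by
    filter_upwards [isOpen_Om.mem_nhds hz] with w hw using hX.normal w hw
  have h3 : dz (fun w => ∑ j, X j w * W j w) z = 0 := by
    rw [dz, h2.fderiv_eq]; simp
  rw [h3, Finset.sum_add_distrib] at h1
  rw [psi]
  linear_combination -h1

lemma lin5 {f : ℕ → ℂ → ℂ} (hf : ∀ k, Integrable (f k)) (c0 c1 c2 c3 c4 : ℂ) :
    ∫ w, (c0 * f 0 w + c1 * f 1 w + c2 * f 2 w + c3 * f 3 w + c4 * f 4 w)
      = c0 * (∫ w, f 0 w) + c1 * (∫ w, f 1 w) + c2 * (∫ w, f 2 w) + c3 * (∫ w, f 3 w)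
        + c4 * (∫ w, f 4 w) := by
  have k0 := (hf 0).const_mul c0
  have k1 := (hf 1).const_mul c1
  have k2 := (hf 2).const_mul c2
  have k3 := (hf 3).const_mul c3
  have k4 := (hf 4).const_mul c4
  have j1 : Integrable (fun w => c0 * f 0 w + c1 * f 1 w) := k0.add k1
  have j2 : Integrable (fun w => c0 * f 0 w + c1 * f 1 w + c2 * f 2 w) := j1.add k2
  have j3 : Integrable (fun w => c0 * f 0 w + c1 * f 1 w + c2 * f 2 w + c3 * f 3 w) := j2.add k3
  rw [integral_add j3 k4, integral_add j2 k3, integral_add j1 k2, integral_add k0 k1]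
  simp only [integral_const_mul]

/-- The key lower bound, in terms of the moments. -/
theorem En_ge (hX : TField X) :
    (4 / π) * (2 * mom X 0 * mom X 4 - 6 * mom X 0 * mom X 2 - 6 * mom X 1 ^ 2
      + 4 * mom X 1 * mom X 3 + 18 * mom X 2 ^ 2 - 6 * mom X 2 * mom X 4
      - 6 * mom X 3 ^ 2).re ≤ En X := by
  set G : Fin 4 → ℂ → ℂ := fun j z => gg X z * W j z with hGdef
  have hg := tst_gg hX.tst
  have hG : ∀ j, Tst (G j) := fun j => hg.mul (contDiffOn_W j)
  -- sum of the component inequalities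
  have h0 : 0 ≤ ∑ j, ((∫ z, ‖dz (X j) z‖ ^ 2) + 2 * (∫ z, ‖G j z‖ ^ 2)
      + 4 * (∫ z, dz (X j) z * G j z).re + 2 * (∫ z, dz (cT (G j)) z * G j z).re) :=
    Finset.sum_nonneg fun j _ => component_ineq (hX.tst j).smooth (hX.tst j).cs (hX.real j)
      (hG j).smooth (hG j).cs
  -- the middle terms
  set E2 : ℝ := ∫ z, ‖psi X z‖ ^ 2 / (∑ j, ‖W j z‖ ^ 2) with hE2
  have m1 : ∑ j, (∫ z, ‖G j z‖ ^ 2) = E2 := by
    rw [← integral_finsetSum _ fun j _ => integrable_sq_cs (hG j).smooth.continuous (hG j).cs]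
    rw [hE2]
    refine integral_congr_ae (Eventually.of_forall fun z => ?_)
    simp only [hGdef, norm_mul, mul_pow]
    rw [← Finset.mul_sum]
    by_cases hz : z ∈ Om
    · have hN := N_pos hz
      rw [gg_eq hX, norm_div, NN_eq, Complex.norm_real, Real.norm_of_nonneg hN.le, div_pow,
        RCLike.norm_conj]
      field_simp
    · rw [hg.eq_zero hz, psi]
      simp [(hX.tst _).eq_zero hz]
  have m2 : ∑ j, (∫ z, dz (X j) z * G j z).re = - E2 := by
    have hi : ∀ j, Integrable (fun z => dz (X j) z * G j z) := fun j =>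
      integrable_cs (contDiff_dz (hX.tst j).smooth).continuous (hG j).smooth.continuous (hG j).cs
    rw [← Complex.re_sum, ← integral_finsetSum _ fun j _ => hi j]
    have e : ∀ z, ∑ j, dz (X j) z * G j z
        = ((- (‖psi X z‖ ^ 2 / (∑ j, ‖W j z‖ ^ 2)) : ℝ) : ℂ) := by
      intro z
      by_cases hz : z ∈ Om
      · have h1 : ∑ j, dz (X j) z * G j z = gg X z * ∑ j, dz (X j) z * W j z := by
          rw [Finset.mul_sum]
          refine Finset.sum_congr rfl fun j _ => ?_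
          simp only [hGdef]; ring
        rw [h1, sum_dzX_W hX hz, gg_eq hX, NN_eq]
        have h2 : conj (psi X z) / ((∑ j, ‖W j z‖ ^ 2 : ℝ) : ℂ) * - psi X z
            = - ((psi X z * conj (psi X z)) / ((∑ j, ‖W j z‖ ^ 2 : ℝ) : ℂ)) := by ring
        rw [h2, Complex.mul_conj, Complex.normSq_eq_norm_sq]
        push_cast
        rfl
      · rw [psi]
        simp [hGdef, hg.eq_zero hz, (hX.tst _).eq_zero hz]
    simp only [e]
    rw [integral_complex_ofReal, Complex.ofReal_re, integral_neg]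
  -- the kernel term
  have m3 : ∑ j, (∫ z, dz (cT (G j)) z * G j z).re
      = - (2 / π) * (2 * mom X 0 * mom X 4 - 6 * mom X 0 * mom X 2 - 6 * mom X 1 ^ 2
      + 4 * mom X 1 * mom X 3 + 18 * mom X 2 ^ 2 - 6 * mom X 2 * mom X 4
      - 6 * mom X 3 ^ 2).re := by
    have hi : ∀ j, Integrable (fun z => dz (cT (G j)) z * G j z) := fun j =>
      integrable_cs (contDiff_dz (contDiff_cT (hG j).smooth (hG j).cs)).continuous
        (hG j).smooth.continuous (hG j).cs
    have hm : ∀ k, Integrable (fun w => gg X w * (w ^ k * (den w)⁻¹)) := fun k =>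
      (tst_mom hX.tst k).integrable
    rw [← Complex.re_sum, ← integral_finsetSum _ fun j _ => hi j]
    have e : ∀ z, ∑ j, dz (cT (G j)) z * G j z
        = (- (2 / π) * (mom X 4 - 3 * mom X 2)) * (gg X z * (z ^ 0 * (den z)⁻¹))
          + (- (2 / π) * (2 * mom X 3 - 6 * mom X 1)) * (gg X z * (z ^ 1 * (den z)⁻¹))
          + (- (2 / π) * (18 * mom X 2 - 3 * mom X 0 - 3 * mom X 4)) * (gg X z * (z ^ 2 * (den z)⁻¹))
          + (- (2 / π) * (2 * mom X 1 - 6 * mom X 3)) * (gg X z * (z ^ 3 * (den z)⁻¹))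
          + (- (2 / π) * (mom X 0 - 3 * mom X 2)) * (gg X z * (z ^ 4 * (den z)⁻¹)) := by
      intro z
      by_cases hz : z ∈ Om
      · have h1 : ∑ j, dz (cT (G j)) z * G j z = gg X z * ∑ j, W j z * dz (cT (G j)) z := by
          rw [Finset.mul_sum]
          refine Finset.sum_congr rfl fun j _ => ?_
          simp only [hGdef]; ring
        -- the density
        set h : ℂ → ℂ := fun w => gg X w * (2 * nn z w / (den z * den w)) with hh
        have hr : ContDiffOn ℝ 2 (fun w => 2 * nn z w / (den z * den w)) Om := by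
          refine contDiffOn_hol fun w hw => ?_
          refine DifferentiableAt.fun_div ?_ ?_ (mul_ne_zero (den_ne hz) (den_ne hw))
          · unfold nn; fun_prop
          · unfold den; fun_prop
        have hht : Tst h := hg.mul hr
        have h2 := kernel_formula Finset.univ (G := G) (fun j _ => (hG j).smooth)
          (fun j _ => (hG j).cs) (fun j => W j z) hht.smooth hht.cs z (by
            intro w
            by_cases hw : w ∈ Om
            · have : ∑ i, W i z * G i w = gg X w * ∑ i, W i z * W i w := by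
                rw [Finset.mul_sum]
                refine Finset.sum_congr rfl fun j _ => ?_
                simp only [hGdef]; ring
              rw [this, W_dot_W hz hw, hh]; ring
            · simp [hGdef, hh, hg.eq_zero hw])
        have h3 : ∫ w, h w = 2 * (den z)⁻¹ * (z ^ 4 * mom X 0 + mom X 4 - 3 * z ^ 2 * mom X 0
            - 3 * mom X 2 - 6 * z * mom X 1 + 2 * z ^ 3 * mom X 1 + 2 * z * mom X 3
            + 18 * z ^ 2 * mom X 2 - 3 * z ^ 4 * mom X 2 - 3 * z ^ 2 * mom X 4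
            - 6 * z ^ 3 * mom X 3) := by
          have e3 : ∀ w, h w = (2 * (den z)⁻¹ * (z ^ 4 - 3 * z ^ 2)) * (gg X w * (w ^ 0 * (den w)⁻¹))
              + (2 * (den z)⁻¹ * (2 * z ^ 3 - 6 * z)) * (gg X w * (w ^ 1 * (den w)⁻¹))
              + (2 * (den z)⁻¹ * (18 * z ^ 2 - 3 - 3 * z ^ 4)) * (gg X w * (w ^ 2 * (den w)⁻¹))
              + (2 * (den z)⁻¹ * (2 * z - 6 * z ^ 3)) * (gg X w * (w ^ 3 * (den w)⁻¹))
              + (2 * (den z)⁻¹ * (1 - 3 * z ^ 2)) * (gg X w * (w ^ 4 * (den w)⁻¹)) := by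
            intro w
            simp only [hh, nn, div_eq_mul_inv, mul_inv]
            ring
          simp only [e3]
          rw [lin5 (f := fun k w => gg X w * (w ^ k * (den w)⁻¹)) hm]
          simp only [mom_def]
          ring
        rw [h1, h2, h3]
        ring
      · simp [hGdef, hg.eq_zero hz]
    simp only [e]
    rw [lin5 (f := fun k w => gg X w * (w ^ k * (den w)⁻¹)) hm]
    simp only [mom_def]
    have e5 : (-(2 / (π:ℂ)) * (mom X 4 - 3 * mom X 2)) * mom X 0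
        + (-(2 / (π:ℂ)) * (2 * mom X 3 - 6 * mom X 1)) * mom X 1
        + (-(2 / (π:ℂ)) * (18 * mom X 2 - 3 * mom X 0 - 3 * mom X 4)) * mom X 2
        + (-(2 / (π:ℂ)) * (2 * mom X 1 - 6 * mom X 3)) * mom X 3
        + (-(2 / (π:ℂ)) * (mom X 0 - 3 * mom X 2)) * mom X 4
        = ((-(2 / π) : ℝ) : ℂ) * (2 * mom X 0 * mom X 4 - 6 * mom X 0 * mom X 2 - 6 * mom X 1 ^ 2
          + 4 * mom X 1 * mom X 3 + 18 * mom X 2 ^ 2 - 6 * mom X 2 * mom X 4
          - 6 * mom X 3 ^ 2) := by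
      push_cast
      ring
    rw [e5, Complex.re_ofReal_mul]
  have h1 : (∑ j, ((∫ z, ‖dz (X j) z‖ ^ 2) + 2 * (∫ z, ‖G j z‖ ^ 2)
      + 4 * (∫ z, dz (X j) z * G j z).re + 2 * (∫ z, dz (cT (G j)) z * G j z).re))
      = (∑ j, ∫ z, ‖dz (X j) z‖ ^ 2) + 2 * (∑ j, ∫ z, ‖G j z‖ ^ 2)
        + 4 * (∑ j, (∫ z, dz (X j) z * G j z).re)
        + 2 * (∑ j, (∫ z, dz (cT (G j)) z * G j z).re) := by
    simp only [Finset.sum_add_distrib, Finset.mul_sum]
  rw [h1, m1, m2, m3] at h0
  rw [En, ← hE2]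
  have : (4 / π) * (2 * mom X 0 * mom X 4 - 6 * mom X 0 * mom X 2 - 6 * mom X 1 ^ 2
      + 4 * mom X 1 * mom X 3 + 18 * mom X 2 ^ 2 - 6 * mom X 2 * mom X 4
      - 6 * mom X 3 ^ 2).re = - (2 * (- (2 / π) * (2 * mom X 0 * mom X 4 - 6 * mom X 0 * mom X 2 - 6 * mom X 1 ^ 2
      + 4 * mom X 1 * mom X 3 + 18 * mom X 2 ^ 2 - 6 * mom X 2 * mom X 4
      - 6 * mom X 3 ^ 2).re)) := by ring
  rw [this]
  linarith

end Pool.Agent.Lib.Helper82.Mob
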